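import Mathlib

/-!
# The directions `F h x ρ = Σ_{j<h} x^j ρ^{h-1-j}`
-/

open Finset Matrix

namespace Helper47.Spec

/-- `F h x ρ = Σ_{j<h} x^j ρ^{h-1-j}`. -/
def F (h x ρ : ℕ) : ℕ := ∑ j : Fin h, x ^ (j : ℕ) * ρ ^ (j.rev : ℕ)

/-- The common denominator. -/
def DD (h Q : ℕ) : ℕ := (Q.factorial) ^ (h * h)

/-- The bound for the coefficients. -/
def UU (h Q : ℕ) : ℕ := DD h Q * (h.factorial * (Q ^ h) ^ h)

lemma DD_pos (h Q : ℕ) : 0 < DD h Q := pow_pos (Nat.factorial_pos _) _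

section

variable {h Q : ℕ} {m ρ : Fin h → ℕ}

private def V (m ρ : Fin h → ℕ) : Matrix (Fin h) (Fin h) ℤ :=
  projVandermonde (fun i => (m i : ℤ)) (fun i => (ρ i : ℤ))

private lemma F_eq (p : ℕ) (i : Fin h) :
    (F h (m i * p) (ρ i) : ℤ) = ∑ k : Fin h, V m ρ i k * (p : ℤ) ^ (k : ℕ) := by
  unfold F
  push_cast
  refine sum_congr rfl fun k _ => ?_
  simp only [V, projVandermonde_apply]
  ring

private lemma V_le (hm1 : ∀ i, 1 ≤ m i) (hρ1 : ∀ i, 1 ≤ ρ i) (hQ : ∀ i j, m i * ρ j ≤ Q)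
    (i k : Fin h) : |V m ρ i k| ≤ ((Q ^ h : ℕ) : ℤ) := by
  simp only [V, projVandermonde_apply]
  have h1 : m i ≤ Q := le_trans (Nat.le_mul_of_pos_right _ (hρ1 i)) (hQ i i)
  have h2 : ρ i ≤ Q := le_trans (Nat.le_mul_of_pos_left _ (hm1 i)) (hQ i i)
  have hQ1 : 1 ≤ Q := le_trans (hm1 i) h1
  rw [abs_of_nonneg (by positivity)]
  have : m i ^ (k : ℕ) * ρ i ^ (k.rev : ℕ) ≤ Q ^ h := by
    calc m i ^ (k : ℕ) * ρ i ^ (k.rev : ℕ) ≤ Q ^ (k : ℕ) * Q ^ (k.rev : ℕ) :=
          Nat.mul_le_mul (Nat.pow_le_pow_left h1 _) (Nat.pow_le_pow_left h2 _)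
      _ = Q ^ ((k : ℕ) + (k.rev : ℕ)) := by rw [pow_add]
      _ ≤ Q ^ h := Nat.pow_le_pow_right hQ1 (by rw [Fin.val_rev]; omega)
  exact_mod_cast this

private lemma det_ne (hne : ∀ i j, i ≠ j → m i * ρ j ≠ m j * ρ i) : (V m ρ).det ≠ 0 := by
  unfold V
  rw [det_projVandermonde]
  refine prod_ne_zero_iff.2 fun i _ => prod_ne_zero_iff.2 fun j hj => ?_
  have hij : j ≠ i := (mem_Ioi.1 hj).ne'
  have := hne j i hij
  intro h0
  apply this
  have h1 : (m j : ℤ) * ρ i = m i * ρ j := by linarith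
  exact_mod_cast h1

private lemma det_dvd (hQ : ∀ i j, m i * ρ j ≤ Q)
    (hne : ∀ i j, i ≠ j → m i * ρ j ≠ m j * ρ i) : (V m ρ).det ∣ (DD h Q : ℤ) := by
  unfold V
  rw [det_projVandermonde]
  have hf : ∀ i j : Fin h, i ≠ j →
      ((m j : ℤ) * ρ i - m i * ρ j) ∣ ((Q.factorial : ℕ) : ℤ) := by
    intro i j hij
    rw [← Int.natAbs_dvd, Int.natCast_dvd_natCast]
    have h1 : (m j : ℤ) * ρ i ≤ Q := by exact_mod_cast hQ j i
    have h2 : (m i : ℤ) * ρ j ≤ Q := by exact_mod_cast hQ i j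
    have h1' : (0 : ℤ) ≤ (m j : ℤ) * ρ i := by positivity
    have h2' : (0 : ℤ) ≤ (m i : ℤ) * ρ j := by positivity
    refine Nat.dvd_factorial ?_ (by omega)
    rw [Int.natAbs_pos]
    intro h0
    have := hne j i hij.symm
    apply this
    have h3 : (m j : ℤ) * ρ i = m i * ρ j := by linarith
    exact_mod_cast h3
  have hin : ∀ i : Fin h, (∏ j ∈ Ioi i, ((m j : ℤ) * ρ i - m i * ρ j)) ∣
      ((Q.factorial : ℕ) : ℤ) ^ h := by
    intro i
    calc (∏ j ∈ Ioi i, ((m j : ℤ) * ρ i - m i * ρ j)) ∣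
        ∏ j ∈ Ioi i, ((Q.factorial : ℕ) : ℤ) :=
          prod_dvd_prod_of_dvd _ _ fun j hj => hf i j (mem_Ioi.1 hj).ne
      _ = ((Q.factorial : ℕ) : ℤ) ^ (Ioi i).card := by rw [prod_const]
      _ ∣ ((Q.factorial : ℕ) : ℤ) ^ h := by
          refine pow_dvd_pow _ ?_
          simpa using card_le_univ (Ioi i)
  calc (∏ i : Fin h, ∏ j ∈ Ioi i, ((m j : ℤ) * ρ i - m i * ρ j)) ∣
      ∏ _i : Fin h, ((Q.factorial : ℕ) : ℤ) ^ h := prod_dvd_prod_of_dvd _ _ fun i _ => hin i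
    _ = (DD h Q : ℤ) := by
      rw [prod_const, card_univ, Fintype.card_fin, ← pow_mul]
      unfold DD
      push_cast
      rfl

private lemma adj_le (hm1 : ∀ i, 1 ≤ m i) (hρ1 : ∀ i, 1 ≤ ρ i) (hQ : ∀ i j, m i * ρ j ≤ Q)
    (i j : Fin h) : |(V m ρ).adjugate i j| ≤ ((h.factorial * (Q ^ h) ^ h : ℕ) : ℤ) := by
  rw [adjugate_apply]
  have hQ1 : 1 ≤ Q := le_trans (hm1 i) (le_trans (Nat.le_mul_of_pos_right _ (hρ1 i)) (hQ i i))
  have hb : ∀ a b, AbsoluteValue.abs (((V m ρ).updateRow j (Pi.single i 1)) a b) ≤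
      ((Q ^ h : ℕ) : ℤ) := by
    intro a b
    rw [AbsoluteValue.abs_apply]
    by_cases haj : a = j
    · subst haj
      rw [updateRow_self]
      have h1 : (1 : ℤ) ≤ ((Q ^ h : ℕ) : ℤ) := by exact_mod_cast Nat.one_le_pow _ _ hQ1
      by_cases hbi : b = i
      · subst hbi; simpa using h1
      · rw [Pi.single_eq_of_ne hbi]; simp
    · rw [updateRow_ne haj]
      exact V_le hm1 hρ1 hQ a b
  have := det_le hb
  rw [AbsoluteValue.abs_apply, Fintype.card_fin] at this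
  refine this.trans (le_of_eq ?_)
  push_cast
  rw [nsmul_eq_mul]

/-- Every `DD h Q * p^j` is a combination of the directions, with bounded coefficients. -/
theorem alg_one (hm1 : ∀ i, 1 ≤ m i) (hρ1 : ∀ i, 1 ≤ ρ i) (hQ : ∀ i j, m i * ρ j ≤ Q)
    (hne : ∀ i j, i ≠ j → m i * ρ j ≠ m j * ρ i) :
    ∃ u : Fin h → Fin h → ℤ, (∀ i j, |u i j| ≤ (UU h Q : ℤ)) ∧
      ∀ (p : ℕ) (j : Fin h), (DD h Q : ℤ) * (p : ℤ) ^ (j : ℕ) =
        ∑ i, u i j * (F h (m i * p) (ρ i) : ℤ) := by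
  obtain ⟨e, he⟩ := det_dvd hQ hne
  have hdet := det_ne (m := m) (ρ := ρ) hne
  refine ⟨fun i j => e * (V m ρ).adjugate j i, fun i j => ?_, fun p j => ?_⟩
  · rw [abs_mul]
    unfold UU
    push_cast
    have h1 := adj_le (m := m) (ρ := ρ) hm1 hρ1 hQ j i
    push_cast at h1
    refine mul_le_mul ?_ h1 (abs_nonneg _) (by positivity)
    have h2 : (DD h Q : ℤ) = |(V m ρ).det| * |e| := by
      rw [← abs_mul, ← he, abs_of_nonneg (by positivity)]
    rw [h2]
    have h3 : 1 ≤ |(V m ρ).det| := Int.one_le_abs hdet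
    nlinarith [abs_nonneg e]
  · have hmul : ∀ k, ∑ i, (V m ρ).adjugate j i * V m ρ i k =
        (V m ρ).det * (1 : Matrix (Fin h) (Fin h) ℤ) j k := by
      intro k
      have := congrFun (congrFun (adjugate_mul (V m ρ)) j) k
      rw [mul_apply] at this
      rw [this]
      simp
    calc (DD h Q : ℤ) * (p : ℤ) ^ (j : ℕ)
        = ∑ k, e * ((V m ρ).det * (1 : Matrix (Fin h) (Fin h) ℤ) j k) * (p : ℤ) ^ (k : ℕ) := by
          rw [sum_eq_single j]
          · rw [one_apply_eq, he]; ring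
          · intro k _ hk
            rw [one_apply_ne (Ne.symm hk)]; ring
          · intro hj; exact absurd (mem_univ _) hj
      _ = ∑ k, ∑ i, e * ((V m ρ).adjugate j i * V m ρ i k) * (p : ℤ) ^ (k : ℕ) := by
          refine sum_congr rfl fun k _ => ?_
          rw [← hmul k, mul_sum, sum_mul]
      _ = ∑ i, ∑ k, e * ((V m ρ).adjugate j i * V m ρ i k) * (p : ℤ) ^ (k : ℕ) := sum_comm
      _ = ∑ i, e * (V m ρ).adjugate j i * (F h (m i * p) (ρ i) : ℤ) := by
          refine sum_congr rfl fun i _ => ?_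
          rw [F_eq, mul_sum]
          refine sum_congr rfl fun k _ => ?_
          ring

/-- Digits: a vanishing combination of powers of `p` with small coefficients is trivial. -/
lemma digits_zero {n : ℕ} {p : ℤ} (c : Fin n → ℤ) (hc : ∀ j, 2 * |c j| < p)
    (h0 : ∑ j, c j * p ^ (j : ℕ) = 0) : ∀ j, c j = 0 := by
  induction n with
  | zero => exact fun j => j.elim0
  | succ n ih =>
    have hp : 0 < p := lt_of_le_of_lt (by positivity) (hc 0)
    rw [Fin.sum_univ_succ] at h0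
    simp only [Fin.val_zero, pow_zero, mul_one, Fin.val_succ] at h0
    have hdvd : p ∣ c 0 := by
      refine ⟨-∑ i : Fin n, c i.succ * p ^ (i : ℕ), ?_⟩
      have : ∑ i : Fin n, c i.succ * p ^ ((i : ℕ) + 1) =
          p * ∑ i : Fin n, c i.succ * p ^ (i : ℕ) := by
        rw [mul_sum]
        refine sum_congr rfl fun i _ => ?_
        ring
      rw [this] at h0
      linarith
    have hc0 : c 0 = 0 := by
      refine Int.eq_zero_of_abs_lt_dvd hdvd ?_
      have := hc 0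
      have h1 := abs_nonneg (c 0)
      linarith
    have hrest : ∀ j : Fin n, c j.succ = 0 := by
      refine ih (fun j => c j.succ) (fun j => hc j.succ) ?_
      have : ∑ i : Fin n, c i.succ * p ^ ((i : ℕ) + 1) =
          p * ∑ i : Fin n, c i.succ * p ^ (i : ℕ) := by
        rw [mul_sum]
        refine sum_congr rfl fun i _ => ?_
        ring
      rw [this, hc0, zero_add] at h0
      rcases mul_eq_zero.1 h0 with h1 | h1
      · exact absurd h1 hp.ne'
      · exact h1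
    intro j
    refine Fin.cases hc0 hrest j

/-- Independence: a vanishing combination of the directions with small coefficients is
trivial. -/
theorem alg_two (hm1 : ∀ i, 1 ≤ m i) (hρ1 : ∀ i, 1 ≤ ρ i) (hQ : ∀ i j, m i * ρ j ≤ Q)
    (hne : ∀ i j, i ≠ j → m i * ρ j ≠ m j * ρ i) {M₀ p : ℕ}
    (hp : 2 * (h * (Q ^ h * M₀)) < p) (μ : Fin h → ℤ) (hμ : ∀ i, |μ i| ≤ (M₀ : ℤ))
    (h0 : ∑ i, μ i * (F h (m i * p) (ρ i) : ℤ) = 0) : ∀ i, μ i = 0 := by
  have h1 : ∑ k : Fin h, (∑ i, μ i * V m ρ i k) * (p : ℤ) ^ (k : ℕ) = 0 := by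
    rw [← h0]
    calc ∑ k : Fin h, (∑ i, μ i * V m ρ i k) * (p : ℤ) ^ (k : ℕ)
        = ∑ k : Fin h, ∑ i, μ i * V m ρ i k * (p : ℤ) ^ (k : ℕ) :=
          sum_congr rfl fun k _ => by rw [sum_mul]
      _ = ∑ i, ∑ k : Fin h, μ i * V m ρ i k * (p : ℤ) ^ (k : ℕ) := sum_comm
      _ = ∑ i, μ i * (F h (m i * p) (ρ i) : ℤ) := by
          refine sum_congr rfl fun i _ => ?_
          rw [F_eq, mul_sum]
          exact sum_congr rfl fun k _ => by ring
  have h2 := digits_zero (p := (p : ℤ)) (fun k => ∑ i, μ i * V m ρ i k) (fun k => by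
    have : |∑ i, μ i * V m ρ i k| ≤ ((h * (Q ^ h * M₀) : ℕ) : ℤ) := by
      calc |∑ i, μ i * V m ρ i k| ≤ ∑ i, |μ i * V m ρ i k| := abs_sum_le_sum_abs _ _
        _ ≤ ∑ _i : Fin h, ((Q ^ h * M₀ : ℕ) : ℤ) := by
            refine sum_le_sum fun i _ => ?_
            rw [abs_mul, mul_comm]
            push_cast
            have := V_le (m := m) (ρ := ρ) hm1 hρ1 hQ i k
            push_cast at this
            exact mul_le_mul this (hμ i) (abs_nonneg _) (by positivity)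
        _ = ((h * (Q ^ h * M₀) : ℕ) : ℤ) := by
            rw [sum_const, card_univ, Fintype.card_fin, nsmul_eq_mul]
            push_cast
            rfl
    have hp' : (2 * (h * (Q ^ h * M₀)) : ℤ) < p := by exact_mod_cast hp
    push_cast at this
    linarith) h1
  have hdet := det_ne (m := m) (ρ := ρ) hne
  have h3 : μ ᵥ* V m ρ = 0 := by
    funext k
    simpa [vecMul, dotProduct] using h2 k
  have h4 := eq_zero_of_vecMul_eq_zero hdet h3
  exact fun i => congrFun h4 i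

end

end Helper47.Spec
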