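import Mathlib

/-!
# The abstract collision and coverage estimate
-/

open Finset

namespace Helper47.Spec

section indep

variable {I : Type*} [Fintype I] [DecidableEq I]

/-- If `z` does not depend on the coordinate `a`, then `t a = z t` holds for at most
`#{t | z t ∈ s a} / #(s a)` points of the product. -/
lemma card_coord_eq (s : I → Finset ℕ) (a : I) (z : (I → ℕ) → ℕ)
    (hz : ∀ t v, z (Function.update t a v) = z t) :
    ((Fintype.piFinset s).filter (fun t => t a = z t)).card * (s a).card ≤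
      ((Fintype.piFinset s).filter (fun t => z t ∈ s a)).card := by
  rw [← card_product]
  refine card_le_card_of_injOn (fun p => Function.update p.1 a p.2) ?_ ?_
  · rintro ⟨t, v⟩ hp
    simp only [coe_product, Set.mem_prod, mem_coe, mem_filter, Fintype.mem_piFinset] at hp
    obtain ⟨⟨h1, h2⟩, h3⟩ := hp
    simp only [coe_filter, Set.mem_ofPred_eq, Fintype.mem_piFinset]
    refine ⟨fun b => ?_, ?_⟩
    · by_cases hb : b = a
      · subst hb; simpa using h3
      · rw [Function.update_of_ne hb]; exact h1 b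
    · rw [hz, ← h2]; exact h1 a
  · rintro ⟨t, v⟩ hp ⟨t', v'⟩ hp' heq
    simp only [coe_product, Set.mem_prod, mem_coe, mem_filter, Fintype.mem_piFinset] at hp hp'
    simp only at heq
    have hv : v = v' := by
      have := congrFun heq a
      simpa using this
    have hzz : z t = z t' := by
      rw [← hz t v, ← hz t' v', heq]
    have ht : t = t' := by
      funext b
      by_cases hb : b = a
      · subst hb
        rw [hp.1.2, hp'.1.2, hzz]
      · have := congrFun heq b
        rwa [Function.update_of_ne hb, Function.update_of_ne hb] at this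
    rw [hv, ht]

omit [Fintype I] in
lemma sum_update_of_notMem (A : Finset I) (a : I) (ha : a ∉ A) (t : I → ℕ) (v : ℕ) :
    ∑ b ∈ A, Function.update t a v b = ∑ b ∈ A, t b := by
  refine sum_congr rfl fun b hb => ?_
  rw [Function.update_of_ne]
  rintro rfl
  exact ha hb

end indep

section main

variable {I J Y : Type*} [Fintype I] [DecidableEq I] [Fintype J] [DecidableEq J]
  [DecidableEq Y]

/-- The sum of the parts other than the big one. -/
def xval (α : Y → Finset I) (κ : Y → ℕ) (t : I → ℕ) (p : Y × I) : ℕ :=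
  (∑ a ∈ α p.1, t a) + t p.2 + κ p.1

/-- The ordered colliding pairs. -/
def coll (α : Y → Finset I) (κ : Y → ℕ) (X : Finset (Y × I)) (t : I → ℕ) :
    Finset ((Y × I) × (Y × I)) :=
  (X ×ˢ X).filter (fun pq => pq.1 ≠ pq.2 ∧ xval α κ t pq.1 = xval α κ t pq.2)

variable (s : I → Finset ℕ) (S : Finset Y) (C : Finset I) (α : Y → Finset I) (κ : Y → ℕ)

/-- For a fixed `p = (y, c)` and a fixed `y'`. -/
lemma pair_bound (m σ : ℕ)
    (hα : ∀ y ∈ S, (α y).card = m)
    (hinj : ∀ y ∈ S, ∀ y' ∈ S, α y = α y' → κ y = κ y' → y = y')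
    (hdisj : ∀ y ∈ S, Disjoint (α y) C)
    (hpair : ∀ c ∈ C, ∀ c' ∈ C, c ≠ c' → Disjoint (s c) (s c'))
    (hmin1 : ∀ y ∈ S, ∀ a ∈ α y, σ ≤ (s a).card) (hmin2 : ∀ c ∈ C, σ ≤ (s c).card)
    {y : Y} {c : I} (hy : y ∈ S) (hc : c ∈ C) {y' : Y} (hy' : y' ∈ S) :
    σ * ∑ c' ∈ C, ((Fintype.piFinset s).filter
      (fun t => (y, c) ≠ (y', c') ∧ xval α κ t (y, c) = xval α κ t (y', c'))).card ≤
      2 * (Fintype.piFinset s).card := by
  classical
  rw [← add_sum_erase C _ hc, mul_add, two_mul]
  refine add_le_add ?_ ?_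
  · -- same medium cell
    by_cases hyy : y = y'
    · subst hyy
      simp
    · by_cases hαα : α y = α y'
      · have : (Fintype.piFinset s).filter
          (fun t => (y, c) ≠ (y', c) ∧ xval α κ t (y, c) = xval α κ t (y', c)) = ∅ := by
          refine filter_false_of_mem fun t _ h => hyy ?_
          have h2 := h.2
          simp only [xval] at h2
          rw [hαα] at h2
          exact hinj y hy y' hy' hαα (by omega)
        rw [this]
        simp
      · -- there is `a ∈ α y' \ α y`
        obtain ⟨a, ha', ha⟩ : ∃ a, a ∈ α y' ∧ a ∉ α y := by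
          by_contra hcon
          push Not at hcon
          apply hαα
          refine (eq_of_subset_of_card_le hcon ?_).symm
          rw [hα y hy, hα y' hy']
        let z : (I → ℕ) → ℕ := fun t =>
          ((∑ b ∈ α y, t b) + κ y) - ((∑ b ∈ (α y').erase a, t b) + κ y')
        have hz : ∀ t v, z (Function.update t a v) = z t := by
          intro t v
          simp only [z]
          rw [sum_update_of_notMem _ _ ha, sum_update_of_notMem _ _ (notMem_erase a _)]
        have h1 := card_coord_eq s a z hz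
        have h2 : ((Fintype.piFinset s).filter
          (fun t => (y, c) ≠ (y', c) ∧ xval α κ t (y, c) = xval α κ t (y', c))).card ≤
            ((Fintype.piFinset s).filter (fun t => t a = z t)).card := by
          refine card_le_card fun t ht => ?_
          rw [mem_filter] at ht ⊢
          refine ⟨ht.1, ?_⟩
          have h3 := ht.2.2
          simp only [xval] at h3
          rw [← add_sum_erase (α y') _ ha'] at h3
          simp only [z]
          omega
        calc σ * _ ≤ (s a).card * ((Fintype.piFinset s).filter (fun t => t a = z t)).card :=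
              Nat.mul_le_mul (hmin1 y' hy' a ha') h2
          _ ≤ ((Fintype.piFinset s).filter (fun t => z t ∈ s a)).card := by
              rw [mul_comm]; exact h1
          _ ≤ _ := card_le_card (filter_subset _ _)
  · -- different medium cells
    let z : (I → ℕ) → ℕ := fun t => xval α κ t (y, c) - ((∑ b ∈ α y', t b) + κ y')
    have hstep : ∀ c' ∈ C.erase c, σ * ((Fintype.piFinset s).filter
      (fun t => (y, c) ≠ (y', c') ∧ xval α κ t (y, c) = xval α κ t (y', c'))).card ≤
        ((Fintype.piFinset s).filter (fun t => z t ∈ s c')).card := by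
      intro c' hc'
      have hne := ne_of_mem_erase hc'
      have hcC := mem_of_mem_erase hc'
      have hz : ∀ t v, z (Function.update t c' v) = z t := by
        intro t v
        simp only [z, xval]
        rw [sum_update_of_notMem _ _ (fun h => disjoint_left.1 (hdisj y hy) h hcC),
          sum_update_of_notMem _ _ (fun h => disjoint_left.1 (hdisj y' hy') h hcC),
          Function.update_of_ne hne.symm]
      have h1 := card_coord_eq s c' z hz
      have h2 : ((Fintype.piFinset s).filter
        (fun t => (y, c) ≠ (y', c') ∧ xval α κ t (y, c) = xval α κ t (y', c'))).card ≤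
          ((Fintype.piFinset s).filter (fun t => t c' = z t)).card := by
        refine card_le_card fun t ht => ?_
        rw [mem_filter] at ht ⊢
        refine ⟨ht.1, ?_⟩
        have h3 := ht.2.2
        simp only [z]
        rw [h3]
        simp only [xval]
        omega
      calc σ * _ ≤ (s c').card * ((Fintype.piFinset s).filter (fun t => t c' = z t)).card :=
            Nat.mul_le_mul (hmin2 c' hcC) h2
        _ ≤ _ := by rw [mul_comm]; exact h1
    rw [mul_sum]
    calc ∑ c' ∈ C.erase c, σ * ((Fintype.piFinset s).filter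
      (fun t => (y, c) ≠ (y', c') ∧ xval α κ t (y, c) = xval α κ t (y', c'))).card
        ≤ ∑ c' ∈ C.erase c, ((Fintype.piFinset s).filter (fun t => z t ∈ s c')).card :=
          sum_le_sum hstep
      _ = ((C.erase c).biUnion
            (fun c' => (Fintype.piFinset s).filter (fun t => z t ∈ s c'))).card := by
          rw [card_biUnion]
          intro c' hc' c'' hc'' hne
          rw [Function.onFun, disjoint_left]
          intro t ht ht'
          rw [mem_filter] at ht ht'
          exact disjoint_left.1 (hpair c' (mem_of_mem_erase hc') c'' (mem_of_mem_erase hc'')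
            hne) ht.2 ht'.2
      _ ≤ _ := card_le_card (biUnion_subset.2 fun c' _ => filter_subset _ _)

/-- The expected number of collisions. -/
lemma sum_coll_le (m σ : ℕ)
    (hα : ∀ y ∈ S, (α y).card = m)
    (hinj : ∀ y ∈ S, ∀ y' ∈ S, α y = α y' → κ y = κ y' → y = y')
    (hdisj : ∀ y ∈ S, Disjoint (α y) C)
    (hpair : ∀ c ∈ C, ∀ c' ∈ C, c ≠ c' → Disjoint (s c) (s c'))
    (hmin1 : ∀ y ∈ S, ∀ a ∈ α y, σ ≤ (s a).card) (hmin2 : ∀ c ∈ C, σ ≤ (s c).card) :
    σ * ∑ t ∈ Fintype.piFinset s, (coll α κ (S ×ˢ C) t).card ≤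
      (S ×ˢ C).card * (S.card * (2 * (Fintype.piFinset s).card)) := by
  have h1 : ∑ t ∈ Fintype.piFinset s, (coll α κ (S ×ˢ C) t).card =
      ∑ p ∈ S ×ˢ C, ∑ y' ∈ S, ∑ c' ∈ C, ((Fintype.piFinset s).filter
        (fun t => p ≠ (y', c') ∧ xval α κ t p = xval α κ t (y', c'))).card := by
    calc ∑ t ∈ Fintype.piFinset s, (coll α κ (S ×ˢ C) t).card
        = ∑ t ∈ Fintype.piFinset s, ∑ p ∈ S ×ˢ C, ∑ q ∈ S ×ˢ C,
            (if p ≠ q ∧ xval α κ t p = xval α κ t q then 1 else 0) := by
          refine sum_congr rfl fun t _ => ?_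
          unfold coll
          rw [card_filter, sum_product]
      _ = ∑ p ∈ S ×ˢ C, ∑ t ∈ Fintype.piFinset s, ∑ q ∈ S ×ˢ C,
            (if p ≠ q ∧ xval α κ t p = xval α κ t q then 1 else 0) := sum_comm
      _ = ∑ p ∈ S ×ˢ C, ∑ q ∈ S ×ˢ C, ∑ t ∈ Fintype.piFinset s,
            (if p ≠ q ∧ xval α κ t p = xval α κ t q then 1 else 0) :=
          sum_congr rfl fun p _ => sum_comm
      _ = _ := by
          refine sum_congr rfl fun p _ => ?_
          rw [sum_product]
          refine sum_congr rfl fun y' _ => sum_congr rfl fun c' _ => ?_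
          rw [card_filter]
  rw [h1, mul_sum, ← smul_eq_mul (a := (S ×ˢ C).card), ← sum_const]
  refine sum_le_sum fun p hp => ?_
  obtain ⟨y, c⟩ := p
  rw [mem_product] at hp
  rw [mul_sum, ← smul_eq_mul (a := S.card), ← sum_const]
  refine sum_le_sum fun y' hy' => ?_
  exact pair_bound s S C α κ m σ hα hinj hdisj hpair hmin1 hmin2 hp.1 hp.2 hy'

/-- Few collisions give many values. -/
lemma card_le_two_mul_image {ι : Type*} [DecidableEq ι] (X : Finset ι) (f : ι → ℕ)
    (hcoll : ((X ×ˢ X).filter (fun pq => pq.1 ≠ pq.2 ∧ f pq.1 = f pq.2)).card ≤ X.card) :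
    X.card ≤ 2 * (X.image f).card := by
  have h1 : ((X ×ˢ X).filter (fun pq => f pq.1 = f pq.2)).card ≤ 2 * X.card := by
    have : (X ×ˢ X).filter (fun pq => f pq.1 = f pq.2) ⊆
        (X ×ˢ X).filter (fun pq => pq.1 ≠ pq.2 ∧ f pq.1 = f pq.2) ∪
          X.image (fun p => (p, p)) := by
      intro pq hpq
      rw [mem_filter] at hpq
      by_cases h : pq.1 = pq.2
      · refine mem_union_right _ (mem_image.2 ⟨pq.1, (mem_product.1 hpq.1).1, ?_⟩)
        exact Prod.ext rfl h
      · exact mem_union_left _ (mem_filter.2 ⟨hpq.1, h, hpq.2⟩)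
    have h2 := card_le_card this
    have h3 := card_union_le ((X ×ˢ X).filter (fun pq => pq.1 ≠ pq.2 ∧ f pq.1 = f pq.2))
      (X.image (fun p => (p, p)))
    have h4 : (X.image (fun p => (p, p))).card ≤ X.card := card_image_le
    omega
  have h2 : ((X ×ˢ X).filter (fun pq => f pq.1 = f pq.2)).card =
      ∑ v ∈ X.image f, (X.filter (fun p => f p = v)).card ^ 2 := by
    rw [card_filter, sum_product]
    have : ∀ p ∈ X, (∑ q ∈ X, if f (p, q).1 = f (p, q).2 then 1 else 0) =
        (X.filter (fun q => f q = f p)).card := by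
      intro p _
      rw [card_filter]
      refine sum_congr rfl fun q _ => ?_
      simp only [eq_comm]
    rw [sum_congr rfl this, ← sum_fiberwise_of_maps_to (t := X.image f) (g := f)
      (fun x hx => mem_image_of_mem f hx)]
    refine sum_congr rfl fun v _ => ?_
    rw [sum_congr rfl (g := fun _ => (X.filter (fun q => f q = v)).card)]
    · rw [sum_const, smul_eq_mul, sq]
    · intro p hp
      rw [(mem_filter.1 hp).2]
  have h3 : X.card = ∑ v ∈ X.image f, (X.filter (fun p => f p = v)).card :=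
    card_eq_sum_card_image f X
  have h4 : X.card ^ 2 ≤ (X.image f).card * ∑ v ∈ X.image f,
      (X.filter (fun p => f p = v)).card ^ 2 := by
    have h5 := sq_sum_le_card_mul_sum_sq (s := X.image f)
      (f := fun v => ((X.filter (fun p => f p = v)).card : ℝ))
    rw [h3]
    exact_mod_cast h5
  rw [← h2] at h4
  rcases Nat.eq_zero_or_pos X.card with h0 | h0
  · omega
  · have h5 : X.card * X.card ≤ (2 * (X.image f).card) * X.card := by
      calc X.card * X.card = X.card ^ 2 := by ring
        _ ≤ _ := h4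
        _ ≤ (X.image f).card * (2 * X.card) := Nat.mul_le_mul_left _ h1
        _ = _ := by ring
    exact Nat.le_of_mul_le_mul_right h5 h0

/-- For a set `V` of values, all of which are completed to `n₀` by elements of sets `sJ β` of
size at most `B`: the number of choices `τ` of one element in each `sJ β` that avoid
`n₀ - V` is at most `exp (-#V / B)` times the number of all choices. -/
lemma miss_bound (sJ : J → Finset ℕ) (B : ℕ) (V : Finset ℕ) (n₀ : ℕ)
    (hV : ∀ v ∈ V, ∃ β, (sJ β).card ≤ B ∧ ∃ w ∈ sJ β, v + w = n₀) :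
    (((Fintype.piFinset sJ).filter (fun τ => ∀ v ∈ V, ∀ β, v + τ β ≠ n₀)).card : ℝ) ≤
      (Fintype.piFinset sJ).card * Real.exp (-(V.card : ℝ) / B) := by
  classical
  let H : J → Finset ℕ := fun β =>
    (sJ β).filter (fun w => (sJ β).card ≤ B ∧ ∃ v ∈ V, v + w = n₀)
  have hsub : (Fintype.piFinset sJ).filter (fun τ => ∀ v ∈ V, ∀ β, v + τ β ≠ n₀) ⊆
      Fintype.piFinset (fun β => sJ β \ H β) := by
    intro τ hτ
    rw [mem_filter, Fintype.mem_piFinset] at hτ
    rw [Fintype.mem_piFinset]
    intro β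
    rw [mem_sdiff]
    refine ⟨hτ.1 β, fun hH => ?_⟩
    obtain ⟨_, _, v, hv, hvw⟩ := mem_filter.1 hH
    exact hτ.2 v hv β hvw
  have hVH : V.card ≤ ∑ β, (H β).card := by
    calc V.card = (V.image (fun v => n₀ - v)).card := by
          rw [card_image_of_injOn]
          intro v hv v' hv' heq
          obtain ⟨_, _, w, _, hw⟩ := hV v hv
          obtain ⟨_, _, w', _, hw'⟩ := hV v' hv'
          simp only at heq
          omega
      _ ≤ (Finset.univ.biUnion H).card := by
          refine card_le_card fun x hx => ?_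
          obtain ⟨v, hv, rfl⟩ := mem_image.1 hx
          obtain ⟨β, hβ, w, hw, hvw⟩ := hV v hv
          rw [mem_biUnion]
          refine ⟨β, mem_univ _, mem_filter.2 ⟨?_, hβ, v, hv, ?_⟩⟩
          · have : n₀ - v = w := by omega
            rw [this]; exact hw
          · omega
      _ ≤ _ := card_biUnion_le
  have hone : ∀ β, ((sJ β \ H β).card : ℝ) ≤
      (sJ β).card * Real.exp (-((H β).card : ℝ) / B) := by
    intro β
    have hHs : H β ⊆ sJ β := filter_subset _ _
    have hcard : (sJ β \ H β).card = (sJ β).card - (H β).card := card_sdiff_of_subset hHs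
    have hle := card_le_card hHs
    rcases Nat.eq_zero_or_pos (H β).card with h0 | h0
    · rw [hcard, h0]; simp
    · -- then `#(sJ β) ≤ B`
      obtain ⟨w, hw⟩ := card_pos.1 h0
      have hB : (sJ β).card ≤ B := (mem_filter.1 hw).2.1
      have hpos : 0 < (sJ β).card := lt_of_lt_of_le h0 hle
      rw [hcard, Nat.cast_sub hle]
      have hs : (0 : ℝ) < (sJ β).card := by exact_mod_cast hpos
      have hBr : ((sJ β).card : ℝ) ≤ B := by exact_mod_cast hB
      have h1 : 1 - ((H β).card : ℝ) / (sJ β).card ≤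
          Real.exp (-((H β).card : ℝ) / (sJ β).card) := by
        have := Real.add_one_le_exp (-((H β).card : ℝ) / (sJ β).card)
        calc 1 - ((H β).card : ℝ) / (sJ β).card = -((H β).card : ℝ) / (sJ β).card + 1 := by ring
          _ ≤ _ := this
      have h2 : Real.exp (-((H β).card : ℝ) / (sJ β).card) ≤
          Real.exp (-((H β).card : ℝ) / B) := by
        apply Real.exp_le_exp.2
        rw [neg_div, neg_div, neg_le_neg_iff]
        exact div_le_div_of_nonneg_left (by positivity) hs hBr
      calc ((sJ β).card : ℝ) - (H β).card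
          = (sJ β).card * (1 - ((H β).card : ℝ) / (sJ β).card) := by
            field_simp
        _ ≤ (sJ β).card * Real.exp (-((H β).card : ℝ) / B) := by
            exact mul_le_mul_of_nonneg_left (h1.trans h2) hs.le
  calc (((Fintype.piFinset sJ).filter (fun τ => ∀ v ∈ V, ∀ β, v + τ β ≠ n₀)).card : ℝ)
      ≤ ((Fintype.piFinset (fun β => sJ β \ H β)).card : ℝ) := by
        exact_mod_cast card_le_card hsub
    _ = ∏ β, ((sJ β \ H β).card : ℝ) := by
        rw [Fintype.card_piFinset]; push_cast; rfl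
    _ ≤ ∏ β, ((sJ β).card * Real.exp (-((H β).card : ℝ) / B)) :=
        prod_le_prod (fun β _ => by positivity) fun β _ => hone β
    _ = (Fintype.piFinset sJ).card * Real.exp (∑ β, -((H β).card : ℝ) / B) := by
        rw [prod_mul_distrib, Fintype.card_piFinset, Real.exp_sum]; push_cast; rfl
    _ ≤ _ := by
        refine mul_le_mul_of_nonneg_left (Real.exp_le_exp.2 ?_) (by positivity)
        rw [← sum_div, sum_neg_distrib]
        have : (V.card : ℝ) ≤ ∑ β, ((H β).card : ℝ) := by exact_mod_cast hVH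
        gcongr

/-- The main abstract estimate. -/
theorem coverage (m σ B : ℕ) (hσ : 0 < σ)
    (hα : ∀ y ∈ S, (α y).card = m)
    (hinj : ∀ y ∈ S, ∀ y' ∈ S, α y = α y' → κ y = κ y' → y = y')
    (hdisj : ∀ y ∈ S, Disjoint (α y) C)
    (hpair : ∀ c ∈ C, ∀ c' ∈ C, c ≠ c' → Disjoint (s c) (s c'))
    (hmin1 : ∀ y ∈ S, ∀ a ∈ α y, σ ≤ (s a).card) (hmin2 : ∀ c ∈ C, σ ≤ (s c).card)
    (sJ : J → Finset ℕ) (Net : Finset ℕ)
    (hbig : ∀ n₀ ∈ Net, ∀ t ∈ Fintype.piFinset s, ∀ y ∈ S, ∀ c ∈ C,
      ∃ β, (sJ β).card ≤ B ∧ ∃ w ∈ sJ β, xval α κ t (y, c) + w = n₀) :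
    ((((Fintype.piFinset s) ×ˢ (Fintype.piFinset sJ)).filter (fun p => ∃ n₀ ∈ Net,
      ∀ y ∈ S, ∀ c ∈ C, ∀ β, xval α κ p.1 (y, c) + p.2 β ≠ n₀)).card : ℝ) ≤
      (Fintype.piFinset s).card * (Fintype.piFinset sJ).card *
        (2 * S.card / σ + Net.card * Real.exp (-((S.card : ℝ) * C.card) / (2 * B))) := by
  classical
  set Ω := Fintype.piFinset s with hΩ
  set ΩJ := Fintype.piFinset sJ with hΩJ
  set X := S ×ˢ C with hX
  -- the bad `t`
  let badt : Finset (I → ℕ) := Ω.filter (fun t => ¬ ((coll α κ X t).card ≤ X.card))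
  have hbadt : σ * badt.card ≤ 2 * S.card * Ω.card := by
    rcases Nat.eq_zero_or_pos X.card with h0 | h0
    · have : badt = ∅ := by
        refine filter_false_of_mem fun t _ h => h ?_
        have hX0 : X = ∅ := card_eq_zero.1 h0
        unfold coll
        rw [hX0]
        simp
      rw [this]; simp
    · have h1 := sum_coll_le s S C α κ m σ hα hinj hdisj hpair hmin1 hmin2
      rw [← hX, ← hΩ] at h1
      have h2 : badt.card * X.card ≤ ∑ t ∈ Ω, (coll α κ X t).card := by
        calc badt.card * X.card = ∑ _t ∈ badt, X.card := by rw [sum_const, smul_eq_mul]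
          _ ≤ ∑ t ∈ badt, (coll α κ X t).card := by
              refine sum_le_sum fun t ht => ?_
              have := (mem_filter.1 ht).2
              omega
          _ ≤ _ := sum_le_sum_of_subset (filter_subset _ _)
      have h3 : (σ * badt.card) * X.card ≤ (2 * S.card * Ω.card) * X.card := by
        calc (σ * badt.card) * X.card = σ * (badt.card * X.card) := by ring
          _ ≤ σ * ∑ t ∈ Ω, (coll α κ X t).card := Nat.mul_le_mul_left _ h2
          _ ≤ _ := h1
          _ = _ := by ring
      exact Nat.le_of_mul_le_mul_right h3 h0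
  -- the misses for good `t`
  have hmiss : ∀ t ∈ Ω, (coll α κ X t).card ≤ X.card → ∀ n₀ ∈ Net,
      ((ΩJ.filter (fun τ => ∀ y ∈ S, ∀ c ∈ C, ∀ β, xval α κ t (y, c) + τ β ≠ n₀)).card : ℝ) ≤
        ΩJ.card * Real.exp (-((S.card : ℝ) * C.card) / (2 * B)) := by
    intro t ht hgood n₀ hn₀
    let V := X.image (xval α κ t)
    have hVc : X.card ≤ 2 * V.card := card_le_two_mul_image X _ hgood
    have h1 : ΩJ.filter (fun τ => ∀ y ∈ S, ∀ c ∈ C, ∀ β, xval α κ t (y, c) + τ β ≠ n₀) =
        ΩJ.filter (fun τ => ∀ v ∈ V, ∀ β, v + τ β ≠ n₀) := by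
      refine filter_congr fun τ _ => ?_
      constructor
      · intro h v hv β
        obtain ⟨⟨y, c⟩, hp, rfl⟩ := mem_image.1 hv
        rw [hX, mem_product] at hp
        exact h y hp.1 c hp.2 β
      · intro h y hy c hc β
        exact h _ (mem_image_of_mem _ (by rw [hX, mem_product]; exact ⟨hy, hc⟩)) β
    rw [h1]
    refine (miss_bound sJ B V n₀ ?_).trans ?_
    · intro v hv
      obtain ⟨⟨y, c⟩, hp, rfl⟩ := mem_image.1 hv
      rw [hX, mem_product] at hp
      exact hbig n₀ hn₀ t ht y hp.1 c hp.2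
    · rw [← hΩJ]
      refine mul_le_mul_of_nonneg_left (Real.exp_le_exp.2 ?_) (by positivity)
      have h2 : (S.card : ℝ) * C.card ≤ 2 * V.card := by
        have : X.card = S.card * C.card := card_product _ _
        rw [this] at hVc
        exact_mod_cast hVc
      rcases Nat.eq_zero_or_pos B with hB | hB
      · rw [hB]; simp
      · have hB' : (0 : ℝ) < B := by exact_mod_cast hB
        rw [div_le_div_iff₀ hB' (by positivity)]
        nlinarith
  -- union bound
  have hcover : (Ω ×ˢ ΩJ).filter (fun p => ∃ n₀ ∈ Net,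
      ∀ y ∈ S, ∀ c ∈ C, ∀ β, xval α κ p.1 (y, c) + p.2 β ≠ n₀) ⊆
      badt ×ˢ ΩJ ∪ Net.biUnion (fun n₀ => (Ω \ badt).biUnion (fun t =>
        (ΩJ.filter (fun τ => ∀ y ∈ S, ∀ c ∈ C, ∀ β, xval α κ t (y, c) + τ β ≠ n₀)).image
          (fun τ => (t, τ)))) := by
    rintro ⟨t, τ⟩ hp
    rw [mem_filter, mem_product] at hp
    obtain ⟨⟨ht, hτ⟩, n₀, hn₀, hmis⟩ := hp
    by_cases hb : t ∈ badt
    · exact mem_union_left _ (mem_product.2 ⟨hb, hτ⟩)
    · refine mem_union_right _ (mem_biUnion.2 ⟨n₀, hn₀, mem_biUnion.2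
        ⟨t, mem_sdiff.2 ⟨ht, hb⟩, mem_image.2 ⟨τ, mem_filter.2 ⟨hτ, hmis⟩, rfl⟩⟩⟩)
  set E := Real.exp (-((S.card : ℝ) * C.card) / (2 * B)) with hE
  have hcard : (((Ω ×ˢ ΩJ).filter (fun p => ∃ n₀ ∈ Net,
      ∀ y ∈ S, ∀ c ∈ C, ∀ β, xval α κ p.1 (y, c) + p.2 β ≠ n₀)).card : ℝ) ≤
      badt.card * ΩJ.card + Net.card * (Ω.card * (ΩJ.card * E)) := by
    have h1 := (card_le_card hcover).trans (card_union_le _ _)
    rw [card_product] at h1
    have h2 : ((Net.biUnion (fun n₀ => (Ω \ badt).biUnion (fun t =>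
        (ΩJ.filter (fun τ => ∀ y ∈ S, ∀ c ∈ C, ∀ β, xval α κ t (y, c) + τ β ≠ n₀)).image
          (fun τ => (t, τ))))).card : ℝ) ≤ Net.card * (Ω.card * (ΩJ.card * E)) := by
      calc ((Net.biUnion (fun n₀ => (Ω \ badt).biUnion (fun t =>
        (ΩJ.filter (fun τ => ∀ y ∈ S, ∀ c ∈ C, ∀ β, xval α κ t (y, c) + τ β ≠ n₀)).image
          (fun τ => (t, τ))))).card : ℝ)
          ≤ ∑ n₀ ∈ Net, ∑ t ∈ Ω \ badt,
            ((ΩJ.filter (fun τ => ∀ y ∈ S, ∀ c ∈ C, ∀ β,
              xval α κ t (y, c) + τ β ≠ n₀)).card : ℝ) := by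
            have h3 : (Net.biUnion (fun n₀ => (Ω \ badt).biUnion (fun t =>
              (ΩJ.filter (fun τ => ∀ y ∈ S, ∀ c ∈ C, ∀ β,
                xval α κ t (y, c) + τ β ≠ n₀)).image (fun τ => (t, τ))))).card ≤
                ∑ n₀ ∈ Net, ∑ t ∈ Ω \ badt,
                  (ΩJ.filter (fun τ => ∀ y ∈ S, ∀ c ∈ C, ∀ β,
                    xval α κ t (y, c) + τ β ≠ n₀)).card := by
              refine card_biUnion_le.trans (sum_le_sum fun n₀ _ => ?_)
              exact card_biUnion_le.trans (sum_le_sum fun t _ => card_image_le)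
            exact_mod_cast h3
        _ ≤ ∑ n₀ ∈ Net, ∑ t ∈ Ω \ badt, ΩJ.card * E := by
            refine sum_le_sum fun n₀ hn₀ => sum_le_sum fun t ht => ?_
            rw [mem_sdiff] at ht
            have hg : (coll α κ X t).card ≤ X.card := by
              by_contra hcon
              exact ht.2 (mem_filter.2 ⟨ht.1, hcon⟩)
            exact hmiss t ht.1 hg n₀ hn₀
        _ = Net.card * ((Ω \ badt).card * (ΩJ.card * E)) := by
            rw [sum_const, sum_const, nsmul_eq_mul, nsmul_eq_mul]
        _ ≤ _ := by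
            have h4 : ((Ω \ badt).card : ℝ) ≤ Ω.card := by
              exact_mod_cast card_le_card sdiff_subset
            gcongr
    have h3 : (((Ω ×ˢ ΩJ).filter (fun p => ∃ n₀ ∈ Net,
      ∀ y ∈ S, ∀ c ∈ C, ∀ β, xval α κ p.1 (y, c) + p.2 β ≠ n₀)).card : ℝ) ≤
        ((badt.card * ΩJ.card + (Net.biUnion (fun n₀ => (Ω \ badt).biUnion (fun t =>
        (ΩJ.filter (fun τ => ∀ y ∈ S, ∀ c ∈ C, ∀ β, xval α κ t (y, c) + τ β ≠ n₀)).image
          (fun τ => (t, τ))))).card : ℕ) : ℝ) := by exact_mod_cast h1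
    push_cast at h3
    linarith
  have hσ' : (0 : ℝ) < σ := by exact_mod_cast hσ
  have hbad' : (badt.card : ℝ) ≤ 2 * S.card / σ * Ω.card := by
    rw [div_mul_eq_mul_div, le_div_iff₀ hσ']
    have : ((σ * badt.card : ℕ) : ℝ) ≤ ((2 * S.card * Ω.card : ℕ) : ℝ) := by
      exact_mod_cast hbadt
    push_cast at this
    linarith
  calc _ ≤ (badt.card : ℝ) * ΩJ.card + Net.card * (Ω.card * (ΩJ.card * E)) := hcard
    _ ≤ (2 * S.card / σ * Ω.card) * ΩJ.card + Net.card * (Ω.card * (ΩJ.card * E)) := by
        gcongr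
    _ = _ := by ring

end main

end Helper47.Spec
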