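import Pool.Agent.Helper47.Spec.Cover

/-!
# The coverage estimate with one index set
-/

open Finset

namespace Helper47.Spec

variable {K Y : Type*} [Fintype K] [DecidableEq K] [DecidableEq Y]

/-- The coverage estimate with one index set `K`, the big coordinates forming a subset `Bg`. -/
theorem coverage' (s : K → Finset ℕ) (S : Finset Y) (C Bg : Finset K) (α : Y → Finset K)
    (κ : Y → ℕ) (m σ B : ℕ) (hσ : 0 < σ)
    (hα : ∀ y ∈ S, (α y).card = m)
    (hinj : ∀ y ∈ S, ∀ y' ∈ S, α y = α y' → κ y = κ y' → y = y')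
    (hdisj : ∀ y ∈ S, Disjoint (α y) C)
    (hpair : ∀ c ∈ C, ∀ c' ∈ C, c ≠ c' → Disjoint (s c) (s c'))
    (hmin1 : ∀ y ∈ S, ∀ a ∈ α y, σ ≤ (s a).card) (hmin2 : ∀ c ∈ C, σ ≤ (s c).card)
    (hαB : ∀ y ∈ S, Disjoint (α y) Bg) (hCB : Disjoint C Bg) (Net : Finset ℕ)
    (hbig : ∀ n₀ ∈ Net, ∀ t ∈ Fintype.piFinset s, ∀ y ∈ S, ∀ c ∈ C,
      ∃ β ∈ Bg, (s β).card ≤ B ∧ ∃ w ∈ s β, xval α κ t (y, c) + w = n₀) :
    (((Fintype.piFinset s).filter (fun t => ∃ n₀ ∈ Net,
      ∀ y ∈ S, ∀ c ∈ C, ∀ β ∈ Bg, xval α κ t (y, c) + t β ≠ n₀)).card : ℝ) ≤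
      (Fintype.piFinset s).card *
        (2 * S.card / σ + Net.card * Real.exp (-((S.card : ℝ) * C.card) / (2 * B))) := by
  classical
  rcases (Fintype.piFinset s).eq_empty_or_nonempty with h0 | h0
  · rw [h0]; simp
  let sJ : {β // β ∈ Bg} → Finset ℕ := fun β => s β.1
  have hJne : (Fintype.piFinset sJ).Nonempty := by
    rw [Fintype.piFinset_nonempty] at h0 ⊢
    exact fun β => h0 β.1
  have hcov := coverage s S C α κ m σ B hσ hα hinj hdisj hpair hmin1 hmin2 sJ Net (by
    intro n₀ hn₀ t ht y hy c hc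
    obtain ⟨β, hβ, h1, h2⟩ := hbig n₀ hn₀ t ht y hy c hc
    exact ⟨⟨β, hβ⟩, h1, h2⟩)
  set Bad := (Fintype.piFinset s).filter (fun t => ∃ n₀ ∈ Net,
      ∀ y ∈ S, ∀ c ∈ C, ∀ β ∈ Bg, xval α κ t (y, c) + t β ≠ n₀) with hBad
  set Bad' := ((Fintype.piFinset s) ×ˢ (Fintype.piFinset sJ)).filter (fun p => ∃ n₀ ∈ Net,
      ∀ y ∈ S, ∀ c ∈ C, ∀ β, xval α κ p.1 (y, c) + p.2 β ≠ n₀) with hBad'
  -- the swap
  let Φ : (K → ℕ) × ({β // β ∈ Bg} → ℕ) → (K → ℕ) × ({β // β ∈ Bg} → ℕ) := fun p =>
    (fun a => if ha : a ∈ Bg then p.2 ⟨a, ha⟩ else p.1 a, fun β => p.1 β.1)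
  have hcard : (Bad ×ˢ Fintype.piFinset sJ).card ≤ Bad'.card := by
    refine card_le_card_of_injOn Φ ?_ ?_
    · rintro ⟨t, τ⟩ hp
      simp only [coe_product, Set.mem_prod, mem_coe] at hp
      obtain ⟨ht, hτ⟩ := hp
      rw [hBad, mem_filter] at ht
      obtain ⟨htΩ, n₀, hn₀, hmis⟩ := ht
      rw [mem_coe, hBad', mem_filter, mem_product]
      rw [Fintype.mem_piFinset] at htΩ hτ
      refine ⟨⟨?_, ?_⟩, n₀, hn₀, fun y hy c hc β => ?_⟩
      · rw [Fintype.mem_piFinset]
        intro a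
        simp only [Φ]
        split_ifs with ha
        · exact hτ ⟨a, ha⟩
        · exact htΩ a
      · rw [Fintype.mem_piFinset]
        intro β
        exact htΩ β.1
      · have h1 : xval α κ (Φ (t, τ)).1 (y, c) = xval α κ t (y, c) := by
          simp only [xval, Φ]
          have hcB : c ∉ Bg := disjoint_left.1 hCB hc
          rw [dif_neg hcB]
          congr 2
          refine sum_congr rfl fun a ha => ?_
          rw [dif_neg (disjoint_left.1 (hαB y hy) ha)]
        rw [h1]
        exact hmis y hy c hc β.1 β.2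
    · rintro ⟨t, τ⟩ _ ⟨t', τ'⟩ _ heq
      simp only [Φ, Prod.mk.injEq] at heq
      obtain ⟨h1, h2⟩ := heq
      have hτ : τ = τ' := by
        funext β
        have := congrFun h1 β.1
        simpa [β.2] using this
      have ht : t = t' := by
        funext a
        by_cases ha : a ∈ Bg
        · exact congrFun h2 ⟨a, ha⟩
        · have := congrFun h1 a
          simpa [ha] using this
      rw [ht, hτ]
  rw [card_product] at hcard
  have hJpos : (0 : ℝ) < (Fintype.piFinset sJ).card := by exact_mod_cast hJne.card_pos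
  have h1 : (Bad.card : ℝ) * (Fintype.piFinset sJ).card ≤ Bad'.card := by exact_mod_cast hcard
  have h2 := h1.trans hcov
  have h3 : (Bad.card : ℝ) * (Fintype.piFinset sJ).card ≤ ((Fintype.piFinset s).card *
        (2 * S.card / σ + Net.card * Real.exp (-((S.card : ℝ) * C.card) / (2 * B)))) *
          (Fintype.piFinset sJ).card := by
    refine h2.trans (le_of_eq ?_)
    ring
  exact le_of_mul_le_mul_right h3 hJpos

/-- Functions on `Bool × ι` are pairs of functions on `ι`. -/
lemma card_pair {ι : Type*} [Fintype ι] [DecidableEq ι] (s : Bool × ι → Finset ℕ)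
    (Q : (Bool × ι → ℕ) → Prop) [DecidablePred Q]
    [DecidablePred (fun p : (ι → ℕ) × (ι → ℕ) => Q (fun b => cond b.1 (p.2 b.2) (p.1 b.2)))] :
    (((Fintype.piFinset (fun i => s (false, i))) ×ˢ
      (Fintype.piFinset (fun i => s (true, i)))).filter
        (fun p => Q (fun b => cond b.1 (p.2 b.2) (p.1 b.2)))).card =
      ((Fintype.piFinset s).filter Q).card := by
  refine card_bij (fun p _ => fun b => cond b.1 (p.2 b.2) (p.1 b.2)) ?_ ?_ ?_
  · rintro ⟨t₀, t₁⟩ hp
    rw [mem_filter, mem_product, Fintype.mem_piFinset, Fintype.mem_piFinset] at hp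
    rw [mem_filter, Fintype.mem_piFinset]
    refine ⟨?_, hp.2⟩
    rintro ⟨e, i⟩
    cases e
    · exact hp.1.1 i
    · exact hp.1.2 i
  · rintro ⟨t₀, t₁⟩ _ ⟨t₀', t₁'⟩ _ heq
    have h0 : t₀ = t₀' := by
      funext i
      have := congrFun heq (false, i)
      simpa using this
    have h1 : t₁ = t₁' := by
      funext i
      have := congrFun heq (true, i)
      simpa using this
    rw [h0, h1]
  · intro t ht
    rw [mem_filter, Fintype.mem_piFinset] at ht
    have he : (fun b : Bool × ι => cond b.1 (t (true, b.2)) (t (false, b.2))) = t := by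
      funext b
      obtain ⟨e, i⟩ := b
      cases e <;> rfl
    refine ⟨(fun i => t (false, i), fun i => t (true, i)), ?_, he⟩
    rw [mem_filter, mem_product, Fintype.mem_piFinset, Fintype.mem_piFinset]
    refine ⟨⟨fun i => ht.1 _, fun i => ht.1 _⟩, ?_⟩
    simp only
    rw [he]
    exact ht.2

lemma card_pair' {ι : Type*} [Fintype ι] [DecidableEq ι] (s : Bool × ι → Finset ℕ) :
    (Fintype.piFinset (fun i => s (false, i))).card *
      (Fintype.piFinset (fun i => s (true, i))).card = (Fintype.piFinset s).card := by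
  classical
  have := card_pair s (fun _ => True)
  rw [filter_true, filter_true, card_product] at this
  exact this

end Helper47.Spec
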