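import Pool.Agent.Helper47.Spec.Alg

/-!
# The construction: parameters, offsets, elements; the net and the shift lemma
-/

open Finset

namespace Helper47.Spec

/-- The parameters of the construction. -/
structure Par where
  /-- `h = k + 2` -/
  k : ℕ
  /-- ratio of consecutive scales -/
  g : ℕ
  /-- number of small directions -/
  T : ℕ
  /-- width -/
  W : ℕ
  /-- `c₀ = g c₃` is the first cell -/
  c₃ : ℕ
  /-- margin at the end of an epoch -/
  c₂ : ℕ
  /-- lowest level -/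
  rlo : ℕ
  /-- bound for the small parts at level `r` -/
  rs : ℕ → ℕ
  /-- position of the medium part at level `r` -/
  rm : ℕ → ℕ

namespace Par

variable (P : Par)

/-- The order. -/
def h : ℕ := P.k + 2
/-- The first cell. -/
def c₀ : ℕ := P.g * P.c₃
/-- The end of the cells. -/
def c₁ : ℕ := P.g * P.c₀ - P.c₂
/-- The base, per unit of scale. -/
def base : ℕ := 2 * P.g * P.c₀ * P.W
/-- Bound for the entries. -/
def Q : ℕ := P.g * (2 * P.T + 1)
/-- Common denominator. -/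
def D : ℕ := DD P.h P.Q
/-- Bound for the coefficients. -/
def U : ℕ := UU P.h P.Q
/-- The number of cells. -/
def nc : ℕ := P.c₁ - P.c₀

/-- The coordinates of an epoch: pairs of a cell and a direction. -/
abbrev Idx : Type := Fin P.nc × Fin (P.T + 2)

/-- The value of a cell. -/
def cv (i : Fin P.nc) : ℕ := P.c₀ + i
/-- The value of a direction. -/
def dv (j : Fin (P.T + 2)) : ℕ := P.T + j
/-- The boundaries of the cells. -/
def bnd (u c : ℕ) : ℕ := (c * (P.W * u)) ^ P.h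
/-- The differences of the progressions. -/
def dd (u ρ : ℕ) : ℕ := F P.h (u * P.base) ρ
/-- The possible offsets. -/
def offs (u : ℕ) (i : P.Idx) : Finset ℕ :=
  Ico (P.bnd u (P.cv i.1)) (P.bnd u (P.cv i.1 + 1))
/-- The elements of an epoch. -/
def EP (u : ℕ) (t : P.Idx → ℕ) : Set ℕ :=
  {n | ∃ i : P.Idx, ∃ l < (P.h + 2) * u, n = t i + l * P.dd u (P.dv i.2)}
/-- The two scale factors of a stage. -/
def mu (e : Bool) : ℕ := cond e P.g 1

lemma mu_pos (hg : 1 ≤ P.g) (e : Bool) : 1 ≤ P.mu e := by cases e <;> simp [mu, hg]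

lemma mu_le (hg : 1 ≤ P.g) (e : Bool) : P.mu e ≤ P.g := by cases e <;> simp [mu, hg]

lemma dd_mu (e : Bool) (u ρ : ℕ) : P.dd (P.mu e * u) ρ = F P.h (P.mu e * (u * P.base)) ρ := by
  unfold dd
  rw [mul_assoc]

end Par

section net

/-- Digits, the top one unbounded. -/
lemma exists_digits {p K : ℕ} (hp : 0 < p) (hK : 1 ≤ K) :
    ∀ (h n : ℕ), n < K * p ^ (h + 1) → ∃ c : Fin (h + 1) → ℕ,
      (∀ j, c j < K * p) ∧ n = ∑ j, c j * p ^ (j : ℕ) := by
  intro h
  induction h with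
  | zero =>
    intro n hn
    refine ⟨fun _ => n, fun _ => by simpa using hn, by simp⟩
  | succ h ih =>
    intro n hn
    have h1 : n / p < K * p ^ (h + 1) := by
      rw [Nat.div_lt_iff_lt_mul hp]
      calc n < K * p ^ (h + 1 + 1) := hn
        _ = _ := by ring
    obtain ⟨c, hc, hn'⟩ := ih (n / p) h1
    refine ⟨Fin.cons (n % p) c, fun j => ?_, ?_⟩
    · refine Fin.cases ?_ (fun i => ?_) j
      · simp only [Fin.cons_zero]
        calc n % p < p := Nat.mod_lt _ hp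
          _ ≤ K * p := Nat.le_mul_of_pos_left _ hK
      · simp only [Fin.cons_succ]
        exact hc i
    · rw [Fin.sum_univ_succ]
      simp only [Fin.cons_zero, Fin.val_zero, pow_zero, mul_one, Fin.cons_succ, Fin.val_succ]
      have h2 : ∑ i : Fin (h + 1), c i * p ^ ((i : ℕ) + 1) = p * (n / p) := by
        rw [hn', mul_sum]
        refine sum_congr rfl fun i _ => ?_
        ring
      rw [h2]
      exact (Nat.mod_add_div n p).symm

/-- The net. -/
def net (h p D Δ q : ℕ) : Finset ℕ :=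
  univ.image (fun f : Fin (h + 1) → Fin D × Fin q =>
    ∑ j, (((f j).1 : ℕ) + D * Δ * ((f j).2 : ℕ)) * p ^ (j : ℕ))

lemma card_net (h p D Δ q : ℕ) : (net h p D Δ q).card ≤ (D * q) ^ (h + 1) := by
  unfold net
  refine card_image_le.trans ?_
  simp

lemma exists_net {h p D Δ q K : ℕ} (hp : 0 < p) (hK : 1 ≤ K) (hD : 0 < D) (hΔ : 0 < Δ)
    (hq : K * p ≤ D * Δ * q) {n : ℕ} (hn : n < K * p ^ (h + 1)) :
    ∃ n₀ ∈ net h p D Δ q, ∃ w : Fin (h + 1) → ℕ, (∀ j, w j < Δ) ∧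
      n = n₀ + D * ∑ j, w j * p ^ (j : ℕ) := by
  obtain ⟨c, hc, rfl⟩ := exists_digits hp hK h n hn
  have hDΔ : 0 < D * Δ := Nat.mul_pos hD hΔ
  have hlt : ∀ j, c j / D / Δ < q := by
    intro j
    rw [Nat.div_div_eq_div_mul, Nat.div_lt_iff_lt_mul hDΔ]
    calc c j < K * p := hc j
      _ ≤ _ := hq
      _ = _ := by ring
  refine ⟨_, mem_image_of_mem _ (mem_univ (fun j => (⟨c j % D, Nat.mod_lt _ hD⟩,
    ⟨c j / D / Δ, hlt j⟩))), fun j => c j / D % Δ, fun j => Nat.mod_lt _ hΔ, ?_⟩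
  rw [mul_sum, ← sum_add_distrib]
  refine sum_congr rfl fun j _ => ?_
  simp only
  have h1 : c j = c j % D + D * (c j / D % Δ + Δ * (c j / D / Δ)) := by
    rw [Nat.mod_add_div, Nat.mod_add_div]
  calc c j * p ^ (j : ℕ) = (c j % D + D * (c j / D % Δ + Δ * (c j / D / Δ))) * p ^ (j : ℕ) := by
        rw [← h1]
    _ = _ := by ring

end net

namespace Par

variable (P : Par)

/-- The hypotheses on the parameters needed for the algebra. -/
structure Alg : Prop where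
  hg : 1 ≤ P.g
  hT : 1 ≤ P.T
  hgT : 2 * P.T + 1 < P.g * P.T

variable {P}

lemma Alg.Q_bound (hP : P.Alg) (e : Bool) {ρ : ℕ} (hρ : ρ ≤ 2 * P.T + 1) :
    P.mu e * ρ ≤ P.Q := Nat.mul_le_mul (P.mu_le hP.hg e) hρ

lemma Alg.cross_ne (hP : P.Alg) {e e' : Bool} {ρ ρ' : ℕ} (h1 : P.T ≤ ρ) (h2 : ρ ≤ 2 * P.T + 1)
    (h1' : P.T ≤ ρ') (h2' : ρ' ≤ 2 * P.T + 1) (hne : ρ ≠ ρ') :
    P.mu e * ρ' ≠ P.mu e' * ρ := by
  have hgT := hP.hgT
  have hg := hP.hg
  cases e <;> cases e' <;> simp only [mu, cond_true, cond_false, one_mul]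
  · exact hne.symm
  · have : P.g * P.T ≤ P.g * ρ := Nat.mul_le_mul_left _ h1
    omega
  · have : P.g * P.T ≤ P.g * ρ' := Nat.mul_le_mul_left _ h1'
    omega
  · intro h0
    exact hne (Nat.eq_of_mul_eq_mul_left hg h0).symm

/-- The shift lemma: a representation by core elements of `n₀` can be moved to a
representation of every `n = n₀ + D Σ w_j p^j`. -/
lemma Alg.shift (hP : P.Alg) {u Δ : ℕ} (hu : P.h * P.U * Δ = u) (e : Fin P.h → Bool)
    (ρ : Fin P.h → ℕ) (hρ : Function.Injective ρ) (h1 : ∀ i, P.T ≤ ρ i)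
    (h2 : ∀ i, ρ i ≤ 2 * P.T + 1) (t l : Fin P.h → ℕ)
    (hl : ∀ i, P.mu (e i) * u ≤ l i ∧ l i < (P.h + 1) * (P.mu (e i) * u))
    (w : Fin P.h → ℕ) (hw : ∀ j, w j < Δ) {n n₀ : ℕ}
    (hn₀ : ∑ i, (t i + l i * P.dd (P.mu (e i) * u) (ρ i)) = n₀)
    (hn : n = n₀ + P.D * ∑ j, w j * (u * P.base) ^ (j : ℕ)) :
    ∃ l' : Fin P.h → ℕ, (∀ i, l' i < (P.h + 2) * (P.mu (e i) * u)) ∧
      ∑ i, (t i + l' i * P.dd (P.mu (e i) * u) (ρ i)) = n := by
  obtain ⟨c, hc1, hc2⟩ := alg_one (h := P.h) (Q := P.Q) (m := fun i => P.mu (e i)) (ρ := ρ)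
    (fun i => P.mu_pos hP.hg _) (fun i => hP.hT.trans (h1 i))
    (fun i j => hP.Q_bound (e i) (h2 j))
    (fun i j hij => hP.cross_ne (h1 i) (h2 i) (h1 j) (h2 j) (fun h => hij (hρ h)))
  -- the shifts
  have hs : ∀ i, |∑ j, (w j : ℤ) * c i j| ≤ (u : ℤ) := by
    intro i
    calc |∑ j, (w j : ℤ) * c i j| ≤ ∑ j, |(w j : ℤ) * c i j| := abs_sum_le_sum_abs _ _
      _ ≤ ∑ _j : Fin P.h, (Δ : ℤ) * (P.U : ℤ) := by
          refine sum_le_sum fun j _ => ?_
          rw [abs_mul]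
          have h3 : |(w j : ℤ)| ≤ Δ := by
            rw [abs_of_nonneg (by positivity)]
            exact_mod_cast (hw j).le
          exact mul_le_mul h3 (hc1 i j) (abs_nonneg _) (by positivity)
      _ = (u : ℤ) := by
          rw [sum_const, card_univ, Fintype.card_fin, nsmul_eq_mul, ← hu]
          push_cast
          ring
  have hmu : ∀ i, (u : ℤ) ≤ P.mu (e i) * u := by
    intro i
    have := Nat.le_mul_of_pos_left u (P.mu_pos hP.hg (e i))
    exact_mod_cast this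
  have hnn : ∀ i, 0 ≤ (l i : ℤ) + ∑ j, (w j : ℤ) * c i j := by
    intro i
    have h3 := abs_le.1 (hs i)
    have h4 : ((P.mu (e i) * u : ℕ) : ℤ) ≤ l i := by exact_mod_cast (hl i).1
    have h5 := hmu i
    push_cast at h4
    linarith [h3.1]
  refine ⟨fun i => ((l i : ℤ) + ∑ j, (w j : ℤ) * c i j).toNat, fun i => ?_, ?_⟩
  · have h3 := abs_le.1 (hs i)
    have h4 : (l i : ℤ) < ((P.h + 1) * (P.mu (e i) * u) : ℕ) := by exact_mod_cast (hl i).2
    have h5 := hmu i
    rw [Int.toNat_lt (hnn i)]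
    push_cast at h4 ⊢
    nlinarith [h3.2]
  · have hcast : ((∑ i, (t i + ((l i : ℤ) + ∑ j, (w j : ℤ) * c i j).toNat *
        P.dd (P.mu (e i) * u) (ρ i)) : ℕ) : ℤ) = (n : ℤ) := by
      push_cast
      have h3 : ∀ i, ((t i : ℤ) + (((l i : ℤ) + ∑ j, (w j : ℤ) * c i j).toNat : ℤ) *
          (P.dd (P.mu (e i) * u) (ρ i) : ℤ)) =
          ((t i : ℤ) + l i * (P.dd (P.mu (e i) * u) (ρ i) : ℤ)) +
            ∑ j, (w j : ℤ) * (c i j * (P.dd (P.mu (e i) * u) (ρ i) : ℤ)) := by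
        intro i
        rw [Int.toNat_of_nonneg (hnn i), add_mul, sum_mul]
        rw [add_assoc]
        congr 2
        refine sum_congr rfl fun j _ => ?_
        ring
      rw [sum_congr rfl fun i _ => h3 i, sum_add_distrib]
      have h4 : ∑ i, ((t i : ℤ) + l i * (P.dd (P.mu (e i) * u) (ρ i) : ℤ)) = (n₀ : ℤ) := by
        rw [← hn₀]
        push_cast
        rfl
      rw [h4, sum_comm]
      have h5 : ∀ j : Fin P.h, ∑ i, (w j : ℤ) * (c i j * (P.dd (P.mu (e i) * u) (ρ i) : ℤ)) =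
          (w j : ℤ) * ((P.D : ℤ) * ((u * P.base : ℕ) : ℤ) ^ (j : ℕ)) := by
        intro j
        rw [← mul_sum]
        congr 1
        have := hc2 (u * P.base) j
        unfold D
        rw [this]
        refine sum_congr rfl fun i _ => ?_
        rw [P.dd_mu]
      rw [sum_congr rfl fun j _ => h5 j, hn]
      push_cast
      rw [mul_sum]
      congr 1
      refine sum_congr rfl fun j _ => ?_
      ring
    exact_mod_cast hcast

/-- The independence lemma. -/
lemma Alg.indep (hP : P.Alg) {u M₀ : ℕ} (hM : 2 * (P.h * (P.Q ^ P.h * M₀)) < u * P.base)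
    (e : Fin P.h → Bool)
    (ρ : Fin P.h → ℕ) (hρ : Function.Injective ρ) (h1 : ∀ i, P.T ≤ ρ i)
    (h2 : ∀ i, ρ i ≤ 2 * P.T + 1) (l l' : Fin P.h → ℕ) (hl : ∀ i, l i ≤ M₀)
    (hl' : ∀ i, l' i ≤ M₀)
    (heq : ∑ i, l i * P.dd (P.mu (e i) * u) (ρ i) = ∑ i, l' i * P.dd (P.mu (e i) * u) (ρ i)) :
    l = l' := by
  have := alg_two (h := P.h) (Q := P.Q) (m := fun i => P.mu (e i)) (ρ := ρ)
    (fun i => P.mu_pos hP.hg _) (fun i => hP.hT.trans (h1 i))
    (fun i j => hP.Q_bound (e i) (h2 j))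
    (fun i j hij => hP.cross_ne (h1 i) (h2 i) (h1 j) (h2 j) (fun h => hij (hρ h)))
    (M₀ := M₀) (p := u * P.base) hM (fun i => (l i : ℤ) - l' i)
    (fun i => by
      have h3 : (l i : ℤ) ≤ M₀ := by exact_mod_cast hl i
      have h4 : (l' i : ℤ) ≤ M₀ := by exact_mod_cast hl' i
      rw [abs_le]
      constructor <;> linarith [Int.natCast_nonneg (l i), Int.natCast_nonneg (l' i)])
    (by
      have h3 : ((∑ i, l i * P.dd (P.mu (e i) * u) (ρ i) : ℕ) : ℤ) =
          ((∑ i, l' i * P.dd (P.mu (e i) * u) (ρ i) : ℕ) : ℤ) := by rw [heq]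
      push_cast at h3
      have h4 : ∀ i, ((l i : ℤ) - l' i) * (F P.h (P.mu (e i) * (u * P.base)) (ρ i) : ℤ) =
          (l i : ℤ) * (P.dd (P.mu (e i) * u) (ρ i) : ℤ) -
            (l' i : ℤ) * (P.dd (P.mu (e i) * u) (ρ i) : ℤ) := by
        intro i
        rw [P.dd_mu]
        ring
      rw [sum_congr rfl fun i _ => h4 i, sum_sub_distrib, h3, sub_self])
  funext i
  have h3 := this i
  have h4 : (l i : ℤ) = l' i := by linarith
  exact_mod_cast h4

end Par

end Helper47.Spec
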