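import Pool.Agent.Helper47.Spec.Reg

/-!
# Local density of the construction, one direction
-/

open Finset

namespace Helper47.Spec

section conc

variable {h : ℕ}

lemma rt_concave (hh : 1 ≤ h) : ConcaveOn ℝ (Set.Ici 0) (rt h) := by
  have := Real.concaveOn_rpow (p := (h : ℝ)⁻¹) (by positivity)
    (inv_le_one_of_one_le₀ (by exact_mod_cast hh))
  exact this

/-- Increments of `rt` decrease. -/
lemma rt_incr (hh : 1 ≤ h) {w z d : ℝ} (hw : 0 ≤ w) (hwz : w ≤ z) (hd : 0 ≤ d) :
    rt h (z + d) - rt h z ≤ rt h (w + d) - rt h w := by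
  rcases eq_or_lt_of_le (add_nonneg (sub_nonneg.2 hwz) hd) with h0 | h0
  · have h1 : z = w := by linarith
    have h2 : d = 0 := by linarith
    rw [h1]
  · set L := z - w + d with hL
    have hL0 : L ≠ 0 := h0.ne'
    have hc := rt_concave (h := h) hh
    have ha : 0 ≤ (z - w) / L := div_nonneg (by linarith) h0.le
    have hb : 0 ≤ d / L := div_nonneg hd h0.le
    have hab : d / L + (z - w) / L = 1 := by rw [← add_div]; field_simp; rw [hL]; ring
    have hab' : (z - w) / L + d / L = 1 := by rw [add_comm]; exact hab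
    have hz0 : (0 : ℝ) ≤ z + d := by linarith
    have h1 := hc.2 (Set.mem_Ici.2 hw) (Set.mem_Ici.2 hz0) hb ha hab
    have h2 := hc.2 (Set.mem_Ici.2 hw) (Set.mem_Ici.2 hz0) ha hb hab'
    simp only [smul_eq_mul] at h1 h2
    have e1 : d / L * w + (z - w) / L * (z + d) = z := by
      field_simp
      rw [hL]; ring
    have e2 : (z - w) / L * w + d / L * (z + d) = w + d := by
      field_simp
      rw [hL]; ring
    rw [e1] at h1
    rw [e2] at h2
    have e3 : d / L * rt h w + (z - w) / L * rt h w = rt h w := by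
      rw [← add_mul, hab, one_mul]
    have e4 : (z - w) / L * rt h (z + d) + d / L * rt h (z + d) = rt h (z + d) := by
      rw [← add_mul, hab', one_mul]
    linarith

/-- `rt (x + κ Δ) - rt x ≤ κ (rt (x + Δ) - rt x)` for `κ ≥ 1`. -/
lemma rt_scale (hh : 1 ≤ h) {x Δ κ : ℝ} (hx : 0 ≤ x) (hΔ : 0 ≤ Δ) (hκ : 1 ≤ κ) :
    rt h (x + κ * Δ) - rt h x ≤ κ * (rt h (x + Δ) - rt h x) := by
  have hc := rt_concave (h := h) hh
  have hκ0 : 0 < κ := by linarith
  have hnn : (0 : ℝ) ≤ 1 - 1 / κ := by rw [sub_nonneg, div_le_one hκ0]; exact hκ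
  have hnn' : (0 : ℝ) ≤ 1 / κ := by positivity
  have hsum : 1 - 1 / κ + 1 / κ = 1 := by ring
  have h1 := hc.2 (Set.mem_Ici.2 hx) (Set.mem_Ici.2 (by positivity : 0 ≤ x + κ * Δ))
    hnn hnn' hsum
  simp only [smul_eq_mul] at h1
  have e1 : (1 - 1 / κ) * x + 1 / κ * (x + κ * Δ) = x + Δ := by field_simp; ring
  rw [e1] at h1
  have h2 := mul_le_mul_of_nonneg_left h1 hκ0.le
  have e2 : κ * ((1 - 1 / κ) * rt h x + 1 / κ * rt h (x + κ * Δ)) =
      (κ - 1) * rt h x + rt h (x + κ * Δ) := by field_simp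
  rw [e2] at h2
  linarith

lemma rt_mul {a b : ℝ} (ha : 0 ≤ a) (hb : 0 ≤ b) : rt h (a * b) = rt h a * rt h b :=
  Real.mul_rpow ha hb

lemma rt_le_one {a : ℝ} (ha : 0 ≤ a) (ha1 : a ≤ 1) : rt h a ≤ 1 :=
  Real.rpow_le_one ha ha1 (by positivity)

/-- Shifting the base point down by a factor `1 - η` costs a factor `1/(1-η)`. -/
lemma rt_shift (hh : 1 ≤ h) {x x' Δ η : ℝ} (hx : 0 ≤ x) (hΔ : 0 ≤ Δ) (hη0 : 0 ≤ η)
    (hη : η < 1) (hx' : (1 - η) * x ≤ x') :
    rt h (x' + Δ) - rt h x' ≤ (1 - η)⁻¹ * (rt h (x + Δ) - rt h x) := by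
  have h1η : 0 < 1 - η := by linarith
  have h0 : 0 ≤ (1 - η) * x := by positivity
  have h1 := rt_incr hh h0 hx' hΔ
  have e1 : (1 - η) * x + Δ = (1 - η) * (x + (1 - η)⁻¹ * Δ) := by
    field_simp
  rw [e1, rt_mul h1η.le (by positivity), rt_mul h1η.le hx, ← mul_sub] at h1
  have h2 := rt_scale hh hx hΔ (κ := (1 - η)⁻¹) (by
    rw [one_le_inv₀ h1η]; linarith)
  have h3 : rt h (1 - η) ≤ 1 := rt_le_one h1η.le (by linarith)
  have h4 : 0 ≤ rt h (x + (1 - η)⁻¹ * Δ) - rt h x := by
    rw [sub_nonneg]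
    refine rt_mono hx ?_
    have : 0 ≤ (1 - η)⁻¹ * Δ := by positivity
    linarith
  calc rt h (x' + Δ) - rt h x' ≤ _ := h1
    _ ≤ 1 * (rt h (x + (1 - η)⁻¹ * Δ) - rt h x) := mul_le_mul_of_nonneg_right h3 h4
    _ ≤ _ := by rw [one_mul]; exact h2

/-- `y - x ≤ h * (rt y)^(h-1) * (rt y - rt x)`. -/
lemma sub_le_rt (hh : 1 ≤ h) {x y : ℝ} (hx : 0 ≤ x) (hxy : x ≤ y) :
    y - x ≤ h * rt h y ^ (h - 1) * (rt h y - rt h x) := by
  have hy := hx.trans hxy
  set a := rt h y with ha
  set b := rt h x with hb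
  have hb0 : 0 ≤ b := rt_nonneg h hx
  have hba : b ≤ a := rt_mono hx hxy
  have e1 : a ^ h = y := rt_pow (by omega) hy
  have e2 : b ^ h = x := rt_pow (by omega) hx
  rw [← e1, ← e2]
  have h3 : a ^ h - b ^ h = (∑ i ∈ range h, a ^ i * b ^ (h - 1 - i)) * (a - b) :=
    (geom_sum₂_mul a b h).symm
  rw [h3]
  refine mul_le_mul_of_nonneg_right ?_ (by linarith)
  calc ∑ i ∈ range h, a ^ i * b ^ (h - 1 - i) ≤ ∑ _i ∈ range h, a ^ (h - 1) := by
        refine sum_le_sum fun i hi => ?_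
        have hi' := mem_range.1 hi
        have ha0 : 0 ≤ a := hb0.trans hba
        calc a ^ i * b ^ (h - 1 - i) ≤ a ^ i * a ^ (h - 1 - i) := by gcongr
          _ = a ^ (h - 1) := by rw [← pow_add]; congr 1; omega
    _ = h * a ^ (h - 1) := by rw [sum_const, card_range, nsmul_eq_mul]

end conc

section count

variable {h : ℕ}

/-- The number of cells whose offset lies in `[s, s')`. -/
lemma cells_le {ι : Type*} (hh : 1 ≤ h) {V : ℕ} (hV : 0 < V) (t : ι → ℕ) (cell : ι → ℕ)
    (cs : Finset ι) (hcell : Set.InjOn cell cs)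
    (ht : ∀ c ∈ cs, (cell c * V) ^ h ≤ t c ∧ t c < ((cell c + 1) * V) ^ h)
    {s s' : ℕ} (hss : s ≤ s') :
    ((cs.filter (fun c => s ≤ t c ∧ t c < s')).card : ℝ) ≤
      (rt h s' - rt h s) / V + 2 := by
  classical
  have hVr : (0 : ℝ) < V := by exact_mod_cast hV
  have ha0 : 0 ≤ rt h s / V := div_nonneg (rt_nonneg h (by positivity)) hVr.le
  have hab : rt h s / V ≤ rt h s' / V :=
    div_le_div_of_nonneg_right (rt_mono (by positivity) (by exact_mod_cast hss)) hVr.le
  have h1 : (cs.filter (fun c => s ≤ t c ∧ t c < s')).card ≤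
      (Icc ⌊rt h s / V⌋₊ ⌊rt h s' / V⌋₊).card := by
    refine card_le_card_of_injOn cell ?_ ?_
    · intro c hc
      obtain ⟨hc, h1, h2⟩ := mem_filter.1 hc
      obtain ⟨h3, h4⟩ := ht c hc
      rw [mem_coe, mem_Icc]
      constructor
      · -- `s < ((c+1) V)^h`
        have h5 : (s : ℝ) < (((cell c : ℝ) + 1) * V) ^ h := by
          have : s < ((cell c + 1) * V) ^ h := lt_of_le_of_lt h1 h4
          exact_mod_cast this
        have h6 : rt h s < ((cell c : ℝ) + 1) * V := by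
          have h7 : rt h s ^ h < (((cell c : ℝ) + 1) * V) ^ h := by
            rw [rt_pow (by omega) (by positivity)]; exact h5
          exact lt_of_pow_lt_pow_left₀ h (by positivity) h7
        have h8 : rt h s / V < ((cell c + 1 : ℕ) : ℝ) := by
          rw [div_lt_iff₀ hVr]; push_cast; exact h6
        have h9 : ⌊rt h s / V⌋₊ < cell c + 1 := (Nat.floor_lt ha0).2 h8
        omega
      · have h5 : ((cell c : ℝ) * V) ^ h < (s' : ℝ) := by
          have : (cell c * V) ^ h < s' := lt_of_le_of_lt h3 h2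
          exact_mod_cast this
        have h6 : (cell c : ℝ) * V ≤ rt h s' := by
          have h7 : rt h (((cell c : ℝ) * V) ^ h) ≤ rt h s' := rt_mono (by positivity) h5.le
          rwa [pow_rt (by omega) (by positivity)] at h7
        exact Nat.le_floor (by rw [le_div_iff₀ hVr]; exact h6)
    · intro a ha b hb hab
      exact hcell (mem_filter.1 ha).1 (mem_filter.1 hb).1 hab
  rw [Nat.card_Icc] at h1
  have hfl : ⌊rt h s / V⌋₊ ≤ ⌊rt h s' / V⌋₊ := Nat.floor_le_floor hab
  have h2 : ((cs.filter (fun c => s ≤ t c ∧ t c < s')).card : ℝ) ≤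
      (⌊rt h s' / V⌋₊ : ℝ) + 1 - ⌊rt h s / V⌋₊ := by
    have h3 : ((⌊rt h s' / V⌋₊ + 1 - ⌊rt h s / V⌋₊ : ℕ) : ℝ) =
        (⌊rt h s' / V⌋₊ : ℝ) + 1 - ⌊rt h s / V⌋₊ := by
      rw [Nat.cast_sub (by omega)]; push_cast; rfl
    rw [← h3]
    exact_mod_cast h1
  have h3 : (⌊rt h s' / V⌋₊ : ℝ) ≤ rt h s' / V := Nat.floor_le (ha0.trans hab)
  have h4 : rt h s / V < ⌊rt h s / V⌋₊ + 1 := Nat.lt_floor_add_one _
  rw [sub_div]
  linarith

/-- Telescoping with a concave sequence. -/
lemma tele (a : ℕ → ℝ) (ha : ∀ i j, i ≤ j → a (j + 1) - a j ≤ a (i + 1) - a i) (n M : ℕ) :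
    ∑ i ∈ range n, (a (i + 1 + M) - a (i + 1)) ≤ M * (a n - a 0) := by
  have h1 : ∀ i, a (i + 1 + M) - a (i + 1) =
      ∑ m ∈ range M, (a (i + 1 + (m + 1)) - a (i + 1 + m)) := by
    intro i
    exact (sum_range_sub (fun m => a (i + 1 + m)) M).symm
  calc ∑ i ∈ range n, (a (i + 1 + M) - a (i + 1))
      = ∑ i ∈ range n, ∑ m ∈ range M, (a (i + 1 + (m + 1)) - a (i + 1 + m)) :=
        sum_congr rfl fun i _ => h1 i
    _ ≤ ∑ i ∈ range n, ∑ _m ∈ range M, (a (i + 1) - a i) := by
        refine sum_le_sum fun i _ => sum_le_sum fun m _ => ?_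
        exact ha i (i + 1 + m) (by omega)
    _ = M * ∑ i ∈ range n, (a (i + 1) - a i) := by
        rw [mul_sum]
        refine sum_congr rfl fun i _ => ?_
        rw [sum_const, card_range, nsmul_eq_mul]
    _ = _ := by rw [sum_range_sub]

/-- One direction. -/
lemma one_dir {ι : Type*} (hh : 1 ≤ h) {V d M : ℕ} (hV : 0 < V) (hd : 0 < d) (t : ι → ℕ)
    (cell : ι → ℕ) (cs : Finset ι) (hcell : Set.InjOn cell cs)
    (ht : ∀ c ∈ cs, (cell c * V) ^ h ≤ t c ∧ t c < ((cell c + 1) * V) ^ h)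
    {x y : ℕ} (hx : M * d ≤ x) (n : ℕ) (hn : y ≤ x + n * d) :
    (((cs ×ˢ range M).filter (fun p => x ≤ t p.1 + p.2 * d ∧ t p.1 + p.2 * d < y)).card : ℝ) ≤
      (M : ℝ) / V * (rt h ((x : ℝ) - M * d + n * d) - rt h ((x : ℝ) - M * d)) + 2 * n := by
  classical
  have hVr : (0 : ℝ) < V := by exact_mod_cast hV
  -- cover by windows of length `d`
  have hcov : (cs ×ˢ range M).filter (fun p => x ≤ t p.1 + p.2 * d ∧ t p.1 + p.2 * d < y) ⊆
      (range n).biUnion (fun i => (cs ×ˢ range M).filter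
        (fun p => x + i * d ≤ t p.1 + p.2 * d ∧ t p.1 + p.2 * d < x + (i + 1) * d)) := by
    rintro ⟨c, l⟩ hp
    obtain ⟨hp, h1, h2⟩ := mem_filter.1 hp
    simp only at h1 h2
    rw [mem_biUnion]
    refine ⟨(t c + l * d - x) / d, ?_, mem_filter.2 ⟨hp, ?_, ?_⟩⟩
    · rw [mem_range, Nat.div_lt_iff_lt_mul hd]
      omega
    · have := Nat.div_mul_le_self (t c + l * d - x) d
      simp only
      omega
    · have := Nat.lt_div_mul_add hd (a := t c + l * d - x)
      simp only
      rw [add_mul, one_mul]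
      omega
  -- one window
  have hwin : ∀ i, (((cs ×ˢ range M).filter
        (fun p => x + i * d ≤ t p.1 + p.2 * d ∧
          t p.1 + p.2 * d < x + (i + 1) * d)).card : ℝ) ≤
      (rt h (((x + (i + 1) * d : ℕ)) : ℝ) - rt h ((x + (i + 1) * d - M * d : ℕ) : ℝ)) / V
        + 2 := by
    intro i
    refine le_trans ?_ (cells_le hh hV t cell cs hcell ht (s := x + (i + 1) * d - M * d)
      (s' := x + (i + 1) * d) (Nat.sub_le _ _))
    have : ((cs ×ˢ range M).filter
        (fun p => x + i * d ≤ t p.1 + p.2 * d ∧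
          t p.1 + p.2 * d < x + (i + 1) * d)).card ≤
        (cs.filter (fun c => x + (i + 1) * d - M * d ≤ t c ∧ t c < x + (i + 1) * d)).card := by
      refine card_le_card_of_injOn Prod.fst ?_ ?_
      · rintro ⟨c, l⟩ hp
        simp only [coe_filter, Set.mem_ofPred_eq, mem_product, mem_range] at hp ⊢
        obtain ⟨⟨hc, hl⟩, h1, h2⟩ := hp
        refine ⟨hc, ?_, ?_⟩
        · have h3 : (l + 1) * d ≤ M * d := Nat.mul_le_mul_right _ (by omega)
          rw [add_mul, one_mul] at h3 ⊢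
          omega
        · exact lt_of_le_of_lt (Nat.le_add_right _ _) h2
      · rintro ⟨c, l⟩ hp ⟨c', l'⟩ hp' heq
        simp only [coe_filter, Set.mem_ofPred_eq, mem_product, mem_range] at hp hp'
        simp only at heq
        subst heq
        obtain ⟨_, h1, h2⟩ := hp
        obtain ⟨_, h3, h4⟩ := hp'
        have h5 : l = l' := by
          by_contra hne
          rcases Nat.lt_or_gt_of_ne hne with hlt | hlt
          · have : (l + 1) * d ≤ l' * d := Nat.mul_le_mul_right _ hlt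
            rw [add_mul, one_mul] at this h2 h4
            omega
          · have : (l' + 1) * d ≤ l * d := Nat.mul_le_mul_right _ hlt
            rw [add_mul, one_mul] at this h2 h4
            omega
        rw [h5]
    exact_mod_cast this
  set a : ℕ → ℝ := fun j => rt h ((x : ℝ) - M * d + j * d) with ha
  have hx0 : (0 : ℝ) ≤ (x : ℝ) - M * d := by
    rw [sub_nonneg]; exact_mod_cast hx
  have hconc : ∀ i j, i ≤ j → a (j + 1) - a j ≤ a (i + 1) - a i := by
    intro i j hij
    simp only [ha]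
    have h1 := rt_incr (h := h) hh (w := (x : ℝ) - M * d + i * d) (z := (x : ℝ) - M * d + j * d)
      (d := d) (by positivity) (by gcongr) (by positivity)
    push_cast
    convert h1 using 3 <;> ring
  have htele := tele a hconc n M
  calc (((cs ×ˢ range M).filter
        (fun p => x ≤ t p.1 + p.2 * d ∧ t p.1 + p.2 * d < y)).card : ℝ)
      ≤ ∑ i ∈ range n, (((cs ×ˢ range M).filter
        (fun p => x + i * d ≤ t p.1 + p.2 * d ∧
          t p.1 + p.2 * d < x + (i + 1) * d)).card : ℝ) := by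
        exact_mod_cast (card_le_card hcov).trans card_biUnion_le
    _ ≤ ∑ i ∈ range n, ((a (i + 1 + M) - a (i + 1)) / V + 2) := by
        refine sum_le_sum fun i _ => ?_
        refine (hwin i).trans (le_of_eq ?_)
        simp only [ha]
        have h1 : ((x + (i + 1) * d - M * d : ℕ) : ℝ) = (x : ℝ) - M * d + (i + 1 : ℕ) * d := by
          have : M * d ≤ x + (i + 1) * d := le_trans hx (Nat.le_add_right _ _)
          rw [Nat.cast_sub this]
          push_cast
          ring
        have h2 : ((x + (i + 1) * d : ℕ) : ℝ) = (x : ℝ) - M * d + (i + 1 + M : ℕ) * d := by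
          push_cast
          ring
        rw [h1, h2]
    _ = (∑ i ∈ range n, (a (i + 1 + M) - a (i + 1))) / V + 2 * n := by
        rw [sum_add_distrib, sum_const, card_range, nsmul_eq_mul, ← sum_div]; ring
    _ ≤ (M * (a n - a 0)) / V + 2 * n := by
        gcongr
    _ = _ := by
        simp only [ha]
        push_cast
        rw [zero_mul, add_zero]
        ring

end count

end Helper47.Spec
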