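import Pool.Agent.Helper47.Spec.Stage

/-!
# The values of the parts at each level
-/

open Finset

namespace Helper47.Spec

lemma pow_succ_le (c n : ℕ) : (c + 1) ^ n ≤ c ^ n + n * (c + 1) ^ (n - 1) := by
  induction n with
  | zero => simp
  | succ n ih =>
    rw [Nat.add_sub_cancel]
    have h1 : n * (c + 1) ^ (n - 1) * c ≤ n * (c + 1) ^ n := by
      rcases Nat.eq_zero_or_pos n with h0 | h0
      · simp [h0]
      · calc n * (c + 1) ^ (n - 1) * c ≤ n * (c + 1) ^ (n - 1) * (c + 1) :=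
              Nat.mul_le_mul_left _ (Nat.le_succ c)
          _ = n * (c + 1) ^ n := by
              rw [mul_assoc, ← pow_succ, Nat.sub_add_cancel h0]
    calc (c + 1) ^ (n + 1) = (c + 1) ^ n * c + (c + 1) ^ n := by ring
      _ ≤ (c ^ n + n * (c + 1) ^ (n - 1)) * c + (c + 1) ^ n := by gcongr
      _ = c ^ (n + 1) + n * (c + 1) ^ (n - 1) * c + (c + 1) ^ n := by ring
      _ ≤ c ^ (n + 1) + n * (c + 1) ^ n + (c + 1) ^ n := by gcongr
      _ = _ := by ring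

lemma pow_add_le_pow (c n : ℕ) (hn : 1 ≤ n) : c ^ n + c ^ (n - 1) ≤ (c + 1) ^ n := by
  obtain ⟨m, rfl⟩ : ∃ m, n = m + 1 := ⟨n - 1, by omega⟩
  rw [Nat.add_sub_cancel]
  calc c ^ (m + 1) + c ^ m = c ^ m * (c + 1) := by ring
    _ ≤ (c + 1) ^ m * (c + 1) := Nat.mul_le_mul_right _ (Nat.pow_le_pow_left (Nat.le_succ c) m)
    _ = _ := by ring

/-- Discrete intermediate value. -/
lemma exists_level (f : ℕ → ℕ) {a b n : ℕ} (hab : a ≤ b) (h1 : f a ≤ n) (h2 : n < f b) :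
    ∃ r, a ≤ r ∧ r < b ∧ f r ≤ n ∧ n < f (r + 1) := by
  induction b, hab using Nat.le_induction with
  | base => omega
  | succ b hb ih =>
    by_cases h3 : n < f b
    · obtain ⟨r, hr1, hr2, hr3⟩ := ih h3
      exact ⟨r, hr1, by omega, hr3⟩
    · exact ⟨b, hb, by omega, by omega, h2⟩

lemma F_le {h x ρ : ℕ} (hρ : ρ ≤ x) : F h x ρ ≤ h * x ^ (h - 1) := by
  unfold F
  calc ∑ j : Fin h, x ^ (j : ℕ) * ρ ^ (j.rev : ℕ) ≤ ∑ _j : Fin h, x ^ (h - 1) := by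
        refine sum_le_sum fun j _ => ?_
        calc x ^ (j : ℕ) * ρ ^ (j.rev : ℕ) ≤ x ^ (j : ℕ) * x ^ (j.rev : ℕ) :=
              Nat.mul_le_mul_left _ (Nat.pow_le_pow_left hρ _)
          _ = x ^ (h - 1) := by
              rw [← pow_add]
              congr 1
              rw [Fin.val_rev]
              have := j.2
              omega
    _ = h * x ^ (h - 1) := by simp

lemma F_ge {h x ρ : ℕ} (hh : 1 ≤ h) : x ^ (h - 1) ≤ F h x ρ := by
  unfold F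
  have : x ^ (h - 1) = x ^ ((⟨h - 1, by omega⟩ : Fin h) : ℕ) *
      ρ ^ ((⟨h - 1, by omega⟩ : Fin h).rev : ℕ) := by
    rw [Fin.val_rev]
    simp only
    have : h - (h - 1 + 1) = 0 := by omega
    rw [this, pow_zero, mul_one]
  rw [this]
  exact single_le_sum (f := fun j : Fin h => x ^ (j : ℕ) * ρ ^ (j.rev : ℕ))
    (fun _ _ => Nat.zero_le _) (mem_univ _)

namespace Par

/-- The numerical hypotheses on the parameters. -/
structure Num (P : Par) : Prop extends P.Alg where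
  hg2 : 2 ≤ P.g
  hW : 1 ≤ P.W
  hc₃ : 1 ≤ P.c₃
  hc₂ : P.c₂ ≤ P.c₃
  hrlo : P.rlo ≤ 2 * P.g
  hrlo1 : 1 ≤ P.rlo
  ext : 2 * P.h * ((P.h + 2) * P.g * (P.h * (P.g * P.base) ^ (P.h - 1))) ≤ (P.c₀ * P.W) ^ P.h
  ind : 2 * (P.h * (P.Q ^ P.h * ((P.h + 1) * P.g))) < P.base
  L1 : ∀ r, P.rlo - 1 ≤ r → r < P.g * P.rlo →
    P.g ^ P.h + P.k * (P.rs r ^ P.h + 1) + (P.rm r + 1) ^ P.h + 2 ≤ r ^ P.h
  L2 : ∀ r, P.rlo - 1 ≤ r → r < P.g * P.rlo →
    P.c₀ ^ P.h * (r + 1) ^ P.h ≤ (P.g * P.c₁) ^ P.h + P.c₀ ^ P.h * P.rm r ^ P.h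

variable {P : Par}

lemma h_pos : 2 ≤ P.h := by unfold h; omega

lemma bnd_mu (e : Bool) (u c : ℕ) : P.bnd (P.mu e * u) c = P.bnd u (P.mu e * c) := by
  unfold bnd
  congr 1
  ring

lemma bnd_g (u c : ℕ) : P.bnd (P.g * u) c = P.bnd u (P.g * c) := by
  unfold bnd
  congr 1
  ring

lemma bnd_mul (u r : ℕ) : P.bnd u (r * P.c₀) = r ^ P.h * P.bnd u P.c₀ := by
  unfold bnd
  rw [← mul_pow]
  congr 1
  ring

lemma bnd_mono (u : ℕ) : Monotone (P.bnd u) := by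
  intro a b hab
  unfold bnd
  exact Nat.pow_le_pow_left (Nat.mul_le_mul_right _ hab) _

lemma bnd_lt {u : ℕ} {a b : ℕ} (h : P.bnd u a < P.bnd u b) : a < b := by
  by_contra hcon
  push Not at hcon
  exact absurd (bnd_mono (P := P) u hcon) (by omega)

lemma Num.T_le_base (hP : P.Num) : 2 * P.T + 1 ≤ P.base := by
  have h1 := hP.ind
  have hg := hP.hg
  have h2 : 2 * P.T + 1 ≤ P.Q := Nat.le_mul_of_pos_left _ hg
  have hQ : 1 ≤ P.Q := by omega
  have h3 : P.Q ≤ P.Q ^ P.h := Nat.le_self_pow (by have := h_pos (P := P); omega) _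
  have h4 : P.Q ^ P.h ≤ P.Q ^ P.h * ((P.h + 1) * P.g) :=
    Nat.le_mul_of_pos_right _ (Nat.mul_pos (by omega) hg)
  have h5 : P.Q ^ P.h * ((P.h + 1) * P.g) ≤ P.h * (P.Q ^ P.h * ((P.h + 1) * P.g)) :=
    Nat.le_mul_of_pos_left _ (by have := h_pos (P := P); omega)
  omega

/-- The extension of a progression is small. -/
lemma Num.ext_le (hP : P.Num) {u : ℕ} (hu : 1 ≤ u) (e : Bool) {ρ : ℕ} (hρ : ρ ≤ 2 * P.T + 1) :
    2 * P.h * ((P.h + 2) * (P.mu e * u) * P.dd (P.mu e * u) ρ) ≤ P.bnd u P.c₀ := by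
  have hg := hP.hg
  have hmu := P.mu_le hg e
  have hmu1 := P.mu_pos hg e
  have hdd : P.dd (P.mu e * u) ρ ≤ P.h * (P.g * P.base * u) ^ (P.h - 1) := by
    unfold dd
    have h1 : ρ ≤ P.mu e * u * P.base := by
      calc ρ ≤ 2 * P.T + 1 := hρ
        _ ≤ P.base := hP.T_le_base
        _ ≤ P.mu e * u * P.base := Nat.le_mul_of_pos_left _ (Nat.mul_pos hmu1 hu)
    refine (F_le h1).trans (Nat.mul_le_mul_left _ (Nat.pow_le_pow_left ?_ _))
    calc P.mu e * u * P.base ≤ P.g * u * P.base := by gcongr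
      _ = P.g * P.base * u := by ring
  calc 2 * P.h * ((P.h + 2) * (P.mu e * u) * P.dd (P.mu e * u) ρ)
      ≤ 2 * P.h * ((P.h + 2) * (P.g * u) * (P.h * (P.g * P.base * u) ^ (P.h - 1))) := by
        gcongr
    _ = 2 * P.h * ((P.h + 2) * P.g * (P.h * (P.g * P.base) ^ (P.h - 1))) *
          (u * u ^ (P.h - 1)) := by
        rw [mul_pow (P.g * P.base) u]; ring
    _ = 2 * P.h * ((P.h + 2) * P.g * (P.h * (P.g * P.base) ^ (P.h - 1))) * u ^ P.h := by
        congr 1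
        rw [← pow_succ', Nat.sub_add_cancel (by have := h_pos (P := P); omega)]
    _ ≤ (P.c₀ * P.W) ^ P.h * u ^ P.h := Nat.mul_le_mul_right _ hP.ext
    _ = P.bnd u P.c₀ := by
        unfold bnd
        rw [← mul_pow]
        congr 1
        ring

lemma Num.ext_le' (hP : P.Num) {u : ℕ} (hu : 1 ≤ u) (e : Bool) {ρ : ℕ}
    (hρ : ρ ≤ 2 * P.T + 1) {l : ℕ} (hl : l ≤ (P.h + 2) * (P.mu e * u)) :
    l * P.dd (P.mu e * u) ρ ≤ P.bnd u P.c₀ := by
  have h1 := hP.ext_le hu e hρ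
  calc l * P.dd (P.mu e * u) ρ ≤ (P.h + 2) * (P.mu e * u) * P.dd (P.mu e * u) ρ :=
        Nat.mul_le_mul_right _ hl
    _ ≤ 2 * P.h * ((P.h + 2) * (P.mu e * u) * P.dd (P.mu e * u) ρ) :=
        Nat.le_mul_of_pos_left _ (by have := h_pos (P := P); omega)
    _ ≤ _ := h1

section values

variable {u r : ℕ} {t : Bool × P.Idx → ℕ}

lemma off_mem (ht : t ∈ Fintype.piFinset (P.off2 u)) (a : Bool × P.Idx) :
    P.bnd u (P.mu a.1 * P.cv a.2.1) ≤ t a ∧ t a < P.bnd u (P.mu a.1 * (P.cv a.2.1 + 1)) := by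
  have := Fintype.mem_piFinset.1 ht a
  unfold off2 offs at this
  rw [mem_Ico, bnd_mu, bnd_mu] at this
  exact this

/-- Upper bound for the sum of the parts other than the big one. -/
lemma Num.xval_le (hP : P.Num) (hu : 1 ≤ u) (ht : t ∈ Fintype.piFinset (P.off2 u))
    {y : P.Y} (hy : y ∈ P.SY u r) {c : Bool × P.Idx} (hc : c ∈ P.CM r) :
    xval P.al (P.ka u r) t (y, c) ≤
      (P.k * (P.rs r ^ P.h + 1) + (P.rm r + 1) ^ P.h + 2) * P.bnd u P.c₀ := by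
  have h1 : ∑ a ∈ P.al y, t a ≤ P.k * (P.rs r ^ P.h * P.bnd u P.c₀) := by
    rw [← P.card_al y, ← smul_eq_mul]
    refine sum_le_card_nsmul _ _ _ fun a ha => ?_
    obtain ⟨i, rfl⟩ := P.mem_al.1 ha
    have h2 := (off_mem ht (P.crd y i)).2
    unfold SY at hy
    simp only [mem_product, Fintype.mem_piFinset] at hy
    have h3 := (P.mem_SS.1 (hy.2.1 i)).1
    refine h2.le.trans ?_
    rw [← bnd_mul]
    exact bnd_mono u h3
  have h2 : t c ≤ (P.rm r + 1) ^ P.h * P.bnd u P.c₀ := by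
    unfold CM at hc
    obtain ⟨i, hi, rfl⟩ := mem_image.1 hc
    unfold cellsM at hi
    have h3 := (mem_filter.1 hi).2.2
    refine (off_mem ht _).2.le.trans ?_
    rw [← bnd_mul]
    exact bnd_mono u h3
  have h3 : P.ka u r y ≤ (P.k + 2) * P.bnd u P.c₀ := by
    rw [ka_eq]
    have : ∀ i ∈ (univ : Finset (Fin P.h)),
        P.lV y i * P.dd (P.mu (P.eV r y i) * u) (P.rV y i) ≤ P.bnd u P.c₀ := by
      intro i _
      refine hP.ext_le' hu _ (rV_le y i) ?_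
      refine (lV_core hy i).2.le.trans (Nat.mul_le_mul_right _ (by omega))
    refine (sum_le_card_nsmul _ _ _ this).trans ?_
    rw [card_univ, Fintype.card_fin, smul_eq_mul]
    exact le_rfl
  unfold xval
  simp only
  calc ∑ a ∈ P.al y, t a + t c + P.ka u r y
      ≤ P.k * (P.rs r ^ P.h * P.bnd u P.c₀) + (P.rm r + 1) ^ P.h * P.bnd u P.c₀ +
        (P.k + 2) * P.bnd u P.c₀ := by gcongr
    _ = _ := by ring

/-- Lower bound for the sum of the parts other than the big one. -/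
lemma xval_ge (ht : t ∈ Fintype.piFinset (P.off2 u)) {y : P.Y} {c : Bool × P.Idx}
    (hc : c ∈ P.CM r) :
    P.rm r ^ P.h * P.bnd u P.c₀ ≤ xval P.al (P.ka u r) t (y, c) := by
  have h2 : P.rm r ^ P.h * P.bnd u P.c₀ ≤ t c := by
    unfold CM at hc
    obtain ⟨i, hi, rfl⟩ := mem_image.1 hc
    unfold cellsM at hi
    have h3 := (mem_filter.1 hi).2.1
    refine le_trans ?_ (off_mem ht _).1
    rw [← bnd_mul]
    exact bnd_mono u h3
  unfold xval
  simp only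
  omega

/-- The bound for the size of the relevant big cells. -/
def BB (P : Par) (u r : ℕ) : ℕ :=
  P.g * P.h * (P.W * u) ^ P.h * ((r + 2) * P.c₀) ^ (P.h - 1)

/-- The lower bound for the size of the cells. -/
def sg (P : Par) (u : ℕ) : ℕ := (P.W * u) ^ P.h * P.c₀ ^ (P.h - 1)

lemma sg_le (hg : 1 ≤ P.g) (a : Bool × P.Idx) : P.sg u ≤ (P.off2 u a).card := by
  unfold off2 offs
  rw [Nat.card_Ico]
  unfold bnd sg
  have h1 : P.c₀ ≤ P.cv a.2.1 := Nat.le_add_right _ _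
  have h2 := pow_add_le_pow (P.cv a.2.1) P.h (by have := h_pos (P := P); omega)
  have h3 : (P.W * u) ^ P.h ≤ (P.W * (P.mu a.1 * u)) ^ P.h := by
    refine Nat.pow_le_pow_left ?_ _
    exact Nat.mul_le_mul_left _ (Nat.le_mul_of_pos_left _ (P.mu_pos hg _))
  rw [mul_pow (P.cv a.2.1 + 1) _, mul_pow (P.cv a.2.1) _, ← Nat.sub_mul]
  calc (P.W * u) ^ P.h * P.c₀ ^ (P.h - 1)
      ≤ (P.W * (P.mu a.1 * u)) ^ P.h * P.cv a.2.1 ^ (P.h - 1) := by gcongr
    _ = P.cv a.2.1 ^ (P.h - 1) * (P.W * (P.mu a.1 * u)) ^ P.h := by ring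
    _ ≤ ((P.cv a.2.1 + 1) ^ P.h - P.cv a.2.1 ^ P.h) * (P.W * (P.mu a.1 * u)) ^ P.h :=
        Nat.mul_le_mul_right _ (by omega)

/-- The completion by a big part. -/
lemma Num.hbig (hP : P.Num) (hu : 1 ≤ u) (ht : t ∈ Fintype.piFinset (P.off2 u))
    (hr1 : P.rlo - 1 ≤ r) (hr2 : r < P.g * P.rlo)
    {y : P.Y} (hy : y ∈ P.SY u r) {c : Bool × P.Idx} (hc : c ∈ P.CM r) {n₀ : ℕ}
    (hn1 : r ^ P.h * P.bnd u P.c₀ ≤ n₀) (hn2 : n₀ < (r + 1) ^ P.h * P.bnd u P.c₀) :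
    ∃ β ∈ P.BG, (P.off2 u β).card ≤ P.BB u r ∧
      ∃ w ∈ P.off2 u β, xval P.al (P.ka u r) t (y, c) + w = n₀ := by
  have hx1 := hP.xval_le hu ht hy hc
  have hx2 := xval_ge (u := u) (r := r) ht (y := y) hc
  have hL1 := hP.L1 r hr1 hr2
  have hL2 := hP.L2 r hr1 hr2
  set Z := P.bnd u P.c₀ with hZ
  set x := xval P.al (P.ka u r) t (y, c) with hx
  have hlow : x + P.g ^ P.h * Z ≤ n₀ := by
    calc x + P.g ^ P.h * Z ≤ (P.k * (P.rs r ^ P.h + 1) + (P.rm r + 1) ^ P.h + 2) * Z +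
          P.g ^ P.h * Z := by gcongr
      _ = (P.g ^ P.h + P.k * (P.rs r ^ P.h + 1) + (P.rm r + 1) ^ P.h + 2) * Z := by ring
      _ ≤ r ^ P.h * Z := Nat.mul_le_mul_right _ hL1
      _ ≤ n₀ := hn1
  have hup : (r + 1) ^ P.h * Z ≤ P.bnd (P.g * u) P.c₁ + P.rm r ^ P.h * Z := by
    have h1 := Nat.mul_le_mul_right ((P.W * u) ^ P.h) hL2
    have h2 : P.c₀ ^ P.h * (r + 1) ^ P.h * (P.W * u) ^ P.h = (r + 1) ^ P.h * Z := by
      rw [hZ]; unfold bnd; rw [mul_pow P.c₀]; ring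
    have h3 : ((P.g * P.c₁) ^ P.h + P.c₀ ^ P.h * P.rm r ^ P.h) * (P.W * u) ^ P.h =
        P.bnd (P.g * u) P.c₁ + P.rm r ^ P.h * Z := by
      rw [hZ]; unfold bnd
      rw [mul_pow P.c₀ (P.W * u), add_mul, ← mul_pow]
      congr 1
      · congr 1; ring
      · ring
    rw [h2, h3] at h1
    exact h1
  have hw1 : P.bnd (P.g * u) P.c₀ ≤ n₀ - x := by
    rw [bnd_g, bnd_mul, ← hZ]
    omega
  have hw2 : n₀ - x < P.bnd (P.g * u) P.c₁ := by omega
  have hc01 : P.c₀ ≤ P.c₁ := (bnd_lt (lt_of_le_of_lt hw1 hw2)).le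
  obtain ⟨b, hb1, hb2, hb3, hb4⟩ := exists_level (P.bnd (P.g * u)) hc01 hw1 hw2
  have hcv : P.cv (⟨b - P.c₀, by unfold nc; omega⟩ : Fin P.nc) = b := by
    unfold cv
    simp only
    omega
  refine ⟨(true, (⟨b - P.c₀, by unfold nc; omega⟩, P.jb)), mem_image_of_mem _ (mem_univ _),
    ?_, n₀ - x, ?_, by omega⟩
  · unfold off2 offs
    simp only
    rw [hcv, Nat.card_Ico]
    simp only [mu, cond_true]
    -- `g b < (r+1) c₀`
    have h1 : P.bnd u (P.g * b) < P.bnd u ((r + 1) * P.c₀) := by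
      rw [← bnd_g, bnd_mul, ← hZ]
      omega
    have h2 := bnd_lt h1
    have h3 : P.g * (b + 1) ≤ (r + 2) * P.c₀ := by
      have : P.g ≤ P.c₀ := by
        unfold c₀; exact Nat.le_mul_of_pos_right _ hP.hc₃
      calc P.g * (b + 1) = P.g * b + P.g := by ring
        _ ≤ (r + 1) * P.c₀ + P.c₀ := by omega
        _ = _ := by ring
    have h4 := pow_succ_le b P.h
    unfold bnd BB
    rw [mul_pow (b + 1) _, mul_pow b _, ← Nat.sub_mul]
    calc ((b + 1) ^ P.h - b ^ P.h) * (P.W * (P.g * u)) ^ P.h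
        ≤ (P.h * (b + 1) ^ (P.h - 1)) * (P.W * (P.g * u)) ^ P.h :=
          Nat.mul_le_mul_right _ (by omega)
      _ = P.g * P.h * (P.W * u) ^ P.h * (P.g * (b + 1)) ^ (P.h - 1) := by
          have h5 : (P.W * (P.g * u)) ^ P.h = P.g * P.g ^ (P.h - 1) * (P.W * u) ^ P.h := by
            rw [← pow_succ', Nat.sub_add_cancel (by have := h_pos (P := P); omega), ← mul_pow]
            congr 1; ring
          rw [h5, mul_pow P.g (b + 1)]; ring
      _ ≤ _ := by gcongr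
  · unfold off2 offs
    simp only
    rw [hcv, mem_Ico]
    simp only [mu, cond_true]
    exact ⟨hb3, hb4⟩

lemma CM_pair {c c' : Bool × P.Idx} (hc : c ∈ P.CM r) (hc' : c' ∈ P.CM r) (hne : c ≠ c') :
    Disjoint (P.off2 u c) (P.off2 u c') := by
  unfold CM at hc hc'
  obtain ⟨i, hi, rfl⟩ := mem_image.1 hc
  obtain ⟨j, hj, rfl⟩ := mem_image.1 hc'
  have hij : i ≠ j := by rintro rfl; exact hne rfl
  have hij' : (i : ℕ) ≠ j := fun h => hij (Fin.ext h)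
  rw [disjoint_left]
  intro x h1 h2
  unfold off2 offs at h1 h2
  simp only [mem_Ico] at h1 h2
  rcases Nat.lt_or_gt_of_ne hij' with h | h
  · have : P.cv i + 1 ≤ P.cv j := by unfold cv; omega
    have := bnd_mono (P := P) (P.mu (P.em r) * u) this
    omega
  · have : P.cv j + 1 ≤ P.cv i := by unfold cv; omega
    have := bnd_mono (P := P) (P.mu (P.em r) * u) this
    omega

end values

end Par

end Helper47.Spec
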