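import Pool.Agent.Helper47.Spec.Dens
import Pool.Agent.Helper47.Spec.Stage2

/-!
# Local density of one epoch
-/

open Finset

namespace Helper47.Spec

lemma rt_zero {h : ℕ} (hh : h ≠ 0) : rt h 0 = 0 := by
  unfold rt
  exact Real.zero_rpow (by positivity)

namespace Par

/-- The numerical hypotheses for the density estimate. -/
structure NumD (P : Par) : Prop extends P.Num where
  top : (P.h + 2) * (P.h * P.base ^ (P.h - 1)) + (P.c₁ * P.W) ^ P.h ≤
    (P.g * P.c₀ * P.W) ^ P.h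

/-- The density of the construction. -/
noncomputable def dens (P : Par) : ℝ :=
  ((P.T : ℝ) + 2) * (((P.h : ℝ) + 2) / P.W * (1 - 1 / (2 * (P.h : ℝ)))⁻¹ +
    2 * (P.h : ℝ) / 2 ^ (P.h - 1))

/-- The error term for one epoch. -/
noncomputable def err (P : Par) (u : ℕ) : ℝ :=
  ((P.T : ℝ) + 2) * (((P.h : ℝ) + 2) / P.W *
    rt P.h (P.h * ((u : ℝ) * P.base) ^ (P.h - 1)) + 2)

variable {P : Par} {u : ℕ} {t : P.Idx → ℕ}

lemma t_mem (ht : t ∈ Fintype.piFinset (P.offs u)) (i : P.Idx) :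
    P.bnd u (P.cv i.1) ≤ t i ∧ t i < P.bnd u (P.cv i.1 + 1) := by
  have := Fintype.mem_piFinset.1 ht i
  unfold offs at this
  exact mem_Ico.1 this

lemma EP_ge (ht : t ∈ Fintype.piFinset (P.offs u)) {n : ℕ} (hn : n ∈ P.EP u t) :
    P.bnd u P.c₀ ≤ n := by
  obtain ⟨i, l, _, rfl⟩ := hn
  have h1 := (t_mem ht i).1
  have h2 : P.bnd u P.c₀ ≤ P.bnd u (P.cv i.1) := bnd_mono u (Nat.le_add_right _ _)
  omega

lemma dd_le (hP : P.Num) (hu : 1 ≤ u) {ρ : ℕ} (hρ : ρ ≤ 2 * P.T + 1) :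
    P.dd u ρ ≤ P.h * (u * P.base) ^ (P.h - 1) := by
  unfold dd
  refine F_le (le_trans hρ (hP.T_le_base.trans (Nat.le_mul_of_pos_left _ hu)))

lemma EP_lt (hP : P.NumD) (hu : 1 ≤ u) (ht : t ∈ Fintype.piFinset (P.offs u)) {n : ℕ}
    (hn : n ∈ P.EP u t) : n < P.bnd (P.g * u) P.c₀ := by
  obtain ⟨i, l, hl, rfl⟩ := hn
  have h1 := (t_mem ht i).2
  have h2 : P.bnd u (P.cv i.1 + 1) ≤ P.bnd u P.c₁ := by
    refine bnd_mono u ?_
    have := i.1.2
    unfold nc at this
    unfold cv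
    omega
  have h3 : l * P.dd u (P.dv i.2) ≤ (P.h + 2) * u * (P.h * (u * P.base) ^ (P.h - 1)) :=
    Nat.mul_le_mul hl.le (dd_le hP.toNum hu (P.dv_le _))
  have h4 : (P.h + 2) * u * (P.h * (u * P.base) ^ (P.h - 1)) + P.bnd u P.c₁ ≤
      P.bnd (P.g * u) P.c₀ := by
    have h5 := Nat.mul_le_mul_right (u ^ P.h) hP.top
    have h6 : (P.h + 2) * u * (P.h * (u * P.base) ^ (P.h - 1)) =
        (P.h + 2) * (P.h * P.base ^ (P.h - 1)) * u ^ P.h := by
      have : u ^ P.h = u * u ^ (P.h - 1) := by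
        rw [← pow_succ', Nat.sub_add_cancel (by have := h_pos (P := P); omega)]
      rw [this, mul_pow]
      ring
    have h7 : P.bnd u P.c₁ = (P.c₁ * P.W) ^ P.h * u ^ P.h := by
      unfold bnd; rw [← mul_pow]; congr 1; ring
    have h8 : P.bnd (P.g * u) P.c₀ = (P.g * P.c₀ * P.W) ^ P.h * u ^ P.h := by
      unfold bnd; rw [← mul_pow]; congr 1; ring
    rw [h6, h7, h8, ← add_mul]
    exact h5
  omega

/-- One epoch, one direction. -/
lemma one_dir' (hP : P.NumD) (hu : 1 ≤ u) (ht : t ∈ Fintype.piFinset (P.offs u))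
    (j : Fin (P.T + 2)) {x y : ℕ} (hx : P.bnd u P.c₀ ≤ x) (hxy : x ≤ y)
    (hy : y ≤ P.bnd (P.g * u) P.c₀) :
    ((((univ : Finset (Fin P.nc)) ×ˢ range ((P.h + 2) * u)).filter (fun p =>
      x ≤ t (p.1, j) + p.2 * P.dd u (P.dv j) ∧
        t (p.1, j) + p.2 * P.dd u (P.dv j) < y)).card : ℝ) ≤
      (((P.h : ℝ) + 2) / P.W * (1 - 1 / (2 * (P.h : ℝ)))⁻¹ + 2 * (P.h : ℝ) / 2 ^ (P.h - 1)) *
        (rt P.h y - rt P.h x) +
      (((P.h : ℝ) + 2) / P.W * rt P.h (P.h * ((u : ℝ) * P.base) ^ (P.h - 1)) + 2) := by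
  have hh : 2 ≤ P.h := h_pos
  have hhr : (2 : ℝ) ≤ P.h := by exact_mod_cast hh
  have hg := hP.hg
  have hW := hP.hW
  have hWr : (0 : ℝ) < P.W := by exact_mod_cast hW
  have hur : (0 : ℝ) < u := by exact_mod_cast hu
  have hc0 : 0 < P.c₀ := Nat.mul_pos hg hP.hc₃
  have hbase : 0 < P.base := by have := hP.T_le_base; omega
  set d := P.dd u (P.dv j) with hd
  set M := (P.h + 2) * u with hM
  have hdlow : (u * P.base) ^ (P.h - 1) ≤ d := F_ge (by omega)
  have hd0 : 0 < d := lt_of_lt_of_le (by positivity) hdlow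
  have hdr : (0 : ℝ) < d := by exact_mod_cast hd0
  -- the extension
  have hext : 2 * P.h * (M * d) ≤ x := by
    have := hP.ext_le hu false (P.dv_le j)
    simp only [mu, cond_false, one_mul] at this
    exact this.trans hx
  have hMd : M * d ≤ x := le_trans (Nat.le_mul_of_pos_left _ (by omega)) hext
  set n := (y - x) / d + 1 with hn
  have hnd : y ≤ x + n * d := by
    have := Nat.lt_div_mul_add hd0 (a := y - x)
    rw [hn, add_mul, one_mul]
    omega
  have hnd' : n * d ≤ (y - x) + d := by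
    have := Nat.div_mul_le_self (y - x) d
    rw [hn, add_mul, one_mul]
    omega
  have h1 := one_dir (h := P.h) (by omega) (V := P.W * u) (d := d) (M := M)
    (Nat.mul_pos hW hu) hd0 (fun i : Fin P.nc => t (i, j)) P.cv univ
    (fun a _ b _ hab => Fin.ext (by unfold cv at hab; omega))
    (fun i _ => t_mem ht (i, j)) (x := x) (y := y) hMd n hnd
  refine h1.trans ?_
  set x' : ℝ := (x : ℝ) - M * d with hx'
  have hx'0 : 0 ≤ x' := by rw [hx', sub_nonneg]; exact_mod_cast hMd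
  set δ : ℝ := (y : ℝ) - x with hδ
  have hδ0 : 0 ≤ δ := by rw [hδ, sub_nonneg]; exact_mod_cast hxy
  have hndr : (n : ℝ) * d ≤ δ + d := by
    have h2 : ((n * d : ℕ) : ℝ) ≤ ((y - x + d : ℕ) : ℝ) := by exact_mod_cast hnd'
    rw [Nat.cast_add, Nat.cast_sub hxy] at h2
    push_cast at h2
    rw [hδ]
    exact h2
  have hMV : ((M : ℕ) : ℝ) / ((P.W * u : ℕ) : ℝ) = ((P.h : ℝ) + 2) / P.W := by
    rw [hM]
    push_cast
    field_simp
  -- main term
  have hmain : rt P.h (x' + n * d) - rt P.h x' ≤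
      (1 - 1 / (2 * (P.h : ℝ)))⁻¹ * (rt P.h y - rt P.h x) +
        rt P.h (P.h * ((u : ℝ) * P.base) ^ (P.h - 1)) := by
    have h2 : rt P.h (x' + n * d) ≤ rt P.h ((x' + δ) + d) := by
      refine rt_mono (by positivity) ?_
      linarith
    have h3 := rt_incr (h := P.h) (by omega) (w := 0) (z := x' + δ) (d := d) le_rfl
      (by positivity) hdr.le
    rw [rt_zero (by omega), zero_add, sub_zero] at h3
    have hη0 : (0 : ℝ) ≤ 1 / (2 * P.h) := by positivity
    have hη1 : (1 : ℝ) / (2 * P.h) < 1 := by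
      rw [div_lt_one (by positivity)]; linarith
    have h4 := rt_shift (h := P.h) (by omega) (x := x) (x' := x') (Δ := δ)
      (η := 1 / (2 * (P.h : ℝ))) (by positivity) hδ0 hη0 hη1 (by
        have h5 : (2 : ℝ) * P.h * (M * d) ≤ x := by exact_mod_cast hext
        have h6 : (M : ℝ) * d ≤ 1 / (2 * P.h) * x := by
          rw [div_mul_eq_mul_div, le_div_iff₀ (by positivity)]
          linarith
        rw [hx']
        linarith)
    have h5 : (x : ℝ) + δ = y := by rw [hδ]; ring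
    rw [h5] at h4
    have h6 : rt P.h d ≤ rt P.h (P.h * ((u : ℝ) * P.base) ^ (P.h - 1)) := by
      refine rt_mono hdr.le ?_
      have := dd_le hP.toNum hu (P.dv_le j)
      exact_mod_cast this
    linarith
  -- the number of windows
  have hwin : 2 * (n : ℝ) ≤ 2 * (P.h : ℝ) / 2 ^ (P.h - 1) * (rt P.h y - rt P.h x) + 2 := by
    have h2 : (n : ℝ) ≤ δ / d + 1 := by
      have h3 : (n : ℝ) ≤ (δ + d) / d := by rw [le_div_iff₀ hdr]; exact hndr
      rwa [add_div, div_self hdr.ne'] at h3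
    have h3 : δ ≤ P.h * rt P.h y ^ (P.h - 1) * (rt P.h y - rt P.h x) :=
      sub_le_rt (by omega) (by positivity) (by exact_mod_cast hxy)
    set R : ℝ := (P.g : ℝ) * P.c₀ * P.W * u with hR
    have hR0 : 0 < R := by rw [hR]; positivity
    have h4 : rt P.h y ≤ R := by
      have h5 : (y : ℝ) ≤ R ^ P.h := by
        have h6 : (y : ℝ) ≤ (P.bnd (P.g * u) P.c₀ : ℝ) := by exact_mod_cast hy
        refine h6.trans (le_of_eq ?_)
        unfold bnd
        push_cast
        rw [hR]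
        congr 1
        ring
      calc rt P.h y ≤ rt P.h (R ^ P.h) := rt_mono (by positivity) h5
        _ = R := pow_rt (by omega) hR0.le
    have h5 : (2 * R) ^ (P.h - 1) ≤ d := by
      have h6 : (((u * P.base) ^ (P.h - 1) : ℕ) : ℝ) ≤ d := by exact_mod_cast hdlow
      refine le_trans (le_of_eq ?_) h6
      unfold base
      push_cast
      rw [hR]
      congr 1
      ring
    have hdiff : 0 ≤ rt P.h y - rt P.h x := by
      rw [sub_nonneg]; exact rt_mono (by positivity) (by exact_mod_cast hxy)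
    have h6 : rt P.h y ^ (P.h - 1) / d ≤ 1 / 2 ^ (P.h - 1) := by
      rw [div_le_div_iff₀ hdr (by positivity), one_mul]
      calc rt P.h y ^ (P.h - 1) * 2 ^ (P.h - 1) ≤ R ^ (P.h - 1) * 2 ^ (P.h - 1) := by
            have := rt_nonneg P.h (x := (y : ℝ)) (by positivity)
            gcongr
        _ = (2 * R) ^ (P.h - 1) := by rw [mul_pow]; ring
        _ ≤ d := h5
    have h7 : δ / d ≤ P.h / 2 ^ (P.h - 1) * (rt P.h y - rt P.h x) := by
      calc δ / d ≤ (P.h * rt P.h y ^ (P.h - 1) * (rt P.h y - rt P.h x)) / d := by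
            gcongr
        _ = P.h * (rt P.h y ^ (P.h - 1) / d) * (rt P.h y - rt P.h x) := by ring
        _ ≤ P.h * (1 / 2 ^ (P.h - 1)) * (rt P.h y - rt P.h x) := by gcongr
        _ = _ := by ring
    have h8 : 2 * (P.h : ℝ) / 2 ^ (P.h - 1) = 2 * (P.h / 2 ^ (P.h - 1)) := by ring
    rw [h8]
    linarith
  rw [hMV]
  have hnn : 0 ≤ ((P.h : ℝ) + 2) / P.W := by positivity
  have := mul_le_mul_of_nonneg_left hmain hnn
  calc ((P.h : ℝ) + 2) / P.W * (rt P.h (x' + n * d) - rt P.h x') + 2 * n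
      ≤ ((P.h : ℝ) + 2) / P.W * ((1 - 1 / (2 * (P.h : ℝ)))⁻¹ * (rt P.h y - rt P.h x) +
        rt P.h (P.h * ((u : ℝ) * P.base) ^ (P.h - 1))) +
          (2 * (P.h : ℝ) / 2 ^ (P.h - 1) * (rt P.h y - rt P.h x) + 2) := add_le_add this hwin
    _ = _ := by ring

open Classical in
/-- One epoch. -/
lemma one_epoch (hP : P.NumD) (hu : 1 ≤ u) (ht : t ∈ Fintype.piFinset (P.offs u))
    {x y : ℕ} (hx : P.bnd u P.c₀ ≤ x) (hxy : x ≤ y)
    (hy : y ≤ P.bnd (P.g * u) P.c₀) :
    (((Ico x y).filter (· ∈ P.EP u t)).card : ℝ) ≤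
      P.dens * (rt P.h y - rt P.h x) + P.err u := by
  have hsub : (Ico x y).filter (· ∈ P.EP u t) ⊆
      (univ : Finset (Fin (P.T + 2))).biUnion (fun j =>
        (((univ : Finset (Fin P.nc)) ×ˢ range ((P.h + 2) * u)).filter (fun p =>
          x ≤ t (p.1, j) + p.2 * P.dd u (P.dv j) ∧
            t (p.1, j) + p.2 * P.dd u (P.dv j) < y)).image
          (fun p => t (p.1, j) + p.2 * P.dd u (P.dv j))) := by
    intro n hn
    obtain ⟨hn1, hn2⟩ := mem_filter.1 hn
    obtain ⟨⟨i, j⟩, l, hl, rfl⟩ := hn2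
    rw [mem_Ico] at hn1
    rw [mem_biUnion]
    refine ⟨j, mem_univ _, mem_image.2 ⟨(i, l), mem_filter.2 ⟨?_, hn1⟩, rfl⟩⟩
    rw [mem_product]
    exact ⟨mem_univ _, mem_range.2 hl⟩
  have h1 : ((Ico x y).filter (· ∈ P.EP u t)).card ≤
      ∑ j : Fin (P.T + 2), (((univ : Finset (Fin P.nc)) ×ˢ range ((P.h + 2) * u)).filter
        (fun p => x ≤ t (p.1, j) + p.2 * P.dd u (P.dv j) ∧
            t (p.1, j) + p.2 * P.dd u (P.dv j) < y)).card :=
    (card_le_card hsub).trans (card_biUnion_le.trans (sum_le_sum fun j _ => card_image_le))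
  calc (((Ico x y).filter (· ∈ P.EP u t)).card : ℝ)
      ≤ ∑ j : Fin (P.T + 2),
        ((((univ : Finset (Fin P.nc)) ×ˢ range ((P.h + 2) * u)).filter
        (fun p => x ≤ t (p.1, j) + p.2 * P.dd u (P.dv j) ∧
            t (p.1, j) + p.2 * P.dd u (P.dv j) < y)).card : ℝ) := by exact_mod_cast h1
    _ ≤ ∑ _j : Fin (P.T + 2),
        ((((P.h : ℝ) + 2) / P.W * (1 - 1 / (2 * (P.h : ℝ)))⁻¹ + 2 * (P.h : ℝ) / 2 ^ (P.h - 1)) *
          (rt P.h y - rt P.h x) +
        (((P.h : ℝ) + 2) / P.W * rt P.h (P.h * ((u : ℝ) * P.base) ^ (P.h - 1)) + 2)) :=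
        sum_le_sum fun j _ => one_dir' hP hu ht j hx hxy hy
    _ = _ := by
        rw [sum_const, card_univ, Fintype.card_fin, nsmul_eq_mul]
        unfold dens err
        push_cast
        ring

end Par

end Helper47.Spec
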