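import Mathlib

/-!
# Sequential selection

If `Bad k` is a relation between points of two consecutive finite sets `Ω k`, `Ω (k+1)` that
holds for at most one ninth of the pairs, then there is a sequence of points avoiding all
the relations.
-/

open Finset

namespace Helper47.Spec

variable {α : ℕ → Type*}

open Classical in
theorem exists_seq (Ω : ∀ k, Finset (α k)) (hne : ∀ k, (Ω k).Nonempty)
    (Bad : ∀ k, α k → α (k + 1) → Prop)
    (hB : ∀ k, 9 * ((Ω k ×ˢ Ω (k + 1)).filter (fun p => Bad k p.1 p.2)).card ≤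
      (Ω k).card * (Ω (k + 1)).card) :
    ∃ t : ∀ k, α k, (∀ k, t k ∈ Ω k) ∧ ∀ k, ¬ Bad k (t k) (t (k + 1)) := by
  -- `t ∈ Ω k` is good if at most a third of the `s ∈ Ω (k+1)` are bad for it
  let cnt : ∀ k, α k → ℕ := fun k t => ((Ω (k + 1)).filter (fun s => Bad k t s)).card
  let good : ∀ k, α k → Prop := fun k t => t ∈ Ω k ∧ 3 * cnt k t ≤ (Ω (k + 1)).card
  -- fewer than a third + ... of the points are not good
  have hngood : ∀ k, 3 * ((Ω k).filter (fun t => ¬ (3 * cnt k t ≤ (Ω (k + 1)).card))).card ≤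
      (Ω k).card := by
    intro k
    have hsum : ((Ω k ×ˢ Ω (k + 1)).filter (fun p => Bad k p.1 p.2)).card =
        ∑ t ∈ Ω k, cnt k t := by
      rw [card_filter, sum_product]
      refine sum_congr rfl fun t _ => ?_
      simp only [cnt]
      rw [card_filter]
    have h1 : ((Ω k).filter (fun t => ¬ (3 * cnt k t ≤ (Ω (k + 1)).card))).card *
        (Ω (k + 1)).card ≤ 3 * ∑ t ∈ Ω k, cnt k t := by
      calc ((Ω k).filter (fun t => ¬ (3 * cnt k t ≤ (Ω (k + 1)).card))).card *
        (Ω (k + 1)).card = ∑ t ∈ (Ω k).filter (fun t => ¬ (3 * cnt k t ≤ (Ω (k + 1)).card)),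
            (Ω (k + 1)).card := by rw [sum_const, smul_eq_mul]
        _ ≤ ∑ t ∈ (Ω k).filter (fun t => ¬ (3 * cnt k t ≤ (Ω (k + 1)).card)), 3 * cnt k t := by
            refine sum_le_sum fun t ht => ?_
            have := (mem_filter.1 ht).2
            omega
        _ ≤ ∑ t ∈ Ω k, 3 * cnt k t := sum_le_sum_of_subset (filter_subset _ _)
        _ = 3 * ∑ t ∈ Ω k, cnt k t := by rw [mul_sum]
    have h2 := hB k
    rw [hsum] at h2
    have hpos : 0 < (Ω (k + 1)).card := (hne (k + 1)).card_pos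
    have h3 : (3 * ((Ω k).filter (fun t => ¬ (3 * cnt k t ≤ (Ω (k + 1)).card))).card) *
        (Ω (k + 1)).card ≤ (Ω k).card * (Ω (k + 1)).card := by
      calc _ = 3 * (((Ω k).filter (fun t => ¬ (3 * cnt k t ≤ (Ω (k + 1)).card))).card *
        (Ω (k + 1)).card) := by ring
        _ ≤ 3 * (3 * ∑ t ∈ Ω k, cnt k t) := Nat.mul_le_mul_left _ h1
        _ = 9 * ∑ t ∈ Ω k, cnt k t := by ring
        _ ≤ _ := h2
    exact Nat.le_of_mul_le_mul_right h3 hpos
  -- there is a good point
  have hstart : ∀ k, ∃ t, good k t := by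
    intro k
    by_contra hcon
    push Not at hcon
    have : (Ω k).filter (fun t => ¬ (3 * cnt k t ≤ (Ω (k + 1)).card)) = Ω k := by
      refine filter_true_of_mem fun t ht h3 => hcon t ⟨ht, h3⟩
    have h1 := hngood k
    rw [this] at h1
    have := (hne k).card_pos
    omega
  -- step
  have hstep : ∀ k t, good k t → ∃ s, good (k + 1) s ∧ ¬ Bad k t s := by
    rintro k t ⟨ht, hgt⟩
    by_contra hcon
    push Not at hcon
    have hcover : Ω (k + 1) ⊆ (Ω (k + 1)).filter (fun s => Bad k t s) ∪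
        (Ω (k + 1)).filter (fun t => ¬ (3 * cnt (k + 1) t ≤ (Ω (k + 1 + 1)).card)) := by
      intro s hs
      by_cases hb : Bad k t s
      · exact mem_union_left _ (mem_filter.2 ⟨hs, hb⟩)
      · refine mem_union_right _ (mem_filter.2 ⟨hs, fun h3 => ?_⟩)
        exact hb (hcon s ⟨hs, h3⟩)
    have h1 := card_le_card hcover
    have h2 := card_union_le ((Ω (k + 1)).filter (fun s => Bad k t s))
      ((Ω (k + 1)).filter (fun t => ¬ (3 * cnt (k + 1) t ≤ (Ω (k + 1 + 1)).card)))
    have h3 := hngood (k + 1)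
    have h4 := (hne (k + 1)).card_pos
    have h5 : ((Ω (k + 1)).filter (fun s => Bad k t s)).card = cnt k t := rfl
    omega
  choose f hf using hstep
  obtain ⟨t0, ht0⟩ := hstart 0
  let seq : ∀ k, {t : α k // good k t} := fun k =>
    Nat.rec ⟨t0, ht0⟩ (fun k t => ⟨f k t.1 t.2, (hf k t.1 t.2).1⟩) k
  refine ⟨fun k => (seq k).1, fun k => (seq k).2.1, fun k => ?_⟩
  exact (hf k (seq k).1 (seq k).2).2

end Helper47.Spec
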