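import Pool.Agent.Helper47.Spec.Stage2

/-!
# The stage lemma
-/

open Finset

namespace Helper47.Spec

namespace Par

variable {P : Par}

/-- `n` is a sum of `h` elements of two consecutive epochs. -/
def Rep (P : Par) (u : ℕ) (t₀ t₁ : P.Idx → ℕ) (n : ℕ) : Prop :=
  ∃ f : Fin P.h → ℕ, (∀ i, f i ∈ P.EP u t₀ ∪ P.EP (P.g * u) t₁) ∧ ∑ i, f i = n

/-- Some number in the range of the stage is not represented. -/
def Bad (P : Par) (u : ℕ) (t₀ t₁ : P.Idx → ℕ) : Prop :=
  ∃ n, P.rlo ^ P.h * P.bnd u P.c₀ ≤ n ∧ n < (P.g * P.rlo) ^ P.h * P.bnd u P.c₀ ∧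
    ¬ P.Rep u t₀ t₁ n

/-- Size parameter of the net. -/
def qq (P : Par) : ℕ := P.g ^ P.h * P.base * (P.h * P.U)

/-- The net of the stage. -/
def nt (P : Par) (u Δ : ℕ) : Finset ℕ := net (P.k + 1) (u * P.base) P.D Δ P.qq

lemma card_nt (u Δ : ℕ) : (P.nt u Δ).card ≤ (P.D * P.qq) ^ P.h := card_net _ _ _ _ _

/-- The net at level `r`. -/
def ntr (P : Par) (u Δ r : ℕ) : Finset ℕ :=
  (P.nt u Δ).filter (fun n => r ^ P.h * P.bnd u P.c₀ ≤ n ∧ n < (r + 1) ^ P.h * P.bnd u P.c₀)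

/-- Level `r` is bad for `t`. -/
def NB (P : Par) (u Δ r : ℕ) (t : Bool × P.Idx → ℕ) : Prop :=
  ∃ n₀ ∈ P.ntr u Δ r, ∀ y ∈ P.SY u r, ∀ c ∈ P.CM r, ∀ β ∈ P.BG,
    xval P.al (P.ka u r) t (y, c) + t β ≠ n₀

lemma D_le_U (hP : P.Num) : P.D ≤ P.U := by
  unfold U UU
  refine Nat.le_mul_of_pos_right _ (Nat.mul_pos (Nat.factorial_pos _) ?_)
  have hQ : 0 < P.Q := Nat.mul_pos hP.hg (by omega)
  positivity

lemma D_pos : 0 < P.D := DD_pos _ _

lemma base_pos (hP : P.Num) : 0 < P.base := by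
  have := hP.T_le_base
  omega

/-- If no level is bad, everything is represented. -/
lemma rep_of_good (hP : P.Num) {u Δ : ℕ} (hΔ : 0 < Δ) (hu : P.h * P.U * Δ = u)
    {t : Bool × P.Idx → ℕ}
    (hgood : ∀ r, P.rlo - 1 ≤ r → r < P.g * P.rlo → ¬ P.NB u Δ r t)
    {n : ℕ} (hn1 : P.rlo ^ P.h * P.bnd u P.c₀ ≤ n)
    (hn2 : n < (P.g * P.rlo) ^ P.h * P.bnd u P.c₀) :
    P.Rep u (fun i => t (false, i)) (fun i => t (true, i)) n := by
  have hg := hP.hg
  have hD : 0 < P.D := D_pos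
  have hDU : P.D ≤ P.U := D_le_U hP
  have hh : 2 ≤ P.h := h_pos
  have hbase := base_pos hP
  have hu0 : 0 < u := by
    rw [← hu]
    exact Nat.mul_pos (Nat.mul_pos (by omega) (by omega)) hΔ
  have hp : 0 < u * P.base := Nat.mul_pos hu0 hbase
  -- the net
  have hK : 1 ≤ P.g ^ P.h := Nat.one_le_pow _ _ hg
  have hq : P.g ^ P.h * (u * P.base) ≤ P.D * Δ * P.qq := by
    unfold qq
    calc P.g ^ P.h * (u * P.base) = 1 * (P.g ^ P.h * P.base * (P.h * P.U * Δ)) := by
          rw [hu]; ring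
      _ ≤ P.D * (P.g ^ P.h * P.base * (P.h * P.U * Δ)) := Nat.mul_le_mul_right _ hD
      _ = _ := by ring
  have hnK : n < P.g ^ P.h * (u * P.base) ^ (P.k + 1 + 1) := by
    calc n < (P.g * P.rlo) ^ P.h * P.bnd u P.c₀ := hn2
      _ = P.g ^ P.h * (P.rlo * (P.c₀ * (P.W * u))) ^ P.h := by
          unfold bnd
          rw [mul_pow P.g P.rlo, mul_pow P.rlo]
          ring
      _ ≤ P.g ^ P.h * (2 * P.g * (P.c₀ * (P.W * u))) ^ P.h := by
          refine Nat.mul_le_mul_left _ (Nat.pow_le_pow_left (Nat.mul_le_mul_right _ hP.hrlo) _)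
      _ = P.g ^ P.h * (u * P.base) ^ P.h := by
          congr 2
          unfold base
          ring
      _ = _ := rfl
  obtain ⟨n₀, hn₀, w, hw, hnw⟩ := exists_net (h := P.k + 1) (p := u * P.base) (D := P.D)
    (Δ := Δ) (q := P.qq) (K := P.g ^ P.h) hp hK hD hΔ hq hnK
  -- the shift is at most `Z`
  have hshift : P.D * ∑ j : Fin (P.k + 1 + 1), w j * (u * P.base) ^ (j : ℕ) ≤ P.bnd u P.c₀ := by
    have h1 : ∑ j : Fin (P.k + 1 + 1), w j * (u * P.base) ^ (j : ℕ) ≤
        P.h * (Δ * (u * P.base) ^ (P.h - 1)) := by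
      calc ∑ j : Fin (P.k + 1 + 1), w j * (u * P.base) ^ (j : ℕ)
          ≤ ∑ _j : Fin (P.k + 1 + 1), Δ * (u * P.base) ^ (P.h - 1) := by
            refine sum_le_sum fun j _ => Nat.mul_le_mul (hw j).le ?_
            refine Nat.pow_le_pow_right hp ?_
            have := j.2
            unfold h
            omega
        _ = P.h * (Δ * (u * P.base) ^ (P.h - 1)) := by
            rw [sum_const, card_univ, Fintype.card_fin, smul_eq_mul]
            rfl
    calc P.D * ∑ j : Fin (P.k + 1 + 1), w j * (u * P.base) ^ (j : ℕ)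
        ≤ P.U * (P.h * (Δ * (u * P.base) ^ (P.h - 1))) := Nat.mul_le_mul hDU h1
      _ = u * (u * P.base) ^ (P.h - 1) := by rw [← hu]; ring
      _ = P.base ^ (P.h - 1) * (u * u ^ (P.h - 1)) := by rw [mul_pow u]; ring
      _ = P.base ^ (P.h - 1) * u ^ P.h := by
          rw [← pow_succ' u, Nat.sub_add_cancel (by omega)]
      _ ≤ (P.c₀ * P.W) ^ P.h * u ^ P.h := by
          refine Nat.mul_le_mul_right _ (le_trans ?_ hP.ext)
          have h2 : P.base ^ (P.h - 1) ≤ (P.g * P.base) ^ (P.h - 1) :=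
            Nat.pow_le_pow_left (Nat.le_mul_of_pos_left _ hg) _
          calc P.base ^ (P.h - 1) ≤ (P.g * P.base) ^ (P.h - 1) := h2
            _ ≤ P.h * (P.g * P.base) ^ (P.h - 1) := Nat.le_mul_of_pos_left _ (by omega)
            _ ≤ (P.h + 2) * P.g * (P.h * (P.g * P.base) ^ (P.h - 1)) :=
                Nat.le_mul_of_pos_left _ (Nat.mul_pos (by omega) hg)
            _ ≤ _ := Nat.le_mul_of_pos_left _ (by omega)
      _ = P.bnd u P.c₀ := by
          unfold bnd
          rw [← mul_pow]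
          congr 1
          ring
  -- the level
  have hlow : (P.rlo - 1) ^ P.h * P.bnd u P.c₀ ≤ n₀ := by
    have h1 : (P.rlo - 1) ^ P.h + 1 ≤ P.rlo ^ P.h := by
      have h2 : P.rlo - 1 < P.rlo := by have := hP.hrlo1; omega
      exact Nat.pow_lt_pow_left h2 (by omega)
    have h3 : ((P.rlo - 1) ^ P.h + 1) * P.bnd u P.c₀ ≤ P.rlo ^ P.h * P.bnd u P.c₀ :=
      Nat.mul_le_mul_right _ h1
    rw [add_mul, one_mul] at h3
    omega
  have hup : n₀ < (P.g * P.rlo) ^ P.h * P.bnd u P.c₀ := by omega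
  have hle : P.rlo - 1 ≤ P.g * P.rlo := by
    have : P.rlo ≤ P.g * P.rlo := Nat.le_mul_of_pos_left _ hg
    omega
  obtain ⟨r, hr1, hr2, hr3, hr4⟩ := exists_level (fun r => r ^ P.h * P.bnd u P.c₀) hle hlow hup
  have hng := hgood r hr1 hr2
  unfold NB at hng
  push Not at hng
  obtain ⟨y, hy, c, hc, β, hβ, hval⟩ := hng n₀ (mem_filter.2 ⟨hn₀, hr3, hr4⟩)
  unfold CM at hc
  obtain ⟨i, hi, rfl⟩ := mem_image.1 hc
  unfold BG at hβ
  obtain ⟨j, hj, rfl⟩ := mem_image.1 hβ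
  rw [xval_eq] at hval
  obtain ⟨l', hl', hsum⟩ := hP.toAlg.shift hu (P.eV r y) (P.rV y) (rV_inj y) (rV_ge y) (rV_le y)
    (P.glue (fun a => t (P.crd y a)) (t (P.em r, (i, P.jm))) (t (true, (j, P.jb))))
    (P.lV y) (lV_core hy) w hw hval hnw
  refine ⟨fun a => _, ?_, hsum⟩
  have hmem : ∀ (e : Bool) (x : P.Idx) (l : ℕ), l < (P.h + 2) * (P.mu e * u) →
      t (e, x) + l * P.dd (P.mu e * u) (P.dv x.2) ∈
        P.EP u (fun i => t (false, i)) ∪ P.EP (P.g * u) (fun i => t (true, i)) := by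
    intro e x l hl
    cases e
    · left
      simp only [mu, cond_false, one_mul] at hl ⊢
      exact ⟨x, l, hl, rfl⟩
    · right
      simp only [mu, cond_true] at hl ⊢
      exact ⟨x, l, hl, rfl⟩
  refine P.forall_h (fun a => ?_) ?_ ?_
  · have := hl' (P.i0 a)
    unfold eV at this ⊢
    unfold rV
    simp only [glue_i0] at this ⊢
    exact hmem _ ((y.2.1 a).2.1, P.js (P.dir y a)) _ this
  · have := hl' P.i1
    unfold eV at this ⊢
    unfold rV
    simp only [glue_i1] at this ⊢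
    exact hmem _ (i, P.jm) _ this
  · have := hl' P.i2
    unfold eV at this ⊢
    unfold rV
    simp only [glue_i2] at this ⊢
    exact hmem _ (j, P.jb) _ this

/-- The failure rate at level `r`. -/
noncomputable def rate (P : Par) (u r : ℕ) : ℝ :=
  2 * (P.SY u r).card / P.sg u + ((P.D * P.qq) ^ P.h : ℕ) *
    Real.exp (-(((P.SY u r).card : ℝ) * (P.cellsM r).card) / (2 * P.BB u r))

open Classical in
/-- The proportion of offsets for which level `r` is bad. -/
lemma card_NB (hP : P.Num) {u Δ r : ℕ} (hu0 : 1 ≤ u)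
    (hr1 : P.rlo - 1 ≤ r) (hr2 : r < P.g * P.rlo) :
    (((Fintype.piFinset (P.off2 u)).filter (P.NB u Δ r)).card : ℝ) ≤
      (Fintype.piFinset (P.off2 u)).card * P.rate u r := by
  have hg := hP.hg
  have hh : 2 ≤ P.h := h_pos
  have hc0 : 0 < P.c₀ := Nat.mul_pos hg hP.hc₃
  have hσ : 0 < P.sg u := by
    unfold sg
    have := hP.hW
    positivity
  have hM : 2 * (P.h * (P.Q ^ P.h * ((P.h + 1) * (P.g * u)))) < u * P.base := by
    have h1 := hP.ind
    calc 2 * (P.h * (P.Q ^ P.h * ((P.h + 1) * (P.g * u)))) =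
        u * (2 * (P.h * (P.Q ^ P.h * ((P.h + 1) * P.g)))) := by ring
      _ < u * P.base := Nat.mul_lt_mul_of_pos_left h1 (by omega)
  have h1 := coverage' (P.off2 u) (P.SY u r) (P.CM r) P.BG P.al (P.ka u r) P.k (P.sg u)
    (P.BB u r) hσ (fun y _ => P.card_al y)
    (fun y hy y' hy' h h' => inj_SY hP.toAlg hM hy hy' h h')
    (fun y _ => P.al_disj_CM y r)
    (fun c hc c' hc' hne => CM_pair hc hc' hne)
    (fun y _ a _ => sg_le hg a) (fun c _ => sg_le hg c)
    (fun y _ => P.al_disj_BG y) (P.CM_disj_BG r) (P.ntr u Δ r)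
    (fun n₀ hn₀ t ht y hy c hc => by
      unfold ntr at hn₀
      obtain ⟨_, h2, h3⟩ := mem_filter.1 hn₀
      exact hP.hbig hu0 ht hr1 hr2 hy hc h2 h3)
  have h2 : ((P.ntr u Δ r).card : ℝ) ≤ ((P.D * P.qq) ^ P.h : ℕ) := by
    have : (P.ntr u Δ r).card ≤ (P.D * P.qq) ^ P.h :=
      (card_le_card (filter_subset _ _)).trans (card_nt u Δ)
    exact_mod_cast this
  have h3 : (((Fintype.piFinset (P.off2 u)).filter (P.NB u Δ r)).card : ℝ) ≤
      (Fintype.piFinset (P.off2 u)).card * (2 * (P.SY u r).card / P.sg u +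
        (P.ntr u Δ r).card *
          Real.exp (-(((P.SY u r).card : ℝ) * (P.CM r).card) / (2 * P.BB u r))) := by
    refine le_trans (le_of_eq ?_) h1
    congr 2
    ext t
    rw [mem_filter, mem_filter]
    rfl
  refine h3.trans ?_
  rw [P.card_CM]
  unfold rate
  gcongr

open Classical in
/-- The stage lemma. -/
theorem stage (hP : P.Num) {u Δ : ℕ} (hΔ : 0 < Δ) (hu : P.h * P.U * Δ = u)
    (hsum : ∑ r ∈ Ico (P.rlo - 1) (P.g * P.rlo), P.rate u r ≤ 1 / 9) :
    9 * (((Fintype.piFinset (P.offs u)) ×ˢ (Fintype.piFinset (P.offs (P.g * u)))).filter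
      (fun p => P.Bad u p.1 p.2)).card ≤
      (Fintype.piFinset (P.offs u)).card * (Fintype.piFinset (P.offs (P.g * u))).card := by
  have hg := hP.hg
  have hh : 2 ≤ P.h := h_pos
  have hDU : P.D ≤ P.U := D_le_U hP
  have hD : 0 < P.D := D_pos
  have hu0 : 1 ≤ u := by
    rw [← hu]
    exact Nat.mul_pos (Nat.mul_pos (by omega) (by omega)) hΔ
  have e0 : (fun i => P.off2 u (false, i)) = P.offs u := by
    funext i
    unfold off2
    simp only [mu, cond_false, one_mul]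
  have e1 : (fun i => P.off2 u (true, i)) = P.offs (P.g * u) := by
    funext i
    unfold off2
    simp only [mu, cond_true]
  have hc' := card_pair' (P.off2 u)
  have hc := card_pair (P.off2 u) (fun t => P.Bad u (fun i => t (false, i)) (fun i => t (true, i)))
  rw [e0, e1] at hc hc'
  simp only [cond_true, cond_false] at hc
  rw [hc', hc]
  set Ω := Fintype.piFinset (P.off2 u) with hΩ
  have hsub : Ω.filter (fun t => P.Bad u (fun i => t (false, i)) (fun i => t (true, i))) ⊆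
      (Ico (P.rlo - 1) (P.g * P.rlo)).biUnion (fun r => Ω.filter (P.NB u Δ r)) := by
    intro t ht
    obtain ⟨ht1, n, hn1, hn2, hn3⟩ := mem_filter.1 ht
    by_contra hcon
    apply hn3
    refine rep_of_good hP hΔ hu (fun r hr1 hr2 hNB => hcon ?_) hn1 hn2
    exact mem_biUnion.2 ⟨r, mem_Ico.2 ⟨hr1, hr2⟩, mem_filter.2 ⟨ht1, hNB⟩⟩
  have h1 : ((Ω.filter (fun t => P.Bad u (fun i => t (false, i))
      (fun i => t (true, i)))).card : ℝ) ≤ Ω.card * (1 / 9) := by
    calc ((Ω.filter (fun t => P.Bad u (fun i => t (false, i))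
      (fun i => t (true, i)))).card : ℝ)
        ≤ ∑ r ∈ Ico (P.rlo - 1) (P.g * P.rlo), ((Ω.filter (P.NB u Δ r)).card : ℝ) := by
          exact_mod_cast (card_le_card hsub).trans card_biUnion_le
      _ ≤ ∑ r ∈ Ico (P.rlo - 1) (P.g * P.rlo), Ω.card * P.rate u r := by
          refine sum_le_sum fun r hr => ?_
          rw [mem_Ico] at hr
          exact card_NB hP hu0 hr.1 hr.2
      _ = Ω.card * ∑ r ∈ Ico (P.rlo - 1) (P.g * P.rlo), P.rate u r := by rw [mul_sum]
      _ ≤ _ := by gcongr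
  have h2 : ((9 * (Ω.filter (fun t => P.Bad u (fun i => t (false, i))
      (fun i => t (true, i)))).card : ℕ) : ℝ) ≤ (Ω.card : ℝ) := by
    push_cast
    linarith
  exact_mod_cast h2

end Par

end Helper47.Spec
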