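import Pool.Agent.Helper47.Spec.Dens2
import Pool.Agent.Helper47.Spec.Stage3
import Pool.Agent.Helper47.Spec.Select

/-!
# Local density of the whole set, and the existence theorem for given parameters
-/

open Finset Filter Topology

namespace Helper47.Spec

namespace Par

variable {P : Par}

/-- The error terms are negligible. -/
lemma err_small (P : Par) {ε : ℝ} (hε : 0 < ε) : ∀ᶠ u : ℕ in atTop, P.err u ≤ ε * u := by
  have hh : P.h ≠ 0 := by unfold h; omega
  set C : ℝ := ((P.T : ℝ) + 2) * (((P.h : ℝ) + 2) / P.W *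
    rt P.h (P.h * (P.base : ℝ) ^ (P.h - 1))) with hC
  have hC0 : 0 ≤ C := by
    rw [hC]
    have := rt_nonneg P.h (x := P.h * (P.base : ℝ) ^ (P.h - 1)) (by positivity)
    positivity
  have h1 : ∀ᶠ u : ℕ in atTop, C / rt P.h u ≤ ε / 2 := by
    have : Tendsto (fun u : ℕ => C / rt P.h u) atTop (𝓝 0) :=
      Tendsto.div_atTop tendsto_const_nhds (rt_tendsto hh)
    filter_upwards [this.eventually (gt_mem_nhds (by positivity : 0 < ε / 2))] with u hu
    exact hu.le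
  have h2 : ∀ᶠ u : ℕ in atTop, ((P.T : ℝ) + 2) * 2 ≤ ε / 2 * u := by
    have : Tendsto (fun u : ℕ => ε / 2 * (u : ℝ)) atTop atTop :=
      tendsto_natCast_atTop_atTop.const_mul_atTop (by positivity)
    exact this.eventually_ge_atTop _
  filter_upwards [h1, h2, (rt_tendsto hh).eventually_gt_atTop 0] with u h3 h4 h5
  have h6 : rt P.h ((P.h : ℝ) * ((u : ℝ) * P.base) ^ (P.h - 1)) =
      rt P.h (P.h * (P.base : ℝ) ^ (P.h - 1)) * (u / rt P.h u) := by
    have e1 : (P.h : ℝ) * ((u : ℝ) * P.base) ^ (P.h - 1) =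
        (P.h * (P.base : ℝ) ^ (P.h - 1)) * (u : ℝ) ^ (P.h - 1) := by
      rw [mul_pow]; ring
    rw [e1, rt_mul (by positivity) (by positivity)]
    congr 1
    rw [eq_div_iff h5.ne', ← rt_mul (by positivity) (by positivity), ← pow_succ,
      Nat.sub_add_cancel (by omega)]
    exact pow_rt hh (by positivity)
  have h7 : P.err u = C / rt P.h u * u + ((P.T : ℝ) + 2) * 2 := by
    unfold err
    rw [h6, hC]
    ring
  rw [h7]
  have hu0 : (0 : ℝ) ≤ u := by positivity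
  have := mul_le_mul_of_nonneg_right h3 hu0
  linarith

section

variable {u₀ : ℕ} {t : ℕ → P.Idx → ℕ}

/-- The whole set. -/
def AA (P : Par) (u₀ : ℕ) (t : ℕ → P.Idx → ℕ) : Set ℕ :=
  {n | ∃ k, n ∈ P.EP (P.g ^ k * u₀) (t k)}

/-- The starting points of the epochs. -/
def XX (P : Par) (u₀ k : ℕ) : ℕ := P.bnd (P.g ^ k * u₀) P.c₀

lemma XX_succ (k : ℕ) : P.XX u₀ (k + 1) = P.bnd (P.g * (P.g ^ k * u₀)) P.c₀ := by
  unfold XX
  congr 1
  ring

lemma XX_mono (hg : 1 ≤ P.g) : Monotone (P.XX u₀) := by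
  intro a b hab
  unfold XX bnd
  refine Nat.pow_le_pow_left (Nat.mul_le_mul_left _ (Nat.mul_le_mul_left _
    (Nat.mul_le_mul_right _ ?_))) _
  exact Nat.pow_le_pow_right hg hab

lemma AA_iff (hP : P.NumD) (hu₀ : 1 ≤ u₀)
    (ht : ∀ k, t k ∈ Fintype.piFinset (P.offs (P.g ^ k * u₀))) {k n : ℕ}
    (h1 : P.XX u₀ k ≤ n) (h2 : n < P.XX u₀ (k + 1)) :
    n ∈ P.AA u₀ t ↔ n ∈ P.EP (P.g ^ k * u₀) (t k) := by
  constructor
  · rintro ⟨k', hk'⟩
    have hu : 1 ≤ P.g ^ k' * u₀ :=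
      Nat.mul_pos (Nat.pow_pos hP.hg) hu₀
    have h3 : P.XX u₀ k' ≤ n := EP_ge (ht k') hk'
    have h4 : n < P.XX u₀ (k' + 1) := by
      rw [XX_succ]
      exact EP_lt hP hu (ht k') hk'
    have h5 : k' = k := by
      by_contra hne
      rcases Nat.lt_or_gt_of_ne hne with h | h
      · have := XX_mono (u₀ := u₀) hP.hg (show k' + 1 ≤ k from h)
        omega
      · have := XX_mono (u₀ := u₀) hP.hg (show k + 1 ≤ k' from h)
        omega
    rw [← h5]
    exact hk'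
  · intro h
    exact ⟨k, h⟩

lemma sum_pow_le {g : ℕ} (hg : 2 ≤ g) (K k : ℕ) :
    ∑ i ∈ Ico K (k + 1), g ^ i ≤ 2 * g ^ k := by
  have h1 : ∀ k, ∑ i ∈ range (k + 1), g ^ i ≤ 2 * g ^ k := by
    intro k
    induction k with
    | zero => simp
    | succ k ih =>
      rw [sum_range_succ]
      have : 2 * g ^ k ≤ g ^ (k + 1) := by
        rw [pow_succ, mul_comm]
        exact Nat.mul_le_mul_left _ hg
      omega
  refine le_trans (sum_le_sum_of_subset ?_) (h1 k)
  intro i hi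
  rw [mem_Ico] at hi
  exact mem_range.2 hi.2

open Classical in
/-- Several epochs. -/
lemma many_epochs (hP : P.NumD) (hu₀ : 1 ≤ u₀)
    (ht : ∀ k, t k ∈ Fintype.piFinset (P.offs (P.g ^ k * u₀))) (K : ℕ) :
    ∀ k, K ≤ k → ∀ x y, P.XX u₀ K ≤ x → x ≤ y → y ≤ P.XX u₀ (k + 1) →
      (((Ico x y).filter (· ∈ P.AA u₀ t)).card : ℝ) ≤
        P.dens * (rt P.h y - rt P.h x) + ∑ i ∈ Ico K (k + 1), P.err (P.g ^ i * u₀) := by
  -- one epoch
  have hone : ∀ k x y, P.XX u₀ k ≤ x → x ≤ y → y ≤ P.XX u₀ (k + 1) →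
      (((Ico x y).filter (· ∈ P.AA u₀ t)).card : ℝ) ≤
        P.dens * (rt P.h y - rt P.h x) + P.err (P.g ^ k * u₀) := by
    intro k x y hx hxy hy
    have hu : 1 ≤ P.g ^ k * u₀ := Nat.mul_pos (Nat.pow_pos hP.hg) hu₀
    have h1 : (Ico x y).filter (· ∈ P.AA u₀ t) =
        (Ico x y).filter (· ∈ P.EP (P.g ^ k * u₀) (t k)) := by
      refine filter_congr fun n hn => ?_
      rw [mem_Ico] at hn
      exact AA_iff hP hu₀ ht (hx.trans hn.1) (lt_of_lt_of_le hn.2 hy)
    rw [h1]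
    refine one_epoch hP hu (ht k) hx hxy ?_
    rw [← XX_succ]
    exact hy
  have herr : ∀ u, 0 ≤ P.err u := by
    intro u
    unfold err
    have := rt_nonneg P.h (x := P.h * ((u : ℝ) * P.base) ^ (P.h - 1)) (by positivity)
    positivity
  intro k hk
  induction k, hk using Nat.le_induction with
  | base =>
    intro x y hx hxy hy
    rw [Nat.Ico_succ_singleton, sum_singleton]
    exact hone K x y hx hxy hy
  | succ k hk ih =>
    intro x y hx hxy hy
    rw [Finset.sum_Ico_succ_top (by omega : K ≤ k + 1)]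
    by_cases h1 : y ≤ P.XX u₀ (k + 1)
    · have := ih x y hx hxy h1
      have := herr (P.g ^ (k + 1) * u₀)
      linarith
    · push Not at h1
      by_cases h2 : P.XX u₀ (k + 1) ≤ x
      · have h3 := hone (k + 1) x y h2 hxy hy
        have h4 : 0 ≤ ∑ i ∈ Ico K (k + 1), P.err (P.g ^ i * u₀) :=
          sum_nonneg fun i _ => herr _
        linarith
      · push Not at h2
        have h3 := ih x (P.XX u₀ (k + 1)) hx h2.le le_rfl
        have h4 := hone (k + 1) (P.XX u₀ (k + 1)) y le_rfl h1.le hy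
        have h5 : (Ico x y).filter (· ∈ P.AA u₀ t) ⊆
            (Ico x (P.XX u₀ (k + 1))).filter (· ∈ P.AA u₀ t) ∪
              (Ico (P.XX u₀ (k + 1)) y).filter (· ∈ P.AA u₀ t) := by
          intro n hn
          obtain ⟨hn1, hn2⟩ := mem_filter.1 hn
          rw [mem_Ico] at hn1
          by_cases h6 : n < P.XX u₀ (k + 1)
          · exact mem_union_left _ (mem_filter.2 ⟨mem_Ico.2 ⟨hn1.1, h6⟩, hn2⟩)
          · exact mem_union_right _ (mem_filter.2 ⟨mem_Ico.2 ⟨by omega, hn1.2⟩, hn2⟩)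
        have h6 : (((Ico x y).filter (· ∈ P.AA u₀ t)).card : ℝ) ≤
            (((Ico x (P.XX u₀ (k + 1))).filter (· ∈ P.AA u₀ t)).card : ℝ) +
              (((Ico (P.XX u₀ (k + 1)) y).filter (· ∈ P.AA u₀ t)).card : ℝ) := by
          exact_mod_cast (card_le_card h5).trans (card_union_le _ _)
        have h7 : P.dens * (rt P.h y - rt P.h x) =
            P.dens * (rt P.h (P.XX u₀ (k + 1)) - rt P.h x) +
              P.dens * (rt P.h y - rt P.h (P.XX u₀ (k + 1))) := by ring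
        linarith

/-- The density of the whole set. -/
theorem locDens (hP : P.NumD) (hu₀ : 1 ≤ u₀)
    (ht : ∀ k, t k ∈ Fintype.piFinset (P.offs (P.g ^ k * u₀))) :
    LocDens P.h P.dens (P.AA u₀ t) := by
  classical
  intro ε hε
  have hg := hP.hg
  have hg2 := hP.hg2
  have hh : P.h ≠ 0 := by unfold h; omega
  have hc0 : 0 < P.c₀ := Nat.mul_pos hg hP.hc₃
  have htop : Tendsto (fun k : ℕ => P.g ^ k * u₀) atTop atTop :=
    (tendsto_pow_atTop_atTop_of_one_lt (by omega)).atTop_mul_const' (by omega)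
  obtain ⟨K, hK⟩ := eventually_atTop.1 (htop.eventually (err_small P (half_pos hε)))
  refine ⟨P.XX u₀ K, fun x y hx hxy => ?_⟩
  -- the epoch of `y`
  have hbig : ∀ k, k < P.XX u₀ k := by
    intro k
    unfold XX bnd
    have h1 : k < P.g ^ k := Nat.lt_pow_self (by omega)
    have h2 : P.g ^ k ≤ P.c₀ * (P.W * (P.g ^ k * u₀)) := by
      calc P.g ^ k = 1 * (1 * (P.g ^ k * 1)) := by ring
        _ ≤ P.c₀ * (P.W * (P.g ^ k * u₀)) := by
            have := hP.hW
            gcongr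
            omega
    calc k < P.c₀ * (P.W * (P.g ^ k * u₀)) := lt_of_lt_of_le h1 h2
      _ ≤ _ := Nat.le_self_pow hh _
  have hKy : P.XX u₀ K ≤ y := hx.trans hxy
  have hle : K ≤ max K y := le_max_left _ _
  have hlt : y < P.XX u₀ (max K y) := by
    calc y ≤ max K y := le_max_right _ _
      _ < _ := hbig _
  obtain ⟨k, hk1, _, hk3, hk4⟩ := exists_level (P.XX u₀) hle hKy hlt
  have h1 := many_epochs hP hu₀ ht K k hk1 x y hx hxy hk4.le
  have h2 : ∑ i ∈ Ico K (k + 1), P.err (P.g ^ i * u₀) ≤ ε * rt P.h y := by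
    calc ∑ i ∈ Ico K (k + 1), P.err (P.g ^ i * u₀)
        ≤ ∑ i ∈ Ico K (k + 1), ε / 2 * ((P.g ^ i * u₀ : ℕ) : ℝ) := by
          refine sum_le_sum fun i hi => hK i (mem_Ico.1 hi).1
      _ = ε / 2 * (((∑ i ∈ Ico K (k + 1), P.g ^ i) * u₀ : ℕ) : ℝ) := by
          rw [← mul_sum]
          congr 1
          rw [sum_mul]
          push_cast
          rfl
      _ ≤ ε / 2 * ((2 * P.g ^ k * u₀ : ℕ) : ℝ) := by
          have := Nat.mul_le_mul_right u₀ (sum_pow_le hg2 K k)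
          gcongr
      _ = ε * ((P.g ^ k * u₀ : ℕ) : ℝ) := by push_cast; ring
      _ ≤ ε * rt P.h y := by
          refine mul_le_mul_of_nonneg_left ?_ hε.le
          have h3 : ((P.g ^ k * u₀ : ℕ) : ℝ) ^ P.h ≤ (y : ℝ) := by
            have h4 : (P.g ^ k * u₀) ^ P.h ≤ P.XX u₀ k := by
              unfold XX bnd
              refine Nat.pow_le_pow_left ?_ _
              calc P.g ^ k * u₀ = 1 * (1 * (P.g ^ k * u₀)) := by ring
                _ ≤ P.c₀ * (P.W * (P.g ^ k * u₀)) := by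
                    have := hP.hW
                    gcongr
                    omega
            exact_mod_cast h4.trans hk3
          calc ((P.g ^ k * u₀ : ℕ) : ℝ) = rt P.h (((P.g ^ k * u₀ : ℕ) : ℝ) ^ P.h) :=
                (pow_rt hh (by positivity)).symm
            _ ≤ rt P.h y := rt_mono (by positivity) h3
  linarith

end

/-- The existence theorem for given parameters. -/
theorem exists_basis (hP : P.NumD) (hrate : ∃ Δ₀ : ℕ, ∀ Δ, Δ₀ ≤ Δ →
    ∑ r ∈ Ico (P.rlo - 1) (P.g * P.rlo), P.rate (P.h * P.U * Δ) r ≤ 1 / 9)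
    (hdens : 0 < P.dens) :
    ∃ a : ℕ → ℕ, StrictMono a ∧
      (∀ᶠ n : ℕ in atTop, ∃ f : Fin P.h → ℕ, ∑ i, a (f i) = n) ∧
      Tendsto (fun n => (a n : ℝ) / ((P.dens ^ P.h)⁻¹ * ((n : ℝ) + 1) ^ P.h)) atTop (𝓝 1) := by
  classical
  obtain ⟨Δ₀, hΔ₀⟩ := hrate
  have hg := hP.hg
  have hU : 0 < P.U := lt_of_lt_of_le D_pos (D_le_U hP.toNum)
  have hh : 2 ≤ P.h := h_pos
  have hW := hP.hW
  have hc0 : 0 < P.c₀ := Nat.mul_pos hg hP.hc₃
  set Δ₁ := Δ₀ + 1 with hΔ₁
  set u₀ := P.h * P.U * Δ₁ with hu₀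
  have hu₀1 : 1 ≤ u₀ := Nat.mul_pos (Nat.mul_pos (by omega) hU) (by omega)
  have huk : ∀ k, P.h * P.U * (P.g ^ k * Δ₁) = P.g ^ k * u₀ := by
    intro k; rw [hu₀]; ring
  have hΔk : ∀ k, Δ₀ ≤ P.g ^ k * Δ₁ := by
    intro k
    have : Δ₁ ≤ P.g ^ k * Δ₁ := Nat.le_mul_of_pos_left _ (Nat.pow_pos hg)
    omega
  have hoffs : ∀ k, (Fintype.piFinset (P.offs (P.g ^ k * u₀))).Nonempty := by
    intro k
    rw [Fintype.piFinset_nonempty]
    intro i
    unfold offs
    rw [nonempty_Ico]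
    unfold bnd
    have : 0 < P.W * (P.g ^ k * u₀) := Nat.mul_pos hW (Nat.mul_pos (Nat.pow_pos hg) hu₀1)
    refine Nat.pow_lt_pow_left ?_ (by omega)
    exact Nat.mul_lt_mul_of_pos_right (Nat.lt_succ_self _) this
  have e1 : ∀ k, P.g ^ (k + 1) * u₀ = P.g * (P.g ^ k * u₀) := fun k => by ring
  obtain ⟨t, ht, hgood⟩ := exists_seq (α := fun _ => P.Idx → ℕ)
    (fun k => Fintype.piFinset (P.offs (P.g ^ k * u₀))) hoffs
    (fun k t₀ t₁ => P.Bad (P.g ^ k * u₀) t₀ t₁) (fun k => by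
      have h1 := stage hP.toNum (u := P.g ^ k * u₀) (Δ := P.g ^ k * Δ₁)
        (Nat.mul_pos (Nat.pow_pos hg) (by omega)) (huk k) (by
          rw [← huk k]; exact hΔ₀ _ (hΔk k))
      rw [e1 k]
      exact h1)
  have hA := locDens hP hu₀1 ht
  obtain ⟨a, hmono, hsub, hlim⟩ := regularize hh hdens hA
  refine ⟨a, hmono, ?_, hlim⟩
  -- all large numbers are represented
  have hrl : 1 ≤ P.rlo := hP.hrlo1
  let Y : ℕ → ℕ := fun k => P.rlo ^ P.h * P.bnd (P.g ^ k * u₀) P.c₀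
  have hYs : ∀ k, Y (k + 1) = (P.g * P.rlo) ^ P.h * P.bnd (P.g ^ k * u₀) P.c₀ := by
    intro k
    simp only [Y]
    unfold bnd
    rw [← mul_pow, ← mul_pow]
    congr 1
    ring
  have hYbig : ∀ k, k < Y k := by
    intro k
    simp only [Y]
    unfold bnd
    have h1 : k < P.g ^ k := Nat.lt_pow_self (by have := hP.hg2; omega)
    have h2 : P.g ^ k ≤ P.rlo * (P.c₀ * (P.W * (P.g ^ k * u₀))) := by
      calc P.g ^ k = 1 * (1 * (1 * (P.g ^ k * 1))) := by ring
        _ ≤ P.rlo * (P.c₀ * (P.W * (P.g ^ k * u₀))) := by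
            gcongr
            omega
    rw [← mul_pow]
    calc k < P.rlo * (P.c₀ * (P.W * (P.g ^ k * u₀))) := lt_of_lt_of_le h1 h2
      _ ≤ _ := Nat.le_self_pow (by omega) _
  refine eventually_atTop.2 ⟨Y 0, fun n hn => ?_⟩
  obtain ⟨k, _, _, hk3, hk4⟩ := exists_level Y (Nat.zero_le n) hn (hYbig n)
  rw [hYs k] at hk4
  have hrep : P.Rep (P.g ^ k * u₀) (t k) (t (k + 1)) n := by
    by_contra hcon
    exact hgood k ⟨n, hk3, hk4, hcon⟩
  obtain ⟨f, hf, hfn⟩ := hrep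
  have hfA : ∀ i, ∃ m, a m = f i := by
    intro i
    have : f i ∈ P.AA u₀ t := by
      rcases hf i with h | h
      · exact ⟨k, h⟩
      · refine ⟨k + 1, ?_⟩
        rw [e1 k]
        exact h
    exact hsub this
  choose m hm using hfA
  exact ⟨m, by rw [← hfn]; exact sum_congr rfl fun i _ => hm i⟩

end Par

end Helper47.Spec
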