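import Pool.Agent.Helper47.Spec.Num1

/-!
# From the two-sided bound to the limit
-/

open Finset Filter Topology

namespace Helper47.Spec

lemma pow_twelve_le {h : ℕ} (hh : 128 ≤ h) : h ^ 12 ≤ 2 ^ h := by
  induction h, hh using Nat.le_induction with
  | base => norm_num
  | succ n hn ih =>
    have h1 : (n + 1) ^ 12 ≤ 2 * n ^ 12 := by
      have hnr : (128 : ℝ) ≤ n := by exact_mod_cast hn
      have hn0 : (0 : ℝ) < n := by linarith
      have h2 : ((n : ℝ) + 1) ^ 12 ≤ 2 * (n : ℝ) ^ 12 := by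
        have h3 : (n : ℝ) + 1 ≤ (129 / 128) * n := by linarith
        calc ((n : ℝ) + 1) ^ 12 ≤ ((129 / 128) * (n : ℝ)) ^ 12 := by gcongr
          _ = (129 / 128) ^ 12 * (n : ℝ) ^ 12 := by rw [mul_pow]
          _ ≤ 2 * (n : ℝ) ^ 12 := by
              gcongr
              norm_num
      exact_mod_cast h2
    calc (n + 1) ^ 12 ≤ 2 * n ^ 12 := h1
      _ ≤ 2 * 2 ^ n := Nat.mul_le_mul_left _ ih
      _ = 2 ^ (n + 1) := by ring

lemma big_of_le {h : ℕ} (hh : 10 ^ 8 ≤ h) : Big h :=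
  ⟨hh, pow_twelve_le (by omega)⟩

lemma fact_lower (h : ℕ) : ((h : ℝ) * Real.exp (-1)) ^ h ≤ h.factorial := by
  have h1 := Real.pow_div_factorial_le_exp (h : ℝ) (by positivity) h
  have hf : (0 : ℝ) < h.factorial := by exact_mod_cast h.factorial_pos
  rw [div_le_iff₀ hf] at h1
  have h2 : Real.exp (-1) ^ h = (Real.exp h)⁻¹ := by
    rw [← Real.exp_nat_mul, ← Real.exp_neg]
    congr 1
    ring
  rw [mul_pow, h2, ← div_eq_mul_inv, div_le_iff₀ (Real.exp_pos _)]
  linarith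

lemma fact_upper {h : ℕ} (hh : 1 ≤ h) :
    (h.factorial : ℝ) ≤ Real.exp 1 * h * ((h : ℝ) * Real.exp (-1)) ^ h := by
  induction h, hh using Nat.le_induction with
  | base =>
    simp only [Nat.factorial_one, Nat.cast_one, mul_one, one_mul, pow_one]
    rw [← Real.exp_add]
    norm_num
  | succ n hn ih =>
    have hn0 : (0 : ℝ) < n := by exact_mod_cast hn
    have hE := Real.exp_pos 1
    have hEi := Real.exp_pos (-1)
    have hEE : Real.exp 1 * Real.exp (-1) = 1 := by rw [← Real.exp_add]; norm_num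
    -- `e n^(n+1) ≤ (n+1)^(n+1)`
    have h1 : (n : ℝ) ^ (n + 1) ≤ Real.exp (-1) * ((n : ℝ) + 1) ^ (n + 1) := by
      have h2 : (n : ℝ) ≤ ((n : ℝ) + 1) * (1 - 1 / ((n + 1 : ℕ) : ℝ)) := by
        push_cast
        have : (n : ℝ) + 1 ≠ 0 := by positivity
        field_simp
        linarith
      have h3 := pow_le_exp (h := n + 1) (by omega) (by positivity) (by positivity) h2
      rw [mul_comm]
      exact h3
    rw [Nat.factorial_succ]
    push_cast
    calc ((n : ℝ) + 1) * n.factorial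
        ≤ ((n : ℝ) + 1) * (Real.exp 1 * n * ((n : ℝ) * Real.exp (-1)) ^ n) := by gcongr
      _ = Real.exp 1 * ((n : ℝ) + 1) * Real.exp (-1) ^ n * (n : ℝ) ^ (n + 1) := by
          rw [mul_pow]; ring
      _ ≤ Real.exp 1 * ((n : ℝ) + 1) * Real.exp (-1) ^ n *
            (Real.exp (-1) * ((n : ℝ) + 1) ^ (n + 1)) := by gcongr
      _ = Real.exp 1 * ((n : ℝ) + 1) * (((n : ℝ) + 1) * Real.exp (-1)) ^ (n + 1) := by
          rw [mul_pow]; ring

/-- The limit. -/
theorem limit_of_bounds {s : ℕ → ℝ} {C N : ℕ}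
    (hs : ∀ h, N ≤ h → 1 / ((h : ℝ) ^ C * h.factorial) ≤ s h ∧ s h ≤ 1 / h.factorial) :
    Tendsto (fun h : ℕ => (h : ℝ) * s h ^ ((h : ℝ)⁻¹)) atTop (𝓝 (Real.exp 1)) := by
  -- the correction factor
  have hcorr : Tendsto (fun h : ℕ => (Real.exp 1 * (h : ℝ) ^ (C + 1)) ^ (-(h : ℝ)⁻¹))
      atTop (𝓝 1) := by
    have h1 : Tendsto (fun h : ℕ => (h : ℝ) ^ ((1 : ℝ) / h)) atTop (𝓝 1) :=
      tendsto_rpow_div.comp tendsto_natCast_atTop_atTop
    have h2 : Tendsto (fun h : ℕ => Real.exp (1 * (-(h : ℝ)⁻¹)) *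
        (((h : ℝ) ^ ((1 : ℝ) / h)) ^ (C + 1))⁻¹) atTop (𝓝 (Real.exp (1 * (-0)) *
          ((1 : ℝ) ^ (C + 1))⁻¹)) := by
      refine Tendsto.mul ?_ ((h1.pow _).inv₀ (by norm_num))
      refine (Real.continuous_exp.tendsto _).comp ?_
      exact ((tendsto_inv_atTop_nhds_zero_nat (𝕜 := ℝ)).neg).const_mul 1
    have e : Real.exp (1 * (-0)) * ((1 : ℝ) ^ (C + 1))⁻¹ = 1 := by simp
    rw [e] at h2
    refine h2.congr' ?_
    filter_upwards [eventually_ge_atTop 1] with h hh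
    have hh0 : (0 : ℝ) < h := by exact_mod_cast hh
    rw [Real.mul_rpow (Real.exp_pos 1).le (by positivity), ← Real.exp_mul]
    congr 1
    rw [← Real.rpow_natCast, ← Real.rpow_natCast, ← Real.rpow_neg (by positivity),
      ← Real.rpow_mul hh0.le, ← Real.rpow_mul hh0.le]
    congr 1
    ring
  have hlow : Tendsto (fun h : ℕ => Real.exp 1 *
      (Real.exp 1 * (h : ℝ) ^ (C + 1)) ^ (-(h : ℝ)⁻¹)) atTop (𝓝 (Real.exp 1)) := by
    have := hcorr.const_mul (Real.exp 1)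
    rwa [mul_one] at this
  -- `h ((h e^{-1})^h)^{-1/h} = e`
  have hkey : ∀ h : ℕ, 1 ≤ h →
      (h : ℝ) * ((((h : ℝ) * Real.exp (-1)) ^ h)⁻¹) ^ ((h : ℝ)⁻¹) = Real.exp 1 := by
    intro h hh
    have hh0 : (0 : ℝ) < h := by exact_mod_cast hh
    have hE := Real.exp_pos (-1)
    rw [Real.inv_rpow (by positivity), Real.pow_rpow_inv_natCast (by positivity) (by omega),
      mul_inv, ← mul_assoc, mul_inv_cancel₀ hh0.ne', one_mul, Real.exp_neg, inv_inv]
  refine tendsto_of_tendsto_of_tendsto_of_le_of_le' hlow tendsto_const_nhds ?_ ?_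
  · filter_upwards [eventually_ge_atTop N, eventually_ge_atTop 1] with h hN hh
    have hh0 : (0 : ℝ) < h := by exact_mod_cast hh
    have hf : (0 : ℝ) < h.factorial := by exact_mod_cast h.factorial_pos
    have h1 := (hs h hN).1
    have hE := Real.exp_pos (-1)
    have h2 : (Real.exp 1 * (h : ℝ) ^ (C + 1))⁻¹ * (((h : ℝ) * Real.exp (-1)) ^ h)⁻¹ ≤ s h := by
      refine le_trans ?_ h1
      rw [← mul_inv, one_div]
      refine inv_anti₀ (by positivity) ?_
      calc (h : ℝ) ^ C * h.factorial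
          ≤ (h : ℝ) ^ C * (Real.exp 1 * h * ((h : ℝ) * Real.exp (-1)) ^ h) := by
            have := fact_upper hh
            gcongr
        _ = _ := by ring
    have h3 : (0 : ℝ) ≤ (Real.exp 1 * (h : ℝ) ^ (C + 1))⁻¹ := by positivity
    calc Real.exp 1 * (Real.exp 1 * (h : ℝ) ^ (C + 1)) ^ (-(h : ℝ)⁻¹)
        = ((h : ℝ) * ((((h : ℝ) * Real.exp (-1)) ^ h)⁻¹) ^ ((h : ℝ)⁻¹)) *
            ((Real.exp 1 * (h : ℝ) ^ (C + 1))⁻¹) ^ ((h : ℝ)⁻¹) := by
          rw [hkey h hh, Real.rpow_neg (by positivity), Real.inv_rpow (by positivity)]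
      _ = (h : ℝ) * ((Real.exp 1 * (h : ℝ) ^ (C + 1))⁻¹ *
            (((h : ℝ) * Real.exp (-1)) ^ h)⁻¹) ^ ((h : ℝ)⁻¹) := by
          rw [Real.mul_rpow h3 (by positivity)]
          ring
      _ ≤ (h : ℝ) * s h ^ ((h : ℝ)⁻¹) := by
          refine mul_le_mul_of_nonneg_left ?_ hh0.le
          exact Real.rpow_le_rpow (by positivity) h2 (by positivity)
  · filter_upwards [eventually_ge_atTop N, eventually_ge_atTop 1] with h hN hh
    have hh0 : (0 : ℝ) < h := by exact_mod_cast hh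
    have hf : (0 : ℝ) < h.factorial := by exact_mod_cast h.factorial_pos
    have h1 := (hs h hN).2
    have h0 : 0 ≤ s h := le_trans (by positivity) (hs h hN).1
    have hE := Real.exp_pos (-1)
    have h2 : s h ≤ (((h : ℝ) * Real.exp (-1)) ^ h)⁻¹ := by
      refine h1.trans ?_
      rw [one_div]
      exact inv_anti₀ (by positivity) (fact_lower h)
    calc (h : ℝ) * s h ^ ((h : ℝ)⁻¹)
        ≤ (h : ℝ) * ((((h : ℝ) * Real.exp (-1)) ^ h)⁻¹) ^ ((h : ℝ)⁻¹) := by
          refine mul_le_mul_of_nonneg_left ?_ hh0.le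
          exact Real.rpow_le_rpow h0 h2 (by positivity)
      _ = Real.exp 1 := hkey h hh

end Helper47.Spec
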