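import Mathlib

/-!
# Elementary inequalities for large `h`
-/

open Filter Topology

namespace Helper47.Spec

/-- `h` is large. -/
structure Big (h : ℕ) : Prop where
  ge : 10 ^ 8 ≤ h
  two' : h ^ 12 ≤ 2 ^ h

lemma Big.two {h : ℕ} (hb : Big h) : h ^ 10 ≤ 2 ^ h :=
  (Nat.pow_le_pow_right (by have := hb.ge; omega) (by norm_num)).trans hb.two'

/-- The integer logarithm. -/
def Lg (h : ℕ) : ℕ := Nat.log 2 h + 1

lemma Big.eventually : ∀ᶠ h : ℕ in atTop, Big h := by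
  have h1 : Tendsto (fun n : ℕ => (n : ℝ) ^ 12 / (2 : ℝ) ^ n) atTop (𝓝 0) :=
    tendsto_pow_const_div_const_pow_of_one_lt 12 (by norm_num)
  filter_upwards [h1.eventually (gt_mem_nhds (by norm_num : (0 : ℝ) < 1)),
    eventually_ge_atTop (10 ^ 8)] with h h2 h3
  refine ⟨h3, ?_⟩
  rw [div_lt_one (by positivity)] at h2
  have : ((h ^ 12 : ℕ) : ℝ) ≤ ((2 ^ h : ℕ) : ℝ) := by push_cast; exact h2.le
  exact_mod_cast this

lemma lt_two_pow_Lg (h : ℕ) : h < 2 ^ Lg h := Nat.lt_pow_succ_log_self (by norm_num) h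

lemma two_pow_Lg_le {h : ℕ} (hh : h ≠ 0) : 2 ^ Lg h ≤ 2 * h := by
  unfold Lg
  rw [pow_succ, mul_comm]
  exact Nat.mul_le_mul_left _ (Nat.pow_log_le_self 2 hh)

lemma Big.Lg_le {h : ℕ} (hb : Big h) : 9 * Lg h ≤ h := by
  have h1 := hb.ge
  have h2 : (2 ^ Nat.log 2 h) ^ 10 ≤ 2 ^ h :=
    (Nat.pow_le_pow_left (Nat.pow_log_le_self 2 (by omega)) 10).trans hb.two
  rw [← pow_mul] at h2
  have h3 : Nat.log 2 h * 10 ≤ h := (Nat.pow_le_pow_iff_right (by norm_num)).1 h2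
  unfold Lg
  omega

lemma exp_neg_two_Lg {h : ℕ} (hh : 1 ≤ h) : Real.exp (-(2 * (Lg h : ℝ))) ≤ 1 / (h : ℝ) ^ 2 := by
  have h1 : (h : ℝ) ≤ Real.exp (Lg h) := by
    have h2 : (2 : ℝ) ^ Lg h ≤ Real.exp 1 ^ Lg h := by
      have := Real.exp_one_gt_d9
      gcongr
      linarith
    rw [← Real.exp_nat_mul, mul_one] at h2
    have h3 : (h : ℝ) ≤ (2 : ℝ) ^ Lg h := by exact_mod_cast (lt_two_pow_Lg h).le
    linarith
  have hh0 : (0 : ℝ) < h := by exact_mod_cast hh
  rw [Real.exp_neg, ← one_div]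
  refine one_div_le_one_div_of_le (by positivity) ?_
  have : Real.exp (2 * (Lg h : ℝ)) = Real.exp (Lg h) ^ 2 := by
    rw [← Real.exp_nat_mul]; norm_num
  rw [this]
  gcongr

lemma exp_eight_Lg {h : ℕ} (hh : 1 ≤ h) : Real.exp (8 * (Lg h : ℝ)) ≤ (2 * (h : ℝ)) ^ 12 := by
  have h1 : Real.exp 2 ≤ 8 := by
    have h2 : Real.exp 2 = Real.exp 1 ^ 2 := by rw [← Real.exp_nat_mul]; norm_num
    rw [h2]
    have := Real.exp_one_lt_d9
    have h3 := Real.exp_pos 1
    nlinarith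
  have h2 : Real.exp (8 * (Lg h : ℝ)) = Real.exp 2 ^ (4 * Lg h) := by
    rw [← Real.exp_nat_mul]
    congr 1
    push_cast
    ring
  rw [h2]
  have h3 : (2 : ℝ) ^ Lg h ≤ 2 * h := by exact_mod_cast two_pow_Lg_le (by omega)
  calc Real.exp 2 ^ (4 * Lg h) ≤ (8 : ℝ) ^ (4 * Lg h) := by gcongr
    _ = ((2 : ℝ) ^ Lg h) ^ 12 := by
        rw [← pow_mul]
        have : (8 : ℝ) = 2 ^ 3 := by norm_num
        rw [this, ← pow_mul]
        congr 1
        ring
    _ ≤ _ := by gcongr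

/-- Bounds for `r - (a r / b + 1)`. -/
lemma sub_div_bounds {a b r : ℕ} (hb : 0 < b) (hab : 2 * a ≤ b) (hr : 2 ≤ r) :
    ((r - (a * r / b + 1) : ℕ) : ℝ) ≤ r * (1 - a / b) ∧
      r * (1 - (a : ℝ) / b) - 1 ≤ ((r - (a * r / b + 1) : ℕ) : ℝ) := by
  set q := a * r / b with hq
  have h1 : q * b ≤ a * r := Nat.div_mul_le_self _ _
  have h2 : a * r < q * b + b := Nat.lt_div_mul_add hb
  have h3 : q + 1 ≤ r := by
    have h4 : 2 * q * b ≤ r * b := by nlinarith
    have h5 : 2 * q ≤ r := Nat.le_of_mul_le_mul_right h4 hb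
    omega
  have hbr : (0 : ℝ) < b := by exact_mod_cast hb
  have h1r : (q : ℝ) * b ≤ a * r := by exact_mod_cast h1
  have h2r : (a : ℝ) * r < q * b + b := by exact_mod_cast h2
  have e1 : (a : ℝ) / b * r = a * r / b := by ring
  have h4 : (q : ℝ) ≤ a * r / b := by rw [le_div_iff₀ hbr]; exact h1r
  have h5 : (a : ℝ) * r / b < q + 1 := by rw [div_lt_iff₀ hbr]; linarith
  rw [Nat.cast_sub h3]
  push_cast
  constructor
  · nlinarith
  · nlinarith

/-- Upper bound for powers. -/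
lemma pow_le_exp {h : ℕ} (hh : 1 ≤ h) {x y t : ℝ} (hx : 0 ≤ x) (hy : 0 ≤ y)
    (hxy : x ≤ y * (1 - t / h)) : x ^ h ≤ y ^ h * Real.exp (-t) := by
  have hh0 : (0 : ℝ) < h := by exact_mod_cast hh
  calc x ^ h ≤ (y * Real.exp (-(t / h))) ^ h := by
        refine pow_le_pow_left₀ hx (hxy.trans (mul_le_mul_of_nonneg_left ?_ hy)) h
        exact Real.one_sub_le_exp_neg _
    _ = y ^ h * Real.exp (-t) := by
        rw [mul_pow, ← Real.exp_nat_mul]
        congr 2
        field_simp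

/-- Lower bound for powers. -/
lemma exp_le_pow {x : ℝ} (hx0 : 0 ≤ x) (hx : x ≤ 1 / 2) (n : ℕ) :
    Real.exp (-(2 * (n * x))) ≤ (1 - x) ^ n := by
  have h1 : Real.exp (-(2 * x)) ≤ 1 - x := by
    have h2 : (1 : ℝ) + 2 * x ≤ Real.exp (2 * x) := by
      have := Real.add_one_le_exp (2 * x); linarith
    rw [Real.exp_neg]
    have h3 : 0 < Real.exp (2 * x) := Real.exp_pos _
    rw [inv_le_comm₀ h3 (by linarith)]
    refine le_trans ?_ h2
    rw [inv_le_comm₀ (by linarith) (by linarith)]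
    have h4 : (0 : ℝ) < 1 + 2 * x := by linarith
    rw [inv_le_iff_one_le_mul₀ h4]
    nlinarith
  calc Real.exp (-(2 * (n * x))) = Real.exp (-(2 * x)) ^ n := by
        rw [← Real.exp_nat_mul]; congr 1; ring
    _ ≤ _ := pow_le_pow_left₀ (Real.exp_pos _).le h1 n

/-- The function bounding the small parts. -/
def rsf (h r : ℕ) : ℕ := r - (2 * Lg h * r / h + 1)

/-- The position of the medium part. -/
def rmf (h r : ℕ) : ℕ := if r < 16 * h ^ 2 then r - (3 * r / h + 1) else r - (3 * r / (4 * h) + 1)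

section

variable {h : ℕ} (hb : Big h)

include hb

lemma Big.rsf_bounds {r : ℕ} (hr : 2 ≤ r) :
    ((rsf h r : ℕ) : ℝ) ≤ r * (1 - 2 * Lg h / h) ∧
      r * (1 - 2 * (Lg h : ℝ) / h) - 1 ≤ ((rsf h r : ℕ) : ℝ) := by
  have h1 := hb.ge
  have h2 := hb.Lg_le
  have := sub_div_bounds (a := 2 * Lg h) (b := h) (r := r) (by omega) (by omega) hr
  push_cast at this
  exact this

lemma Big.rmf_bounds1 {r : ℕ} (hr : 2 ≤ r) (hr2 : r < 16 * h ^ 2) :
    ((rmf h r : ℕ) : ℝ) ≤ r * (1 - 3 / h) ∧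
      r * (1 - (3 : ℝ) / h) - 1 ≤ ((rmf h r : ℕ) : ℝ) := by
  have h1 := hb.ge
  unfold rmf
  rw [if_pos hr2]
  have := sub_div_bounds (a := 3) (b := h) (r := r) (by omega) (by omega) hr
  push_cast at this
  exact this

lemma Big.rmf_bounds2 {r : ℕ} (hr : 2 ≤ r) (hr2 : 16 * h ^ 2 ≤ r) :
    ((rmf h r : ℕ) : ℝ) ≤ r * (1 - 3 / (4 * h)) ∧
      r * (1 - (3 : ℝ) / (4 * h)) - 1 ≤ ((rmf h r : ℕ) : ℝ) := by
  have h1 := hb.ge
  unfold rmf
  rw [if_neg (by omega)]
  have := sub_div_bounds (a := 3) (b := 4 * h) (r := r) (by omega) (by omega) hr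
  push_cast at this
  exact this

/-- The first level inequality. -/
lemma Big.L1 {k r : ℕ} (hk : h = k + 2) (hr : 8 * h ^ 2 + h - 1 ≤ r) :
    (8 * h ^ 2) ^ h + k * (rsf h r ^ h + 1) + (rmf h r + 1) ^ h + 2 ≤ r ^ h := by
  have h8 := hb.ge
  have hhr : (10 : ℝ) ^ 8 ≤ h := by exact_mod_cast h8
  have hh0 : (0 : ℝ) < h := by linarith
  have hr8 : 8 * h ^ 2 ≤ r := by omega
  have hrr : 8 * (h : ℝ) ^ 2 ≤ r := by exact_mod_cast hr8
  have hr2 : 2 ≤ r := by nlinarith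
  set A : ℝ := (r : ℝ) ^ h with hA
  have hA2 : (h : ℝ) ^ 2 ≤ A := by
    rw [hA]
    calc (h : ℝ) ^ 2 ≤ (r : ℝ) ^ 2 := by
          gcongr
          nlinarith
      _ ≤ (r : ℝ) ^ h := pow_le_pow_right₀ (by nlinarith) (by omega)
  have hA0 : 0 < A := by rw [hA]; have : (0 : ℝ) < r := by nlinarith
                         positivity
  -- small parts
  have hrs : ((rsf h r : ℕ) : ℝ) ^ h ≤ A * (1 / (h : ℝ) ^ 2) := by
    have h1 := (hb.rsf_bounds hr2).1
    have h2 := pow_le_exp (h := h) (by omega) (x := (rsf h r : ℕ)) (y := r)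
      (t := 2 * Lg h) (by positivity) (by positivity) h1
    refine h2.trans (mul_le_mul_of_nonneg_left (exp_neg_two_Lg (by omega)) hA0.le)
  have hks : (k : ℝ) * (((rsf h r : ℕ) : ℝ) ^ h + 1) + 2 ≤ A * (2 / 10 ^ 8) := by
    have hkh : (k : ℝ) + 2 = h := by rw [hk]; push_cast; ring
    have h1 : (k : ℝ) * ((rsf h r : ℕ) : ℝ) ^ h ≤ A / h := by
      calc (k : ℝ) * ((rsf h r : ℕ) : ℝ) ^ h ≤ h * (A * (1 / (h : ℝ) ^ 2)) := by
            gcongr
            linarith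
        _ = A / h := by field_simp
    have h2 : (h : ℝ) ≤ A / h := by rw [le_div_iff₀ hh0]; nlinarith
    have h3 : A / h ≤ A * (1 / 10 ^ 8) := by
      rw [div_eq_mul_one_div]
      gcongr
    nlinarith
  have goal : (((8 * h ^ 2) ^ h + k * (rsf h r ^ h + 1) + (rmf h r + 1) ^ h + 2 : ℕ) : ℝ) ≤
      ((r ^ h : ℕ) : ℝ) := by
    push_cast
    rw [← hA]
    rcases lt_or_ge r (16 * h ^ 2) with hlt | hge
    · -- first regime
      have hg : (8 * (h : ℝ) ^ 2) ^ h * (112 / 100) ≤ A := by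
        have h1 : 8 * (h : ℝ) ^ 2 * (1 + (h - 1) / (8 * h ^ 2)) ≤ r := by
          have h2 : 8 * (h : ℝ) ^ 2 + (h - 1) ≤ r := by
            have : 8 * h ^ 2 + h ≤ r + 1 := by omega
            have h3 : 8 * (h : ℝ) ^ 2 + h ≤ r + 1 := by exact_mod_cast this
            linarith
          refine le_trans (le_of_eq ?_) h2
          field_simp
        have h3 : (0 : ℝ) ≤ ((h : ℝ) - 1) / (8 * h ^ 2) := by
          apply div_nonneg <;> nlinarith
        have h4 := one_add_mul_le_pow (a := ((h : ℝ) - 1) / (8 * h ^ 2)) (by linarith) h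
        have h5 : (12 / 100 : ℝ) ≤ h * (((h : ℝ) - 1) / (8 * h ^ 2)) := by
          have : (h : ℝ) * (((h : ℝ) - 1) / (8 * h ^ 2)) = (h - 1) / (8 * h) := by
            field_simp
          rw [this, le_div_iff₀ (by positivity)]
          linarith
        calc (8 * (h : ℝ) ^ 2) ^ h * (112 / 100)
            ≤ (8 * (h : ℝ) ^ 2) ^ h * (1 + (h - 1) / (8 * h ^ 2)) ^ h := by
              gcongr
              linarith
          _ = (8 * (h : ℝ) ^ 2 * (1 + (h - 1) / (8 * h ^ 2))) ^ h := (mul_pow _ _ _).symm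
          _ ≤ A := by
              rw [hA]
              gcongr
      have hm : ((rmf h r : ℕ) + 1 : ℝ) ^ h ≤ A * (1 / 14) := by
        have h1 := (hb.rmf_bounds1 hr2 hlt).1
        have h2 : ((rmf h r : ℕ) + 1 : ℝ) ≤ r * (1 - (29 / 10) / h) := by
          have h3 : (1 : ℝ) ≤ r * ((1 / 10) / h) := by
            rw [← mul_div_assoc, le_div_iff₀ hh0]
            nlinarith
          have h4 : (r : ℝ) * (1 - 3 / h) + r * ((1 / 10) / h) = r * (1 - (29 / 10) / h) := by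
            ring
          linarith
        have h3 := pow_le_exp (h := h) (by omega) (by positivity) (by positivity) h2
        refine h3.trans ?_
        have h4 : Real.exp (-(29 / 10)) ≤ 1 / 14 := by
          rw [Real.exp_neg, ← one_div]
          refine one_div_le_one_div_of_le (by norm_num) ?_
          have e1 : Real.exp (29 / 10) = Real.exp 1 ^ 2 * Real.exp (9 / 10) := by
            rw [← Real.exp_nat_mul, ← Real.exp_add]
            norm_num
          rw [e1]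
          have h5 := Real.exp_one_gt_d9
          have h6 := Real.add_one_le_exp (9 / 10)
          nlinarith
        exact mul_le_mul_of_nonneg_left h4 hA0.le
      linarith
    · -- second regime
      have hg : (8 * (h : ℝ) ^ 2) ^ h * 100 ≤ A := by
        have hge' : 16 * (h : ℝ) ^ 2 ≤ r := by exact_mod_cast hge
        calc (8 * (h : ℝ) ^ 2) ^ h * 100 ≤ (8 * (h : ℝ) ^ 2) ^ h * 2 ^ h := by
              gcongr
              calc (100 : ℝ) ≤ 2 ^ 10 := by norm_num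
                _ ≤ 2 ^ h := pow_le_pow_right₀ (by norm_num) (by omega)
          _ = (16 * (h : ℝ) ^ 2) ^ h := by rw [← mul_pow]; congr 1; ring
          _ ≤ A := by rw [hA]; gcongr
      have hm : ((rmf h r : ℕ) + 1 : ℝ) ^ h ≤ A * (10 / 17) := by
        have h1 := (hb.rmf_bounds2 hr2 hge).1
        have h2 : ((rmf h r : ℕ) + 1 : ℝ) ≤ r * (1 - (7 / 10) / h) := by
          have h3 : (1 : ℝ) ≤ r * ((1 / 20) / h) := by
            rw [← mul_div_assoc, le_div_iff₀ hh0]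
            nlinarith
          have h4 : (r : ℝ) * (1 - 3 / (4 * h)) + r * ((1 / 20) / h) =
              r * (1 - (7 / 10) / h) := by
            field_simp
            ring
          linarith
        have h3 := pow_le_exp (h := h) (by omega) (by positivity) (by positivity) h2
        refine h3.trans ?_
        have h4 : Real.exp (-(7 / 10)) ≤ 10 / 17 := by
          rw [Real.exp_neg]
          have h6 := Real.add_one_le_exp (7 / 10)
          rw [inv_le_comm₀ (Real.exp_pos _) (by norm_num)]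
          norm_num
          linarith
        exact mul_le_mul_of_nonneg_left h4 hA0.le
      linarith
  exact_mod_cast goal

/-- The second level inequality. -/
lemma Big.L2 {c₀ c₂ r : ℕ} (hc : 100 * h * c₂ ≤ 8 * h ^ 2 * c₀) (hc0 : 0 < c₀)
    (hr : 8 * h ^ 2 ≤ r)
    (hr2 : r < 8 * h ^ 2 * (8 * h ^ 2 + h)) :
    c₀ ^ h * (r + 1) ^ h ≤ (8 * h ^ 2 * (8 * h ^ 2 * c₀ - c₂)) ^ h + c₀ ^ h * rmf h r ^ h := by
  have h8 := hb.ge
  have hhr : (10 : ℝ) ^ 8 ≤ h := by exact_mod_cast h8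
  have hh0 : (0 : ℝ) < h := by linarith
  have hc0r : (0 : ℝ) < c₀ := by exact_mod_cast hc0
  have hr2' : 2 ≤ r := by nlinarith
  have hcr : 100 * (h : ℝ) * c₂ ≤ 8 * h ^ 2 * c₀ := by exact_mod_cast hc
  have hc2le : c₂ ≤ 8 * h ^ 2 * c₀ := by
    refine le_trans ?_ hc
    exact Nat.le_mul_of_pos_left _ (by omega)
  -- `(g c₁)^h ≥ 0.99 (g² c₀)^h`
  have hG : (99 / 100 : ℝ) * ((8 * (h : ℝ) ^ 2) ^ 2 * c₀) ^ h ≤
      (8 * (h : ℝ) ^ 2 * (8 * h ^ 2 * c₀ - c₂)) ^ h := by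
    set ε : ℝ := (c₂ : ℝ) / (8 * h ^ 2 * c₀) with hε
    have hε0 : 0 ≤ ε := by rw [hε]; positivity
    have hε1 : (h : ℝ) * ε ≤ 1 / 100 := by
      rw [hε, ← mul_div_assoc, div_le_iff₀ (by positivity)]
      linarith
    have hε2 : ε ≤ 1 := by nlinarith
    have h1 := one_add_mul_le_pow (a := -ε) (by linarith) h
    have h2 : 8 * (h : ℝ) ^ 2 * (8 * h ^ 2 * c₀ - c₂) =
        ((8 * (h : ℝ) ^ 2) ^ 2 * c₀) * (1 + -ε) := by
      rw [hε]; field_simp; ring
    rw [h2, mul_pow ((8 * (h : ℝ) ^ 2) ^ 2 * c₀), mul_comm]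
    have h3 : 0 ≤ ((8 * (h : ℝ) ^ 2) ^ 2 * c₀) ^ h := by positivity
    refine mul_le_mul_of_nonneg_left ?_ h3
    linarith
  have goal : ((c₀ ^ h * (r + 1) ^ h : ℕ) : ℝ) ≤
      (((8 * h ^ 2 * (8 * h ^ 2 * c₀ - c₂)) ^ h + c₀ ^ h * rmf h r ^ h : ℕ) : ℝ) := by
    rw [Nat.cast_add, Nat.cast_pow, Nat.cast_mul (8 * h ^ 2), Nat.cast_sub hc2le]
    push_cast
    rcases lt_or_ge r (16 * h ^ 2) with hlt | hge
    · have h1 : ((r : ℝ) + 1) ≤ 16 * h ^ 2 := by exact_mod_cast hlt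
      have h2 : (c₀ : ℝ) ^ h * ((r : ℝ) + 1) ^ h ≤
          (99 / 100 : ℝ) * ((8 * (h : ℝ) ^ 2) ^ 2 * c₀) ^ h := by
        calc (c₀ : ℝ) ^ h * ((r : ℝ) + 1) ^ h ≤ (c₀ : ℝ) ^ h * (16 * (h : ℝ) ^ 2) ^ h := by gcongr
          _ = (16 * (h : ℝ) ^ 2 * c₀) ^ h := by rw [← mul_pow]; congr 1; ring
          _ = (1 / 2 : ℝ) ^ h * (32 * (h : ℝ) ^ 2 * c₀) ^ h := by
              rw [← mul_pow]; congr 1; ring
          _ ≤ (99 / 100) * ((8 * (h : ℝ) ^ 2) ^ 2 * c₀) ^ h := by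
              have h3 : (1 / 2 : ℝ) ^ h ≤ 99 / 100 := by
                calc (1 / 2 : ℝ) ^ h ≤ (1 / 2) ^ 1 :=
                      pow_le_pow_of_le_one (by norm_num) (by norm_num) (by omega)
                  _ ≤ _ := by norm_num
              have h4 : 32 * (h : ℝ) ^ 2 * c₀ ≤ (8 * (h : ℝ) ^ 2) ^ 2 * c₀ := by
                refine mul_le_mul_of_nonneg_right ?_ hc0r.le
                have h5 : (1 : ℝ) ≤ (h : ℝ) ^ 2 := one_le_pow₀ (by linarith)
                have h6 : (8 * (h : ℝ) ^ 2) ^ 2 - 32 * (h : ℝ) ^ 2 =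
                    32 * (h : ℝ) ^ 2 * (2 * (h : ℝ) ^ 2 - 1) := by ring
                have h7 : 0 ≤ 32 * (h : ℝ) ^ 2 * (2 * (h : ℝ) ^ 2 - 1) :=
                  mul_nonneg (by positivity) (by linarith)
                linarith
              gcongr
      have h3 : 0 ≤ (c₀ : ℝ) ^ h * ((rmf h r : ℕ) : ℝ) ^ h := by positivity
      linarith
    · -- second regime
      have hge' : 16 * (h : ℝ) ^ 2 ≤ r := by exact_mod_cast hge
      have h1 := (hb.rmf_bounds2 hr2' hge).2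
      have h2 : ((r : ℝ) + 1) * (1 + -((76 / 100) / h)) ≤ (rmf h r : ℕ) := by
        have h3 : (2 : ℝ) ≤ (r + 1) * ((1 / 100) / h) := by
          rw [← mul_div_assoc, le_div_iff₀ hh0]
          nlinarith
        have h4 : ((r : ℝ) + 1) * (1 + -((76 / 100) / h)) + (r + 1) * ((1 / 100) / h) =
            (r + 1) * (1 - 3 / (4 * h)) := by
          field_simp
          ring
        have h5 : (0 : ℝ) ≤ 3 / (4 * h) := by positivity
        nlinarith
      have h3 : (24 / 100 : ℝ) * ((r : ℝ) + 1) ^ h ≤ ((rmf h r : ℕ) : ℝ) ^ h := by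
        have h4 := one_add_mul_le_pow (a := -((76 / 100 : ℝ) / h)) (by
          have : (76 / 100 : ℝ) / h ≤ 1 := by rw [div_le_one hh0]; linarith
          linarith) h
        have h5 : (1 : ℝ) + h * -((76 / 100) / h) = 24 / 100 := by field_simp; norm_num
        rw [h5] at h4
        have h6 : (0 : ℝ) ≤ 1 + -((76 / 100) / h) := by
          have : (76 / 100 : ℝ) / h ≤ 1 := by rw [div_le_one hh0]; linarith
          linarith
        calc (24 / 100 : ℝ) * ((r : ℝ) + 1) ^ h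
            ≤ (1 + -((76 / 100) / (h : ℝ))) ^ h * ((r : ℝ) + 1) ^ h := by gcongr
          _ = (((r : ℝ) + 1) * (1 + -((76 / 100) / h))) ^ h := by rw [mul_pow]; ring
          _ ≤ _ := by gcongr
      have h4 : ((r : ℝ) + 1) ^ h ≤ (8 / 7) * ((8 * (h : ℝ) ^ 2) ^ 2) ^ h := by
        have h5 : ((r : ℝ) + 1) ≤ (8 * (h : ℝ) ^ 2) ^ 2 * (1 - (-(1 / 8)) / h) := by
          have h6 : ((r : ℝ) + 1) ≤ 8 * h ^ 2 * (8 * h ^ 2 + h) := by exact_mod_cast hr2
          refine h6.trans (le_of_eq ?_)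
          field_simp
          ring
        have h6 := pow_le_exp (h := h) (by omega) (by positivity) (by positivity) h5
        refine h6.trans ?_
        have h7 : Real.exp (-(-(1 / 8))) ≤ 8 / 7 := by
          rw [neg_neg]
          have h8 := Real.one_sub_le_exp_neg (1 / 8)
          rw [Real.exp_neg] at h8
          have h9 := Real.exp_pos (1 / 8)
          rw [le_inv_comm₀ (by norm_num) h9] at h8
          norm_num at h8 ⊢
          exact h8
        rw [mul_comm]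
        gcongr
      have h5 : (c₀ : ℝ) ^ h * ((r : ℝ) + 1) ^ h ≤
          (8 / 7) * ((8 * (h : ℝ) ^ 2) ^ 2 * c₀) ^ h := by
        calc (c₀ : ℝ) ^ h * ((r : ℝ) + 1) ^ h
            ≤ (c₀ : ℝ) ^ h * ((8 / 7) * ((8 * (h : ℝ) ^ 2) ^ 2) ^ h) := by gcongr
          _ = _ := by rw [mul_pow _ (c₀ : ℝ)]; ring
      have h6 : (24 / 100 : ℝ) * ((c₀ : ℝ) ^ h * ((r : ℝ) + 1) ^ h) ≤
          (c₀ : ℝ) ^ h * ((rmf h r : ℕ) : ℝ) ^ h := by
        have := mul_le_mul_of_nonneg_left h3 (by positivity : (0 : ℝ) ≤ (c₀ : ℝ) ^ h)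
        linarith
      have h7 : 0 ≤ ((8 * (h : ℝ) ^ 2) ^ 2 * c₀) ^ h := by positivity
      linarith
  exact_mod_cast goal

end

end Helper47.Spec
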