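import Pool.Agent.Helper47.Spec.Stage3

/-!
# Estimates for the failure rate
-/

open Finset

namespace Helper47.Spec

lemma card_fin_Ico (n a b : ℕ) :
    ((univ : Finset (Fin n)).filter (fun i : Fin n => a ≤ (i : ℕ) ∧ (i : ℕ) < b)).card =
      min n b - a := by
  rw [← card_map Fin.valEmbedding]
  have : (((univ : Finset (Fin n)).filter (fun i : Fin n => a ≤ (i : ℕ) ∧ (i : ℕ) < b)).map
      Fin.valEmbedding) = Ico a (min n b) := by
    ext x
    simp only [mem_map, mem_filter, mem_univ, true_and, Fin.valEmbedding_apply, mem_Ico,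
      lt_min_iff]
    constructor
    · rintro ⟨i, ⟨h1, h2⟩, rfl⟩
      exact ⟨h1, i.2, h2⟩
    · rintro ⟨h1, h2, h3⟩
      exact ⟨⟨x, h2⟩, ⟨h1, h3⟩, rfl⟩
  rw [this, Nat.card_Ico]

namespace Par

variable {P : Par}

lemma card_cellsS_false (r : ℕ) :
    (P.cellsS false r).card = min P.nc (P.rs r * P.c₀ - P.c₀) := by
  have h1 : P.cellsS false r = (univ : Finset (Fin P.nc)).filter
      (fun i : Fin P.nc => 0 ≤ (i : ℕ) ∧ (i : ℕ) < P.rs r * P.c₀ - P.c₀) := by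
    unfold cellsS cv
    refine filter_congr fun i _ => ?_
    simp only [mu, cond_false, one_mul]
    omega
  rw [h1, card_fin_Ico, Nat.sub_zero]

lemma card_cellsS_true (hg : 1 ≤ P.g) (r : ℕ) :
    (P.cellsS true r).card = min P.nc (P.rs r * P.c₃ - P.c₀) := by
  have h1 : P.cellsS true r = (univ : Finset (Fin P.nc)).filter
      (fun i : Fin P.nc => 0 ≤ (i : ℕ) ∧ (i : ℕ) < P.rs r * P.c₃ - P.c₀) := by
    unfold cellsS cv
    refine filter_congr fun i _ => ?_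
    simp only [mu, cond_true]
    have h2 : P.rs r * P.c₀ = P.g * (P.rs r * P.c₃) := by unfold c₀; ring
    rw [h2, Nat.mul_le_mul_left_iff hg]
    omega
  rw [h1, card_fin_Ico, Nat.sub_zero]

lemma card_cellsM_false {r : ℕ} (he : P.em r = false) :
    (P.cellsM r).card = min P.nc ((P.rm r + 1) * P.c₀ - P.c₀) - (P.rm r * P.c₀ - P.c₀) := by
  have h1 : P.cellsM r = (univ : Finset (Fin P.nc)).filter
      (fun i : Fin P.nc => P.rm r * P.c₀ - P.c₀ ≤ (i : ℕ) ∧ (i : ℕ) < (P.rm r + 1) * P.c₀ - P.c₀) := by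
    unfold cellsM cv
    refine filter_congr fun i _ => ?_
    rw [he]
    simp only [mu, cond_false, one_mul]
    omega
  rw [h1, card_fin_Ico]

lemma card_cellsM_true (hg : 1 ≤ P.g) {r : ℕ} (he : P.em r = true) :
    (P.cellsM r).card = min P.nc ((P.rm r + 1) * P.c₃ - P.c₀) - (P.rm r * P.c₃ - P.c₀) := by
  have h1 : P.cellsM r = (univ : Finset (Fin P.nc)).filter
      (fun i : Fin P.nc => P.rm r * P.c₃ - P.c₀ ≤ (i : ℕ) ∧ (i : ℕ) < (P.rm r + 1) * P.c₃ - P.c₀) := by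
    unfold cellsM cv
    refine filter_congr fun i _ => ?_
    rw [he]
    simp only [mu, cond_true]
    have h2 : P.rm r * P.c₀ = P.g * (P.rm r * P.c₃) := by unfold c₀; ring
    have h3 : (P.rm r + 1) * P.c₀ = P.g * ((P.rm r + 1) * P.c₃) := by unfold c₀; ring
    rw [h2, h3, Nat.mul_le_mul_left_iff hg, Nat.mul_le_mul_left_iff hg]
    omega
  rw [h1, card_fin_Ico]

/-- Many small parts. -/
lemma card_SS_ge (hP : P.Num) (u : ℕ) {r : ℕ} (hrs : P.rs r + 1 ≤ P.g ^ 2) :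
    P.h * u * ((P.rs r - 2) * P.c₀) ≤ (P.SS u r).card := by
  have hg := hP.hg
  have hg2 := hP.hg2
  have hc2 := hP.hc₂
  have hc30 : P.c₃ ≤ P.c₀ := by unfold c₀; exact Nat.le_mul_of_pos_left _ hg
  rw [card_SS, card_cellsS_false, card_cellsS_true hg]
  by_cases hlt : P.rs r < P.g
  · have h1 : min P.nc (P.rs r * P.c₀ - P.c₀) = P.rs r * P.c₀ - P.c₀ := by
      refine min_eq_right ?_
      unfold nc c₁
      have h2 : (P.rs r + 1) * P.c₀ ≤ P.g * P.c₀ := Nat.mul_le_mul_right _ hlt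
      rw [add_mul, one_mul] at h2
      omega
    rw [h1]
    have h2 : (P.rs r - 2) * P.c₀ ≤ P.rs r * P.c₀ - P.c₀ := by
      rw [← Nat.sub_one_mul]
      exact Nat.mul_le_mul_right _ (by omega)
    calc P.h * u * ((P.rs r - 2) * P.c₀) ≤ P.h * u * (P.rs r * P.c₀ - P.c₀) :=
          Nat.mul_le_mul_left _ h2
      _ = (P.rs r * P.c₀ - P.c₀) * (P.h * u) := by ring
      _ ≤ _ := Nat.le_add_right _ _
  · push Not at hlt
    have h1 : min P.nc (P.rs r * P.c₀ - P.c₀) = P.nc := by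
      refine min_eq_left ?_
      unfold nc c₁
      have h2 : P.g * P.c₀ ≤ P.rs r * P.c₀ := Nat.mul_le_mul_right _ hlt
      omega
    have h3 : (P.rs r + 1) * P.c₃ ≤ P.g ^ 2 * P.c₃ := Nat.mul_le_mul_right _ hrs
    have h4 : P.g ^ 2 * P.c₃ = P.g * P.c₀ := by unfold c₀; ring
    rw [h4, add_mul, one_mul] at h3
    have h2 : min P.nc (P.rs r * P.c₃ - P.c₀) = P.rs r * P.c₃ - P.c₀ := by
      refine min_eq_right ?_
      unfold nc c₁
      omega
    rw [h1, h2]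
    have h5 : (P.rs r * P.c₃ - P.c₀) * P.g = P.rs r * P.c₀ - P.g * P.c₀ := by
      rw [Nat.sub_mul]
      congr 1
      · unfold c₀; ring
      · ring
    have h6 : (P.rs r - 2) * P.c₀ ≤ P.nc + (P.rs r * P.c₀ - P.g * P.c₀) := by
      unfold nc c₁
      have h7 : P.g * P.c₀ ≤ P.rs r * P.c₀ := Nat.mul_le_mul_right _ hlt
      have h8 : 2 * P.c₀ ≤ P.g * P.c₀ := Nat.mul_le_mul_right _ hg2
      rw [Nat.sub_mul]
      omega
    calc P.h * u * ((P.rs r - 2) * P.c₀)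
        ≤ P.h * u * (P.nc + (P.rs r * P.c₀ - P.g * P.c₀)) := Nat.mul_le_mul_left _ h6
      _ = P.nc * (P.h * u) + (P.rs r * P.c₀ - P.g * P.c₀) * (P.h * u) := by ring
      _ = P.nc * (P.h * u) + (P.rs r * P.c₃ - P.c₀) * P.g * (P.h * u) := by rw [h5]
      _ = _ := by ring

/-- Not too many small parts. -/
lemma card_SS_le (hP : P.Num) (u r : ℕ) :
    (P.SS u r).card ≤ 2 * P.g ^ 2 * P.h * P.c₀ * u := by
  have hg := hP.hg
  rw [card_SS]
  have hnc : P.nc ≤ P.g * P.c₀ := by unfold nc c₁; omega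
  have h1 : (P.cellsS false r).card ≤ P.g * P.c₀ := by
    rw [card_cellsS_false]; exact (min_le_left _ _).trans hnc
  have h2 : (P.cellsS true r).card ≤ P.g * P.c₀ := by
    rw [card_cellsS_true hg]; exact (min_le_left _ _).trans hnc
  calc (P.cellsS false r).card * (P.h * u) + (P.cellsS true r).card * (P.h * (P.g * u))
      ≤ P.g * P.c₀ * (P.h * (P.g * u)) + P.g * P.c₀ * (P.h * (P.g * u)) := by
        gcongr
        exact Nat.le_mul_of_pos_left _ hg
    _ = _ := by ring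

/-- Many medium cells. -/
lemma card_cellsM_ge (hP : P.Num) {r : ℕ} (hrm1 : 1 ≤ P.rm r) (hrm2 : P.rm r + 2 ≤ P.g ^ 2) :
    P.c₀ - P.c₂ ≤ P.mu (P.em r) * (P.cellsM r).card := by
  have hg := hP.hg
  have hg2 := hP.hg2
  have hc2 := hP.hc₂
  have hc30 : P.c₃ ≤ P.c₀ := by unfold c₀; exact Nat.le_mul_of_pos_left _ hg
  cases he : P.em r with
  | false =>
    rw [card_cellsM_false he]
    simp only [mu, cond_false, one_mul]
    have hlt : P.rm r < P.g := by
      unfold em at he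
      simpa using he
    have h2 : (P.rm r + 1) * P.c₀ ≤ P.g * P.c₀ := Nat.mul_le_mul_right _ hlt
    have h3 : P.c₀ ≤ P.rm r * P.c₀ := Nat.le_mul_of_pos_left _ hrm1
    rw [add_mul, one_mul] at h2 ⊢
    unfold nc c₁
    rcases le_total (P.g * P.c₀ - P.c₂ - P.c₀) (P.rm r * P.c₀ + P.c₀ - P.c₀) with h4 | h4
    · rw [min_eq_left h4]
      omega
    · rw [min_eq_right h4]
      omega
  | true =>
    rw [card_cellsM_true hg he]
    simp only [mu, cond_true]
    have hge : P.g ≤ P.rm r := by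
      unfold em at he
      simpa using he
    have h3 : (P.rm r + 2) * P.c₃ ≤ P.g ^ 2 * P.c₃ := Nat.mul_le_mul_right _ hrm2
    have h4 : P.g ^ 2 * P.c₃ = P.g * P.c₀ := by unfold c₀; ring
    rw [h4, add_mul] at h3
    have h5 : P.c₀ ≤ P.rm r * P.c₃ := by
      unfold c₀; exact Nat.mul_le_mul_right _ hge
    rw [add_mul, one_mul]
    unfold nc c₁
    rw [min_eq_right (by omega)]
    have h6 : P.rm r * P.c₃ + P.c₃ - P.c₀ - (P.rm r * P.c₃ - P.c₀) = P.c₃ := by omega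
    rw [h6]
    have : P.g * P.c₃ = P.c₀ := rfl
    omega

/-- The collision part of the failure rate. -/
lemma coll_rate (hP : P.Num) {u : ℕ} (hu : 1 ≤ u) (r : ℕ) :
    2 * ((P.SY u r).card : ℝ) / P.sg u ≤
      2 * ((2 * P.T * P.g ^ 2 * P.h) ^ P.k * (P.h * P.g) ^ 2 : ℕ) / P.c₀ := by
  have hg := hP.hg
  have hW := hP.hW
  have hc0 : 0 < P.c₀ := Nat.mul_pos hg hP.hc₃
  have h1 : (P.SY u r).card * P.c₀ ≤
      ((2 * P.T * P.g ^ 2 * P.h) ^ P.k * (P.h * P.g) ^ 2) * P.sg u := by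
    rw [card_SY]
    have h2 : P.T.choose P.k ≤ P.T ^ P.k := Nat.choose_le_pow _ _
    have h3 := card_SS_le hP u r
    have h4 := P.mu_le hg (P.em r)
    calc P.T.choose P.k * ((P.SS u r).card ^ P.k *
          ((P.h * (P.mu (P.em r) * u)) * (P.h * (P.g * u)))) * P.c₀
        ≤ P.T ^ P.k * ((2 * P.g ^ 2 * P.h * P.c₀ * u) ^ P.k *
          ((P.h * (P.g * u)) * (P.h * (P.g * u)))) * P.c₀ := by gcongr
      _ = ((2 * P.T * P.g ^ 2 * P.h) ^ P.k * (P.h * P.g) ^ 2) *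
            (u ^ (P.k + 2) * P.c₀ ^ (P.k + 1)) := by
          have : 2 * P.g ^ 2 * P.h * P.c₀ * u = (2 * P.g ^ 2 * P.h) * (P.c₀ * u) := by ring
          rw [this, mul_pow (2 * P.g ^ 2 * P.h), mul_pow P.c₀ u]
          have : 2 * P.T * P.g ^ 2 * P.h = P.T * (2 * P.g ^ 2 * P.h) := by ring
          rw [this, mul_pow P.T]
          ring
      _ ≤ ((2 * P.T * P.g ^ 2 * P.h) ^ P.k * (P.h * P.g) ^ 2) * P.sg u := by
          refine Nat.mul_le_mul_left _ ?_
          unfold sg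
          refine Nat.mul_le_mul ?_ (le_of_eq rfl)
          exact Nat.pow_le_pow_left (Nat.le_mul_of_pos_left _ hW) _
  have hσ : (0 : ℝ) < P.sg u := by
    have : 0 < P.sg u := by unfold sg; positivity
    exact_mod_cast this
  have hc0r : (0 : ℝ) < P.c₀ := by exact_mod_cast hc0
  rw [div_le_div_iff₀ hσ hc0r]
  have h2 : (((P.SY u r).card * P.c₀ : ℕ) : ℝ) ≤
      ((((2 * P.T * P.g ^ 2 * P.h) ^ P.k * (P.h * P.g) ^ 2) * P.sg u : ℕ) : ℝ) := by
    exact_mod_cast h1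
  rw [Nat.cast_mul, Nat.cast_mul _ (P.sg u)] at h2
  nlinarith

/-- The exponent. -/
lemma exponent_ge (hP : P.Num) {u : ℕ} (hu : 1 ≤ u) {r : ℕ} (hrs : P.rs r + 1 ≤ P.g ^ 2)
    (hrm1 : 1 ≤ P.rm r) (hrm2 : P.rm r + 2 ≤ P.g ^ 2) (hc : 2 * P.c₂ ≤ P.c₀) :
    (P.T.choose P.k * P.h ^ (P.k + 1) * (P.rs r - 2) ^ P.k : ℕ) /
      (4 * (P.W : ℝ) ^ P.h * ((r : ℝ) + 2) ^ (P.k + 1)) ≤
      (((P.SY u r).card : ℝ) * (P.cellsM r).card) / (2 * P.BB u r) := by
  have hg := hP.hg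
  have hW := hP.hW
  have hc0 : 0 < P.c₀ := Nat.mul_pos hg hP.hc₃
  have h1 := card_SS_ge hP u hrs
  have h2 := card_cellsM_ge hP hrm1 hrm2
  have hhh : P.c₀ ≤ 2 * (P.mu (P.em r) * (P.cellsM r).card) := by omega
  have hWr : (0 : ℝ) < P.W := by exact_mod_cast hW
  have hur : (0 : ℝ) < u := by exact_mod_cast hu
  have hc0r : (0 : ℝ) < P.c₀ := by exact_mod_cast hc0
  have hgr : (0 : ℝ) < P.g := by exact_mod_cast hg
  have hhr : (0 : ℝ) < P.h := by
    have := h_pos (P := P)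
    exact_mod_cast (by omega : 0 < P.h)
  have hBB : (0 : ℝ) < P.BB u r := by
    have : 0 < P.BB u r := by
      unfold BB
      have := h_pos (P := P)
      positivity
    exact_mod_cast this
  rw [div_le_div_iff₀ (by positivity) (by positivity)]
  have key : P.T.choose P.k * P.h ^ (P.k + 1) * (P.rs r - 2) ^ P.k * (2 * P.BB u r) ≤
      (P.SY u r).card * (P.cellsM r).card * (4 * P.W ^ P.h * (r + 2) ^ (P.k + 1)) := by
    rw [card_SY]
    unfold BB
    have e1 : P.h - 1 = P.k + 1 := rfl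
    rw [e1]
    calc P.T.choose P.k * P.h ^ (P.k + 1) * (P.rs r - 2) ^ P.k *
          (2 * (P.g * P.h * (P.W * u) ^ P.h * ((r + 2) * P.c₀) ^ (P.k + 1)))
        = P.T.choose P.k * ((P.h * u * ((P.rs r - 2) * P.c₀)) ^ P.k *
            (P.h * (P.h * (P.g * u))) * (2 * P.c₀) * u) * (P.W ^ P.h * (r + 2) ^ (P.k + 1)) := by
          have e2 : (P.W * u) ^ P.h = P.W ^ P.h * (u ^ P.k * u * u) := by
            rw [mul_pow]
            congr 1
          rw [e2, mul_pow (r + 2), mul_pow (P.h * u), mul_pow P.h, mul_pow (P.rs r - 2)]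
          ring
      _ ≤ P.T.choose P.k * ((P.SS u r).card ^ P.k *
            (P.h * (P.h * (P.g * u))) * (2 * (2 * (P.mu (P.em r) * (P.cellsM r).card))) * u) *
              (P.W ^ P.h * (r + 2) ^ (P.k + 1)) := by gcongr
      _ = _ := by ring
  have key' : ((P.T.choose P.k * P.h ^ (P.k + 1) * (P.rs r - 2) ^ P.k * (2 * P.BB u r) : ℕ) : ℝ) ≤
      (((P.SY u r).card * (P.cellsM r).card * (4 * P.W ^ P.h * (r + 2) ^ (P.k + 1)) : ℕ) : ℝ) := by
    exact_mod_cast key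
  rw [Nat.cast_mul _ (2 * P.BB u r), Nat.cast_mul ((P.SY u r).card * _)] at key'
  push_cast at key' ⊢
  exact key'

/-- The failure rate is bounded independently of the scale. -/
theorem rate_le (hP : P.Num) {u : ℕ} (hu : 1 ≤ u) {r : ℕ} (hrs : P.rs r + 1 ≤ P.g ^ 2)
    (hrm1 : 1 ≤ P.rm r) (hrm2 : P.rm r + 2 ≤ P.g ^ 2) (hc : 2 * P.c₂ ≤ P.c₀) :
    P.rate u r ≤ 2 * ((2 * P.T * P.g ^ 2 * P.h) ^ P.k * (P.h * P.g) ^ 2 : ℕ) / P.c₀ +
      ((P.D * P.qq) ^ P.h : ℕ) *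
        Real.exp (-((P.T.choose P.k * P.h ^ (P.k + 1) * (P.rs r - 2) ^ P.k : ℕ) /
      (4 * (P.W : ℝ) ^ P.h * ((r : ℝ) + 2) ^ (P.k + 1)))) := by
  unfold rate
  have h1 := coll_rate hP hu r
  have h2 := exponent_ge hP hu hrs hrm1 hrm2 hc
  refine add_le_add h1 (mul_le_mul_of_nonneg_left (Real.exp_le_exp.2 ?_) (by positivity))
  rw [neg_div]
  exact neg_le_neg h2

end Par

end Helper47.Spec
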