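import Pool.Agent.Helper47.Spec.Num1
import Pool.Agent.Helper47.Spec.Dens3
import Pool.Agent.Helper47.Spec.Rate

/-!
# The choice of the parameters
-/

open Finset

namespace Helper47.Spec

/-- The parameters. -/
def par (k W : ℕ) : Par where
  k := k
  g := 8 * (k + 2) ^ 2
  T := (k + 2) ^ 2
  W := W
  c₃ := (k + 2) ^ (10 * (k + 2))
  c₂ := 4 ^ (k + 2)
  rlo := 8 * (k + 2) ^ 2 + (k + 2)
  rs := rsf (k + 2)
  rm := rmf (k + 2)

section

variable {h : ℕ} (hb : Big h)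

include hb

lemma Big.ext_nat {W : ℕ} (hW : 1 ≤ W) :
    2 * h * ((h + 2) * (8 * h ^ 2) * (h * (8 * h ^ 2 *
      (2 * (8 * h ^ 2) * (8 * h ^ 2 * h ^ (10 * h)) * W)) ^ (h - 1))) ≤
      (8 * h ^ 2 * h ^ (10 * h) * W) ^ h := by
  have h8 := hb.ge
  set X := 8 * h ^ 2 * h ^ (10 * h) * W with hX
  have e1 : 8 * h ^ 2 * (2 * (8 * h ^ 2) * (8 * h ^ 2 * h ^ (10 * h)) * W) =
      (128 * h ^ 4) * X := by rw [hX]; ring
  rw [e1, mul_pow]
  have h1 : 2 * h ^ 2 * (h + 2) * (128 * h ^ 4) ^ (h - 1) ≤ h ^ (10 * h) := by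
    have h2 : 128 * h ^ 4 ≤ h ^ 5 := by
      calc 128 * h ^ 4 ≤ h * h ^ 4 := Nat.mul_le_mul_right _ (by omega)
        _ = h ^ 5 := by ring
    have h3 : 2 * h ^ 2 * (h + 2) ≤ h ^ 4 := by
      have : 2 * (h + 2) ≤ h ^ 2 := by nlinarith
      calc 2 * h ^ 2 * (h + 2) = h ^ 2 * (2 * (h + 2)) := by ring
        _ ≤ h ^ 2 * h ^ 2 := Nat.mul_le_mul_left _ this
        _ = _ := by ring
    calc 2 * h ^ 2 * (h + 2) * (128 * h ^ 4) ^ (h - 1) ≤ h ^ 4 * (h ^ 5) ^ (h - 1) := by gcongr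
      _ = h ^ (4 + 5 * (h - 1)) := by rw [← pow_mul, ← pow_add]
      _ ≤ h ^ (10 * h) := Nat.pow_le_pow_right (by omega) (by omega)
  calc 2 * h * ((h + 2) * (8 * h ^ 2) * (h * ((128 * h ^ 4) ^ (h - 1) * X ^ (h - 1))))
      = 8 * h ^ 2 * (2 * h ^ 2 * (h + 2) * (128 * h ^ 4) ^ (h - 1)) * 1 * X ^ (h - 1) := by ring
    _ ≤ 8 * h ^ 2 * h ^ (10 * h) * W * X ^ (h - 1) := by gcongr
    _ = X ^ (h - 1 + 1) := by rw [pow_succ' X]
    _ = X ^ h := by congr 1; omega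

lemma Big.Q_le : 8 * h ^ 2 * (2 * h ^ 2 + 1) ≤ h ^ 5 := by
  have h8 := hb.ge
  have h1 : 8 * (2 * h ^ 2 + 1) ≤ h ^ 3 := by
    have h2 : 1 ≤ h ^ 2 := Nat.one_le_pow _ _ (by omega)
    calc 8 * (2 * h ^ 2 + 1) ≤ 24 * h ^ 2 := by omega
      _ ≤ h * h ^ 2 := Nat.mul_le_mul_right _ (by omega)
      _ = h ^ 3 := by ring
  calc 8 * h ^ 2 * (2 * h ^ 2 + 1) = h ^ 2 * (8 * (2 * h ^ 2 + 1)) := by ring
    _ ≤ h ^ 2 * h ^ 3 := Nat.mul_le_mul_left _ h1
    _ = _ := by ring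

lemma Big.ind_nat {W : ℕ} (hW : 1 ≤ W) :
    2 * (h * ((8 * h ^ 2 * (2 * h ^ 2 + 1)) ^ h * ((h + 1) * (8 * h ^ 2)))) <
      2 * (8 * h ^ 2) * (8 * h ^ 2 * h ^ (10 * h)) * W := by
  have h8 := hb.ge
  have h1 := Nat.pow_le_pow_left hb.Q_le h
  have h2 : (h ^ 5) ^ h ≤ h ^ (10 * h) := by
    rw [← pow_mul]; exact Nat.pow_le_pow_right (by omega) (by omega)
  have h3 : h * (h + 1) < 8 * h ^ 2 := by nlinarith
  have h4 : 0 < h ^ (10 * h) := by positivity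
  calc 2 * (h * ((8 * h ^ 2 * (2 * h ^ 2 + 1)) ^ h * ((h + 1) * (8 * h ^ 2))))
      ≤ 2 * (h * (h ^ (10 * h) * ((h + 1) * (8 * h ^ 2)))) :=
        Nat.mul_le_mul_left _ (Nat.mul_le_mul_left _ (Nat.mul_le_mul_right _ (h1.trans h2)))
    _ = (h * (h + 1)) * (2 * (8 * h ^ 2) * h ^ (10 * h)) := by ring
    _ < (8 * h ^ 2) * (2 * (8 * h ^ 2) * h ^ (10 * h)) :=
        Nat.mul_lt_mul_of_pos_right h3 (by positivity)
    _ = 2 * (8 * h ^ 2) * (8 * h ^ 2 * h ^ (10 * h)) * 1 := by ring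
    _ ≤ _ := Nat.mul_le_mul_left _ hW

lemma Big.four_le : 4 ^ h ≤ h ^ (10 * h) := by
  have h8 := hb.ge
  calc 4 ^ h ≤ h ^ h := Nat.pow_le_pow_left (by omega) h
    _ ≤ _ := Nat.pow_le_pow_right (by omega) (by omega)

lemma Big.top_nat {W : ℕ} (hW : 1 ≤ W) :
    (h + 2) * (h * (2 * (8 * h ^ 2) * (8 * h ^ 2 * h ^ (10 * h)) * W) ^ (h - 1)) +
      ((8 * h ^ 2 * (8 * h ^ 2 * h ^ (10 * h)) - 4 ^ h) * W) ^ h ≤
      (8 * h ^ 2 * (8 * h ^ 2 * h ^ (10 * h)) * W) ^ h := by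
  have h8 := hb.ge
  set G := 8 * h ^ 2 * (8 * h ^ 2 * h ^ (10 * h)) with hG
  have hfour : 4 ^ h ≤ G := by
    refine hb.four_le.trans ?_
    rw [hG]
    calc h ^ (10 * h) = 1 * (1 * h ^ (10 * h)) := by ring
      _ ≤ _ := by
        have : 1 ≤ 8 * h ^ 2 := by
          have := Nat.one_le_pow 2 h (by omega)
          omega
        gcongr
  have e1 : 2 * (8 * h ^ 2) * (8 * h ^ 2 * h ^ (10 * h)) * W = 2 * (G * W) := by
    rw [hG]; ring
  rw [e1]
  have h1 : (h + 2) * h * 2 ^ (h - 1) ≤ 4 ^ h := by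
    have h2 : (h + 2) * h ≤ 2 ^ h := by
      refine le_trans ?_ hb.two
      have : h + 2 ≤ h ^ 9 := by
        calc h + 2 ≤ h ^ 2 := by nlinarith
          _ ≤ h ^ 9 := Nat.pow_le_pow_right (by omega) (by norm_num)
      calc (h + 2) * h ≤ h ^ 9 * h := Nat.mul_le_mul_right _ this
        _ = h ^ 10 := by ring
    have h3 : 2 ^ (h - 1) ≤ 2 ^ h := Nat.pow_le_pow_right (by norm_num) (by omega)
    calc (h + 2) * h * 2 ^ (h - 1) ≤ 2 ^ h * 2 ^ h := Nat.mul_le_mul h2 h3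
      _ = 4 ^ h := by rw [← mul_pow]; norm_num
  have hpow : ∀ a : ℕ, a ^ h = a * a ^ (h - 1) := by
    intro a
    rw [← pow_succ']
    congr 1
    omega
  have h2 : (G - 4 ^ h) ^ h + 4 ^ h * G ^ (h - 1) ≤ G ^ h := by
    have h3 : (G - 4 ^ h) ^ (h - 1) ≤ G ^ (h - 1) := Nat.pow_le_pow_left (Nat.sub_le _ _) _
    calc (G - 4 ^ h) ^ h + 4 ^ h * G ^ (h - 1)
        = (G - 4 ^ h) * (G - 4 ^ h) ^ (h - 1) + 4 ^ h * G ^ (h - 1) := by
          rw [hpow (G - 4 ^ h)]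
      _ ≤ (G - 4 ^ h) * G ^ (h - 1) + 4 ^ h * G ^ (h - 1) := by gcongr
      _ = (G - 4 ^ h + 4 ^ h) * G ^ (h - 1) := by ring
      _ = G ^ h := by rw [Nat.sub_add_cancel hfour, ← hpow]
  calc (h + 2) * (h * (2 * (G * W)) ^ (h - 1)) + ((G - 4 ^ h) * W) ^ h
      = ((h + 2) * h * 2 ^ (h - 1)) * (G ^ (h - 1) * W ^ (h - 1)) +
          (G - 4 ^ h) ^ h * W ^ h := by
        rw [mul_pow 2 (G * W), mul_pow G W, mul_pow (G - 4 ^ h) W]; ring
    _ ≤ 4 ^ h * (G ^ (h - 1) * W ^ h) + (G - 4 ^ h) ^ h * W ^ h := by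
        refine Nat.add_le_add (Nat.mul_le_mul h1 (Nat.mul_le_mul_left _ ?_)) le_rfl
        exact Nat.pow_le_pow_right hW (by omega)
    _ = ((G - 4 ^ h) ^ h + 4 ^ h * G ^ (h - 1)) * W ^ h := by ring
    _ ≤ G ^ h * W ^ h := Nat.mul_le_mul_right _ h2
    _ = _ := by rw [← mul_pow]

end

section eqs

variable (k W : ℕ)

lemma par_k : (par k W).k = k := rfl
lemma par_g : (par k W).g = 8 * (k + 2) ^ 2 := rfl
lemma par_T : (par k W).T = (k + 2) ^ 2 := rfl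
lemma par_W : (par k W).W = W := rfl
lemma par_c3 : (par k W).c₃ = (k + 2) ^ (10 * (k + 2)) := rfl
lemma par_c2 : (par k W).c₂ = 4 ^ (k + 2) := rfl
lemma par_rlo : (par k W).rlo = 8 * (k + 2) ^ 2 + (k + 2) := rfl
lemma par_rs : (par k W).rs = rsf (k + 2) := rfl
lemma par_rm : (par k W).rm = rmf (k + 2) := rfl
lemma par_h : (par k W).h = k + 2 := by rw [Par.h, par_k]
lemma par_c0 : (par k W).c₀ = 8 * (k + 2) ^ 2 * (k + 2) ^ (10 * (k + 2)) := by
  rw [Par.c₀, par_g, par_c3]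
lemma par_c1 : (par k W).c₁ =
    8 * (k + 2) ^ 2 * (8 * (k + 2) ^ 2 * (k + 2) ^ (10 * (k + 2))) - 4 ^ (k + 2) := by
  rw [Par.c₁, par_g, par_c0, par_c2]
lemma par_base : (par k W).base =
    2 * (8 * (k + 2) ^ 2) * (8 * (k + 2) ^ 2 * (k + 2) ^ (10 * (k + 2))) * W := by
  rw [Par.base, par_g, par_c0, par_W]
lemma par_Q : (par k W).Q = 8 * (k + 2) ^ 2 * (2 * (k + 2) ^ 2 + 1) := by
  rw [Par.Q, par_g, par_T]

end eqs

/-- The parameters satisfy the numerical hypotheses. -/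
lemma par_numD {k W : ℕ} (hb : Big (k + 2)) (hW : 1 ≤ W) : (par k W).NumD := by
  have h8 := hb.ge
  have hpos : 0 < (k + 2) ^ (10 * (k + 2)) := Nat.pow_pos (by omega)
  have h1 : 1 ≤ (k + 2) ^ 2 := Nat.one_le_pow _ _ (by omega)
  have hA : (par k W).Alg :=
    { hg := by rw [par_g]; omega
      hT := by rw [par_T]; exact h1
      hgT := by
        rw [par_g, par_T]
        generalize (k + 2) ^ 2 = x at h1
        nlinarith }
  have hN : (par k W).Num :=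
    { toAlg := hA
      hg2 := by rw [par_g]; omega
      hW := by rw [par_W]; exact hW
      hc₃ := by rw [par_c3]; exact hpos
      hc₂ := by rw [par_c2, par_c3]; exact hb.four_le
      hrlo := by
        rw [par_rlo, par_g]
        have : k + 2 ≤ (k + 2) ^ 2 := Nat.le_self_pow (by norm_num) _
        omega
      hrlo1 := by rw [par_rlo]; omega
      ext := by
        have := hb.ext_nat hW
        rw [par_h, par_g, par_base, par_c0, par_W]
        exact this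
      ind := by
        have := hb.ind_nat hW
        rw [par_h, par_Q, par_g, par_base]
        exact this
      L1 := by
        intro r hr1 _
        rw [par_rlo] at hr1
        rw [par_h, par_g, par_k, par_rs, par_rm]
        exact hb.L1 rfl hr1
      L2 := by
        intro r hr1 hr2
        rw [par_g, par_rlo] at hr2
        rw [par_rlo] at hr1
        rw [par_h, par_g, par_c0, par_c1, par_rm]
        have h2 := hb.four_le
        refine hb.L2 ?_ ?_ (by omega) hr2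
        · have h3 : 100 * (k + 2) ≤ 8 * (k + 2) ^ 2 * (8 * (k + 2) ^ 2) := by
            have h4 : 100 * (k + 2) ≤ 8 * (k + 2) ^ 2 := by
              rw [sq, ← mul_assoc]
              exact Nat.mul_le_mul_right _ (by omega)
            exact h4.trans (Nat.le_mul_of_pos_right _ (by omega))
          calc 100 * (k + 2) * 4 ^ (k + 2) ≤
              8 * (k + 2) ^ 2 * (8 * (k + 2) ^ 2) * (k + 2) ^ (10 * (k + 2)) :=
                Nat.mul_le_mul h3 h2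
            _ = _ := by rw [mul_assoc]
        · exact Nat.mul_pos (by omega) hpos }
  exact
    { toNum := hN
      top := by
        have := hb.top_nat hW
        rw [par_h, par_base, par_c1, par_g, par_c0, par_W]
        exact this }

end Helper47.Spec
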