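import Pool.Agent.Helper47.Spec.Num2

/-!
# The failure rate for the chosen parameters
-/

open Finset

namespace Helper47.Spec

section

variable {h : ℕ} (hb : Big h)

include hb

lemma Big.rs_le {r : ℕ} (hr2 : r < 8 * h ^ 2 * (8 * h ^ 2 + h)) :
    rsf h r + 1 ≤ (8 * h ^ 2) ^ 2 := by
  have h8 := hb.ge
  unfold rsf
  rcases le_or_gt r ((8 * h ^ 2) ^ 2) with hle | hgt
  · have h1 : 1 ≤ (8 * h ^ 2) ^ 2 := Nat.one_le_pow _ _ (by positivity)
    generalize 2 * Lg h * r / h = q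
    omega
  · -- `r > g²`
    have h1 : 8 * h ^ 2 * h ≤ 2 * Lg h * r / h := by
      rw [Nat.le_div_iff_mul_le (by omega)]
      have h2 : 1 ≤ Lg h := by unfold Lg; omega
      calc 8 * h ^ 2 * h * h = 8 * h ^ 4 := by ring
        _ ≤ 2 * 1 * (8 * h ^ 2) ^ 2 := by
            have : (8 * h ^ 2) ^ 2 = 64 * h ^ 4 := by ring
            rw [this]; omega
        _ ≤ 2 * Lg h * r := by gcongr
    have h3 : 8 * h ^ 2 * (8 * h ^ 2 + h) = (8 * h ^ 2) ^ 2 + 8 * h ^ 2 * h := by ring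
    rw [h3] at hr2
    have h4 : 1 ≤ (8 * h ^ 2) ^ 2 := Nat.one_le_pow _ _ (by positivity)
    omega

lemma Big.rm_ge {r : ℕ} (hr : 8 * h ^ 2 ≤ r) : 1 ≤ rmf h r := by
  have h8 := hb.ge
  have h1 : 1 ≤ h ^ 2 := Nat.one_le_pow _ _ (by omega)
  have h2 : 3 * r / h + 2 ≤ r := by
    have h3 : 3 * r / h ≤ r / 2 := by
      rw [Nat.le_div_iff_mul_le (by norm_num)]
      have := Nat.div_mul_le_self (3 * r) h
      have h4 : 3 * r / h * 2 * h ≤ r * h := by nlinarith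
      exact Nat.le_of_mul_le_mul_right h4 (by omega)
    omega
  unfold rmf
  split_ifs
  · omega
  · have h3 : 3 * r / (4 * h) ≤ 3 * r / h := Nat.div_le_div_left (by omega) (by omega)
    omega

lemma Big.rm_le {r : ℕ} (hr : 8 * h ^ 2 ≤ r) (hr2 : r < 8 * h ^ 2 * (8 * h ^ 2 + h)) :
    rmf h r + 2 ≤ (8 * h ^ 2) ^ 2 := by
  have h8 := hb.ge
  have hh2 : 10 ^ 8 ≤ h ^ 2 := by nlinarith
  have hsq : (8 * h ^ 2) ^ 2 = 8 * h ^ 2 * (8 * h ^ 2) := by ring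
  have hbig : 16 * h ^ 2 + 2 ≤ (8 * h ^ 2) ^ 2 := by
    rw [hsq]
    nlinarith
  unfold rmf
  split_ifs with hlt
  · generalize 3 * r / h = q
    omega
  · push Not at hlt
    rcases lt_or_ge r ((8 * h ^ 2) ^ 2) with h1 | h1
    · have h2 : 1 ≤ 3 * r / (4 * h) := by
        rw [Nat.le_div_iff_mul_le (by omega)]
        nlinarith
      generalize 3 * r / (4 * h) = q at h2
      omega
    · have h2 : 8 * h ^ 2 * h + 1 ≤ 3 * r / (4 * h) := by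
        rw [Nat.le_div_iff_mul_le (by omega)]
        calc (8 * h ^ 2 * h + 1) * (4 * h) = 32 * h ^ 4 + 4 * h := by ring
          _ ≤ 3 * (8 * h ^ 2) ^ 2 := by
              have : (8 * h ^ 2) ^ 2 = 64 * h ^ 4 := by ring
              rw [this]
              have : h ≤ h ^ 4 := Nat.le_self_pow (by norm_num) _
              omega
          _ ≤ 3 * r := Nat.mul_le_mul_left _ h1
      have h3 : 8 * h ^ 2 * (8 * h ^ 2 + h) = (8 * h ^ 2) ^ 2 + 8 * h ^ 2 * h := by ring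
      rw [h3] at hr2
      omega

lemma Big.coll_nat {k : ℕ} (hk : h = k + 2) :
    (2 * h ^ 2 * (8 * h ^ 2) ^ 2 * h) ^ k * (h * (8 * h ^ 2)) ^ 2 ≤ h ^ (8 * h) := by
  have h8 := hb.ge
  have h1 : 2 * h ^ 2 * (8 * h ^ 2) ^ 2 * h ≤ h ^ 8 := by
    calc 2 * h ^ 2 * (8 * h ^ 2) ^ 2 * h = 128 * h ^ 7 := by ring
      _ ≤ h * h ^ 7 := Nat.mul_le_mul_right _ (by omega)
      _ = h ^ 8 := by ring
  have h2 : (h * (8 * h ^ 2)) ^ 2 ≤ h ^ 16 := by
    calc (h * (8 * h ^ 2)) ^ 2 = 64 * h ^ 6 := by ring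
      _ ≤ h * h ^ 6 := Nat.mul_le_mul_right _ (by omega)
      _ = h ^ 7 := by ring
      _ ≤ h ^ 16 := Nat.pow_le_pow_right (by omega) (by norm_num)
  calc (2 * h ^ 2 * (8 * h ^ 2) ^ 2 * h) ^ k * (h * (8 * h ^ 2)) ^ 2 ≤ (h ^ 8) ^ k * h ^ 16 := by
        gcongr
    _ = h ^ (8 * h) := by
        rw [← pow_mul, ← pow_add]
        congr 1
        omega

/-- Bound for the size of the net. -/
lemma Big.net_nat {W : ℕ} (hW : W ≤ h ^ 4) :
    (DD h (8 * h ^ 2 * (2 * h ^ 2 + 1)) * ((8 * h ^ 2) ^ h *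
      (2 * (8 * h ^ 2) * (8 * h ^ 2 * h ^ (10 * h)) * W) *
      (h * UU h (8 * h ^ 2 * (2 * h ^ 2 + 1))))) ^ h ≤ h ^ (11 * h ^ 8) := by
  have h8 := hb.ge
  have hh1 : 1 ≤ h := by omega
  set Q := 8 * h ^ 2 * (2 * h ^ 2 + 1) with hQ
  have hQ5 : Q ≤ h ^ 5 := hb.Q_le
  have hQ1 : 1 ≤ Q := by
    rw [hQ]
    exact Nat.mul_pos (by positivity) (by omega)
  have hfac : Q.factorial ≤ h ^ (5 * h ^ 5) := by
    calc Q.factorial ≤ Q ^ Q := Nat.factorial_le_pow Q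
      _ ≤ (h ^ 5) ^ Q := Nat.pow_le_pow_left hQ5 _
      _ ≤ (h ^ 5) ^ (h ^ 5) := Nat.pow_le_pow_right (by positivity) hQ5
      _ = _ := by rw [← pow_mul]
  have hD : DD h Q ≤ h ^ (5 * h ^ 7) := by
    unfold DD
    calc Q.factorial ^ (h * h) ≤ (h ^ (5 * h ^ 5)) ^ (h * h) := Nat.pow_le_pow_left hfac _
      _ = h ^ (5 * h ^ 7) := by rw [← pow_mul]; congr 1; ring
  have hU : UU h Q ≤ h ^ (5 * h ^ 7 + h + 5 * h ^ 2) := by
    unfold UU
    have h1 : h.factorial ≤ h ^ h := Nat.factorial_le_pow h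
    have h2 : (Q ^ h) ^ h ≤ h ^ (5 * h ^ 2) := by
      calc (Q ^ h) ^ h ≤ ((h ^ 5) ^ h) ^ h :=
            Nat.pow_le_pow_left (Nat.pow_le_pow_left hQ5 _) _
        _ = h ^ (5 * h ^ 2) := by rw [← pow_mul, ← pow_mul]; congr 1; ring
    calc DD h Q * (h.factorial * (Q ^ h) ^ h) ≤
        h ^ (5 * h ^ 7) * (h ^ h * h ^ (5 * h ^ 2)) := by gcongr
      _ = _ := by rw [← pow_add, ← pow_add]; congr 1; ring
  have hg : 8 * h ^ 2 ≤ h ^ 3 := by
    calc 8 * h ^ 2 ≤ h * h ^ 2 := Nat.mul_le_mul_right _ (by omega)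
      _ = h ^ 3 := by ring
  have hbase : 2 * (8 * h ^ 2) * (8 * h ^ 2 * h ^ (10 * h)) * W ≤ h ^ (10 * h + 11) := by
    calc 2 * (8 * h ^ 2) * (8 * h ^ 2 * h ^ (10 * h)) * W
        ≤ h * h ^ 3 * (h ^ 3 * h ^ (10 * h)) * h ^ 4 := by
          gcongr
          omega
      _ = h ^ (10 * h + 11) := by ring
  have hmain : DD h Q * ((8 * h ^ 2) ^ h *
      (2 * (8 * h ^ 2) * (8 * h ^ 2 * h ^ (10 * h)) * W) * (h * UU h Q)) ≤ h ^ (11 * h ^ 7) := by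
    calc DD h Q * ((8 * h ^ 2) ^ h *
          (2 * (8 * h ^ 2) * (8 * h ^ 2 * h ^ (10 * h)) * W) * (h * UU h Q))
        ≤ h ^ (5 * h ^ 7) * ((h ^ 3) ^ h * h ^ (10 * h + 11) *
            (h * h ^ (5 * h ^ 7 + h + 5 * h ^ 2))) := by gcongr
      _ = h ^ (10 * h ^ 7 + 5 * h ^ 2 + 14 * h + 12) := by
          rw [← pow_mul, ← pow_succ', ← pow_add, ← pow_add, ← pow_add]
          congr 1
          ring
      _ ≤ h ^ (11 * h ^ 7) := by
          refine Nat.pow_le_pow_right hh1 ?_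
          have h1 : h ^ 2 ≤ h ^ 6 := Nat.pow_le_pow_right hh1 (by norm_num)
          have h2 : h ≤ h ^ 6 := Nat.le_self_pow (by norm_num) _
          have h3 : 32 * h ^ 6 ≤ h ^ 7 := by
            calc 32 * h ^ 6 ≤ h * h ^ 6 := Nat.mul_le_mul_right _ (by omega)
              _ = h ^ 7 := by ring
          have h4 : 1 ≤ h ^ 6 := Nat.one_le_pow _ _ hh1
          omega
  calc _ ≤ (h ^ (11 * h ^ 7)) ^ h := Nat.pow_le_pow_left hmain _
    _ = h ^ (11 * h ^ 8) := by rw [← pow_mul]; congr 1; ring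

lemma Big.net_real {W : ℕ} (hW : W ≤ h ^ 4) :
    (((DD h (8 * h ^ 2 * (2 * h ^ 2 + 1)) * ((8 * h ^ 2) ^ h *
      (2 * (8 * h ^ 2) * (8 * h ^ 2 * h ^ (10 * h)) * W) *
      (h * UU h (8 * h ^ 2 * (2 * h ^ 2 + 1))))) ^ h : ℕ) : ℝ) ≤ Real.exp ((h : ℝ) ^ 9) := by
  have h8 := hb.ge
  have h1 : (h : ℝ) ^ 11 ≤ Real.exp h := by
    have h2 : h ^ 11 ≤ 2 ^ h :=
      (Nat.pow_le_pow_right (by omega) (by norm_num)).trans hb.two'
    have h3 : (h : ℝ) ^ 11 ≤ (2 : ℝ) ^ h := by exact_mod_cast h2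
    have h4 : (2 : ℝ) ^ h ≤ Real.exp 1 ^ h := by
      have := Real.exp_one_gt_d9
      gcongr
      linarith
    rw [← Real.exp_nat_mul, mul_one] at h4
    linarith
  calc _ ≤ ((h ^ (11 * h ^ 8) : ℕ) : ℝ) := by exact_mod_cast hb.net_nat hW
    _ = ((h : ℝ) ^ 11) ^ (h ^ 8) := by push_cast; rw [pow_mul]
    _ ≤ Real.exp h ^ (h ^ 8) := by gcongr
    _ = Real.exp ((h : ℝ) ^ 9) := by
        rw [← Real.exp_nat_mul]
        congr 1
        push_cast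
        ring

/-- The exponent is large. -/
lemma Big.exponent {k W r : ℕ} (hk : h = k + 2) (hW1 : 1 ≤ W)
    (hW : h.factorial * h ^ 32 * W ^ h ≤ ((h ^ 2 + 2) * (h + 2)) ^ h)
    (hr1 : 8 * h ^ 2 ≤ r) (hr2 : r < 8 * h ^ 2 * (8 * h ^ 2 + h)) :
    2 * (h : ℝ) ^ 9 ≤ ((h ^ 2).choose k * h ^ (k + 1) * (rsf h r - 2) ^ k : ℕ) /
      (4 * (W : ℝ) ^ h * ((r : ℝ) + 2) ^ (k + 1)) := by
  have h8 := hb.ge
  have hhr : (10 : ℝ) ^ 8 ≤ h := by exact_mod_cast h8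
  have hh0 : (0 : ℝ) < h := by linarith
  have hr1r : 8 * (h : ℝ) ^ 2 ≤ r := by exact_mod_cast hr1
  have hr0 : (0 : ℝ) < r := by nlinarith
  have hWr : (0 : ℝ) < W := by exact_mod_cast hW1
  have hr2' : 2 ≤ r := by nlinarith
  set L : ℝ := (Lg h : ℝ) with hL
  have hL9 : 9 * L ≤ h := by rw [hL]; exact_mod_cast hb.Lg_le
  have hL4 : 4 ≤ L := by
    have h1 : h < 2 ^ Lg h := lt_two_pow_Lg h
    have h2 : 4 ≤ Lg h := by
      by_contra hcon
      push Not at hcon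
      have : 2 ^ Lg h ≤ 2 ^ 4 := Nat.pow_le_pow_right (by norm_num) (by omega)
      omega
    rw [hL]; exact_mod_cast h2
  set S : ℝ := ((h : ℝ) ^ 2 + 2) * (h + 2) with hS
  have hS0 : 0 < S := by rw [hS]; positivity
  have hkf : (0 : ℝ) < k.factorial := by exact_mod_cast k.factorial_pos
  -- the binomial coefficient
  have hch : ((h : ℝ) ^ 2 - h) ^ k ≤ ((h ^ 2).choose k : ℝ) * k.factorial := by
    have h1 := Nat.pow_le_choose (α := ℝ) k (h ^ 2)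
    rw [div_le_iff₀ hkf] at h1
    refine le_trans (pow_le_pow_left₀ ?_ ?_ k) h1
    · nlinarith
    · have h2 : k ≤ h ^ 2 + 1 := by nlinarith
      rw [Nat.cast_sub h2]
      push_cast
      have : (k : ℝ) ≤ h := by rw [hk]; push_cast; linarith
      linarith
  -- the small parts
  have hrs : ((r : ℝ) + 2) * (1 - 3 * L / h) ≤ ((rsf h r - 2 : ℕ) : ℝ) := by
    have h1 := (hb.rsf_bounds hr2').2
    rw [← hL] at h1
    have h2 : ((rsf h r : ℕ) : ℝ) - 2 ≤ ((rsf h r - 2 : ℕ) : ℝ) := by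
      have := Nat.sub_add_cancel (n := rsf h r) (m := 2)
      rcases le_or_gt 2 (rsf h r) with h3 | h3
      · rw [Nat.cast_sub h3]; push_cast; linarith
      · have h4 : rsf h r - 2 = 0 := by omega
        rw [h4]
        have h5 : ((rsf h r : ℕ) : ℝ) < 2 := by exact_mod_cast h3
        push_cast
        linarith
    have h3 : (5 : ℝ) ≤ (r + 2) * (L / h) := by
      rw [← mul_div_assoc, le_div_iff₀ hh0]
      nlinarith
    have h4 : 0 ≤ L / h := by positivity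
    have e1 : ((r : ℝ) + 2) * (1 - 3 * L / h) =
        r * (1 - 2 * L / h) - 1 - 2 + (5 - (r + 2) * (L / h)) - 4 * (L / h) := by
      field_simp
      ring
    linarith
  have hx0 : (0 : ℝ) ≤ 1 - 3 * L / h := by
    have : 3 * L / h ≤ 1 := by rw [div_le_one hh0]; linarith
    linarith
  -- the ratio
  have hratio : S * (1 - 4 * L / h) ≤ ((h : ℝ) ^ 2 - h) * h * (1 - 3 * L / h) := by
    have h1 : S * (1 - 4 / h) ≤ ((h : ℝ) ^ 2 - h) * h := by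
      have e1 : S * (1 - 4 / h) = (h : ℝ) ^ 3 - 2 * h ^ 2 - 6 * h - 4 - 16 / h := by
        rw [hS]; field_simp; ring
      rw [e1]
      have : 0 ≤ 16 / (h : ℝ) := by positivity
      nlinarith
    have h2 : (1 - 4 * L / h : ℝ) ≤ (1 - 4 / h) * (1 - 3 * L / h) := by
      have e1 : (1 - 4 / (h : ℝ)) * (1 - 3 * L / h) = 1 - 4 * L / h + (L - 4) / h +
          12 * L / h ^ 2 := by
        field_simp; ring
      rw [e1]
      have h3 : 0 ≤ (L - 4) / h := div_nonneg (by linarith) hh0.le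
      have h4 : 0 ≤ 12 * L / (h : ℝ) ^ 2 := by positivity
      linarith
    calc S * (1 - 4 * L / h) ≤ S * ((1 - 4 / h) * (1 - 3 * L / h)) :=
          mul_le_mul_of_nonneg_left h2 hS0.le
      _ = (S * (1 - 4 / h)) * (1 - 3 * L / h) := by ring
      _ ≤ _ := mul_le_mul_of_nonneg_right h1 hx0
  have hy0 : (0 : ℝ) ≤ 4 * L / h := by positivity
  have hy1 : 4 * L / (h : ℝ) ≤ 1 / 2 := by
    rw [div_le_iff₀ hh0]; linarith
  have hpow : ((2 * (h : ℝ)) ^ 12)⁻¹ ≤ (1 - 4 * L / h) ^ k := by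
    have h1 := exp_le_pow hy0 hy1 h
    have h2 : (2 : ℝ) * (h * (4 * L / h)) = 8 * L := by field_simp; ring
    rw [h2, Real.exp_neg] at h1
    have h3 := exp_eight_Lg (h := h) (by omega)
    rw [← hL] at h3
    calc ((2 * (h : ℝ)) ^ 12)⁻¹ ≤ (Real.exp (8 * L))⁻¹ :=
          inv_anti₀ (Real.exp_pos _) h3
      _ ≤ (1 - 4 * L / h) ^ h := h1
      _ ≤ (1 - 4 * L / h) ^ k :=
          pow_le_pow_of_le_one (by linarith) (by linarith) (by omega)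
  -- `W`
  have hWk : (k.factorial : ℝ) * (h : ℝ) ^ 32 * (W : ℝ) ^ h ≤ S ^ h := by
    have h1 : k.factorial ≤ h.factorial := Nat.factorial_le (by omega)
    have h2 : ((h.factorial * h ^ 32 * W ^ h : ℕ) : ℝ) ≤ ((((h ^ 2 + 2) * (h + 2)) ^ h : ℕ) : ℝ) := by
      exact_mod_cast hW
    push_cast at h2
    rw [← hS] at h2
    refine le_trans ?_ h2
    have h3 : (k.factorial : ℝ) ≤ h.factorial := by exact_mod_cast h1
    gcongr
  rw [le_div_iff₀ (by positivity)]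
  -- multiply by `k! h^32`
  have hkey : 2 * (h : ℝ) ^ 9 * (4 * (W : ℝ) ^ h * ((r : ℝ) + 2) ^ (k + 1)) *
      (k.factorial * (h : ℝ) ^ 32) ≤
      ((h ^ 2).choose k * h ^ (k + 1) * (rsf h r - 2) ^ k : ℕ) *
        (k.factorial * (h : ℝ) ^ 32) := by
    have hlhs : 2 * (h : ℝ) ^ 9 * (4 * (W : ℝ) ^ h * ((r : ℝ) + 2) ^ (k + 1)) *
      (k.factorial * (h : ℝ) ^ 32) ≤ 8 * (h : ℝ) ^ 9 * S ^ h * ((r : ℝ) + 2) ^ (k + 1) := by
      calc _ = 8 * (h : ℝ) ^ 9 * (k.factorial * (h : ℝ) ^ 32 * (W : ℝ) ^ h) *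
            ((r : ℝ) + 2) ^ (k + 1) := by ring
        _ ≤ _ := by gcongr
    have hrhs : (h : ℝ) ^ 33 * ((r : ℝ) + 2) ^ k * (S ^ k * ((2 * (h : ℝ)) ^ 12)⁻¹) ≤
        ((h ^ 2).choose k * h ^ (k + 1) * (rsf h r - 2) ^ k : ℕ) *
        (k.factorial * (h : ℝ) ^ 32) := by
      push_cast
      have h1 : (((r : ℝ) + 2) * (1 - 3 * L / h)) ^ k ≤ ((rsf h r - 2 : ℕ) : ℝ) ^ k := by
        gcongr
      have h2 : (S * (1 - 4 * L / h)) ^ k ≤ (((h : ℝ) ^ 2 - h) * h * (1 - 3 * L / h)) ^ k := by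
        have : (0 : ℝ) ≤ 1 - 4 * L / h := by linarith
        gcongr
      have h3 : (0 : ℝ) ≤ (h : ℝ) ^ 2 - h := by nlinarith
      calc (h : ℝ) ^ 33 * ((r : ℝ) + 2) ^ k * (S ^ k * ((2 * (h : ℝ)) ^ 12)⁻¹)
          ≤ (h : ℝ) ^ 33 * ((r : ℝ) + 2) ^ k * (S ^ k * (1 - 4 * L / h) ^ k) := by gcongr
        _ = (h : ℝ) ^ 33 * ((r : ℝ) + 2) ^ k * (S * (1 - 4 * L / h)) ^ k := by
            rw [mul_pow S]
        _ ≤ (h : ℝ) ^ 33 * ((r : ℝ) + 2) ^ k *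
              (((h : ℝ) ^ 2 - h) * h * (1 - 3 * L / h)) ^ k := by gcongr
        _ = ((h : ℝ) ^ 2 - h) ^ k * (h : ℝ) ^ (k + 1) *
              (((r : ℝ) + 2) * (1 - 3 * L / h)) ^ k * (h : ℝ) ^ 32 := by
            rw [mul_pow _ (1 - 3 * L / (h : ℝ)), mul_pow _ (h : ℝ),
              mul_pow _ (1 - 3 * L / (h : ℝ))]
            ring
        _ ≤ (((h ^ 2).choose k : ℝ) * k.factorial) * (h : ℝ) ^ (k + 1) *
              ((rsf h r - 2 : ℕ) : ℝ) ^ k * (h : ℝ) ^ 32 := by gcongr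
        _ = _ := by ring
    refine hlhs.trans (le_trans ?_ hrhs)
    have hSk : S ^ h = S ^ k * S ^ 2 := by rw [hk, pow_add]
    have hS2 : S ≤ 2 * (h : ℝ) ^ 3 := by
      rw [hS]
      nlinarith [sq_nonneg (h : ℝ)]
    have hR : (r : ℝ) + 2 ≤ (h : ℝ) ^ 5 := by
      have h1 : r + 2 ≤ h ^ 5 := by
        have h2 : 8 * h ^ 2 * (8 * h ^ 2 + h) + 2 ≤ h ^ 5 := by
          have h3 : h ≤ h ^ 2 := Nat.le_self_pow (by norm_num) _
          have h4 : 1 ≤ h ^ 4 := Nat.one_le_pow _ _ (by omega)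
          calc 8 * h ^ 2 * (8 * h ^ 2 + h) + 2 ≤ 8 * h ^ 2 * (8 * h ^ 2 + h ^ 2) + 2 := by gcongr
            _ = 72 * h ^ 4 + 2 := by ring
            _ ≤ 74 * h ^ 4 := by omega
            _ ≤ h * h ^ 4 := Nat.mul_le_mul_right _ (by omega)
            _ = h ^ 5 := by ring
        omega
      exact_mod_cast h1
    rw [hSk]
    have hfin : 8 * (h : ℝ) ^ 9 * S ^ 2 * ((r : ℝ) + 2) * (2 * (h : ℝ)) ^ 12 ≤ (h : ℝ) ^ 33 := by
      calc 8 * (h : ℝ) ^ 9 * S ^ 2 * ((r : ℝ) + 2) * (2 * (h : ℝ)) ^ 12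
          ≤ 8 * (h : ℝ) ^ 9 * (2 * (h : ℝ) ^ 3) ^ 2 * (h : ℝ) ^ 5 * (2 * (h : ℝ)) ^ 12 := by
            gcongr
        _ = 131072 * (h : ℝ) ^ 32 := by ring
        _ ≤ h * (h : ℝ) ^ 32 := by gcongr; linarith
        _ = (h : ℝ) ^ 33 := by ring
    have h12 : (0 : ℝ) < (2 * (h : ℝ)) ^ 12 := by positivity
    have hfin' : 8 * (h : ℝ) ^ 9 * S ^ 2 * ((r : ℝ) + 2) ≤
        (h : ℝ) ^ 33 * ((2 * (h : ℝ)) ^ 12)⁻¹ := by
      rw [← div_eq_mul_inv, le_div_iff₀ h12]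
      exact hfin
    calc 8 * (h : ℝ) ^ 9 * (S ^ k * S ^ 2) * ((r : ℝ) + 2) ^ (k + 1)
        = (8 * (h : ℝ) ^ 9 * S ^ 2 * ((r : ℝ) + 2)) * (S ^ k * ((r : ℝ) + 2) ^ k) := by ring
      _ ≤ ((h : ℝ) ^ 33 * ((2 * (h : ℝ)) ^ 12)⁻¹) * (S ^ k * ((r : ℝ) + 2) ^ k) := by gcongr
      _ = _ := by ring
  exact le_of_mul_le_mul_right hkey (by positivity)

end

/-- The total failure rate. -/
theorem par_rate {k W : ℕ} (hb : Big (k + 2)) (hW1 : 1 ≤ W) (hW4 : W ≤ (k + 2) ^ 4)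
    (hW : (k + 2).factorial * (k + 2) ^ 32 * W ^ (k + 2) ≤
      (((k + 2) ^ 2 + 2) * ((k + 2) + 2)) ^ (k + 2)) {u : ℕ} (hu : 1 ≤ u) :
    ∑ r ∈ Ico ((par k W).rlo - 1) ((par k W).g * (par k W).rlo), (par k W).rate u r ≤ 1 / 9 := by
  have hP := (par_numD hb hW1).toNum
  have h8 := hb.ge
  have hhr : (10 : ℝ) ^ 8 ≤ ((k + 2 : ℕ) : ℝ) := by exact_mod_cast h8
  set h := k + 2 with hh
  have hh0 : (0 : ℝ) < h := by linarith
  have hone : ∀ r ∈ Ico ((par k W).rlo - 1) ((par k W).g * (par k W).rlo),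
      (par k W).rate u r ≤ 3 / (h : ℝ) ^ 6 := by
    intro r hr
    rw [mem_Ico, par_rlo, par_g] at hr
    rw [← hh] at hr
    have hr1 : 8 * h ^ 2 ≤ r := by omega
    have h1 := Par.rate_le (P := par k W) hP hu (r := r)
      (by rw [par_rs, par_g, ← hh]; exact hb.rs_le hr.2)
      (by rw [par_rm, ← hh]; exact hb.rm_ge hr1)
      (by rw [par_rm, par_g, ← hh]; exact hb.rm_le hr1 hr.2)
      (by
        rw [par_c2, par_c0, ← hh]
        exact Nat.mul_le_mul (by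
          have : 1 ≤ h ^ 2 := Nat.one_le_pow _ _ (by omega)
          omega) hb.four_le)
    refine h1.trans ?_
    have e1 : (((par k W).D * (par k W).qq) ^ (par k W).h : ℕ) =
        (DD h (8 * h ^ 2 * (2 * h ^ 2 + 1)) * ((8 * h ^ 2) ^ h *
          (2 * (8 * h ^ 2) * (8 * h ^ 2 * h ^ (10 * h)) * W) *
          (h * UU h (8 * h ^ 2 * (2 * h ^ 2 + 1))))) ^ h := by
      rw [Par.qq, Par.D, Par.U, par_h, par_Q, par_g, par_base]
    rw [e1, par_T, par_g, par_h, par_k, par_c0, par_rs, par_W, ← hh]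
    have h2 := hb.net_real hW4
    have h3 := hb.exponent (r := r) rfl hW1 hW hr1 hr.2
    have h4 := hb.coll_nat (k := k) rfl
    -- first term
    have hfirst : 2 * ((((2 * h ^ 2 * (8 * h ^ 2) ^ 2 * h) ^ k * (h * (8 * h ^ 2)) ^ 2 : ℕ)) : ℝ) /
        ((8 * h ^ 2 * h ^ (10 * h) : ℕ) : ℝ) ≤ 2 / (h : ℝ) ^ 6 := by
      have h5 : (0 : ℝ) < ((8 * h ^ 2 * h ^ (10 * h) : ℕ) : ℝ) := by positivity
      rw [div_le_div_iff₀ h5 (by positivity)]
      have h6 : (2 * h ^ 2 * (8 * h ^ 2) ^ 2 * h) ^ k * (h * (8 * h ^ 2)) ^ 2 * h ^ 6 ≤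
          8 * h ^ 2 * h ^ (10 * h) := by
        calc (2 * h ^ 2 * (8 * h ^ 2) ^ 2 * h) ^ k * (h * (8 * h ^ 2)) ^ 2 * h ^ 6
            ≤ h ^ (8 * h) * h ^ 6 := Nat.mul_le_mul_right _ h4
          _ = h ^ (8 * h + 6) := by rw [← pow_add]
          _ ≤ h ^ (10 * h) := Nat.pow_le_pow_right (by omega) (by omega)
          _ = 1 * h ^ (10 * h) := by rw [one_mul]
          _ ≤ _ := Nat.mul_le_mul_right _ (by
              have : 1 ≤ h ^ 2 := Nat.one_le_pow _ _ (by omega)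
              omega)
      have h7 : (((2 * h ^ 2 * (8 * h ^ 2) ^ 2 * h) ^ k * (h * (8 * h ^ 2)) ^ 2 * h ^ 6 : ℕ) : ℝ) ≤
          ((8 * h ^ 2 * h ^ (10 * h) : ℕ) : ℝ) := by exact_mod_cast h6
      rw [Nat.cast_mul _ (h ^ 6), Nat.cast_pow h 6] at h7
      linarith
    -- second term
    have hsecond : (((DD h (8 * h ^ 2 * (2 * h ^ 2 + 1)) * ((8 * h ^ 2) ^ h *
          (2 * (8 * h ^ 2) * (8 * h ^ 2 * h ^ (10 * h)) * W) *
          (h * UU h (8 * h ^ 2 * (2 * h ^ 2 + 1))))) ^ h : ℕ) : ℝ) *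
        Real.exp (-((((h ^ 2).choose k * h ^ (k + 1) * (rsf h r - 2) ^ k : ℕ) : ℝ) /
          (4 * (W : ℝ) ^ h * ((r : ℝ) + 2) ^ (k + 1)))) ≤ 1 / (h : ℝ) ^ 6 := by
      calc _ ≤ Real.exp ((h : ℝ) ^ 9) * Real.exp (-(2 * (h : ℝ) ^ 9)) := by
            refine mul_le_mul h2 (Real.exp_le_exp.2 (neg_le_neg h3)) (Real.exp_pos _).le
              (Real.exp_pos _).le
        _ = (Real.exp ((h : ℝ) ^ 9))⁻¹ := by
            rw [← Real.exp_add, ← Real.exp_neg]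
            congr 1
            ring
        _ ≤ ((h : ℝ) ^ 6)⁻¹ := by
            refine inv_anti₀ (by positivity) ?_
            have h5 := Real.add_one_le_exp ((h : ℝ) ^ 9)
            have h6 : (h : ℝ) ^ 6 ≤ (h : ℝ) ^ 9 :=
              pow_le_pow_right₀ (by linarith) (by norm_num)
            linarith
        _ = _ := by rw [one_div]
    have h9 : 2 / (h : ℝ) ^ 6 + 1 / (h : ℝ) ^ 6 = 3 / (h : ℝ) ^ 6 := by ring
    linarith
  calc ∑ r ∈ Ico ((par k W).rlo - 1) ((par k W).g * (par k W).rlo), (par k W).rate u r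
      ≤ ∑ _r ∈ Ico ((par k W).rlo - 1) ((par k W).g * (par k W).rlo), 3 / (h : ℝ) ^ 6 :=
        sum_le_sum hone
    _ = ((Ico ((par k W).rlo - 1) ((par k W).g * (par k W).rlo)).card : ℝ) *
          (3 / (h : ℝ) ^ 6) := by rw [sum_const, nsmul_eq_mul]
    _ ≤ (h : ℝ) ^ 5 * (3 / (h : ℝ) ^ 6) := by
        have h1 : (Ico ((par k W).rlo - 1) ((par k W).g * (par k W).rlo)).card ≤ h ^ 5 := by
          rw [Nat.card_Ico, par_g, par_rlo, ← hh]
          have h3 : h ≤ h ^ 2 := Nat.le_self_pow (by norm_num) _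
          have h4 : 8 * h ^ 2 * (8 * h ^ 2 + h) ≤ h ^ 5 := by
            calc 8 * h ^ 2 * (8 * h ^ 2 + h) ≤ 8 * h ^ 2 * (8 * h ^ 2 + h ^ 2) := by gcongr
              _ = 72 * h ^ 4 := by ring
              _ ≤ h * h ^ 4 := Nat.mul_le_mul_right _ (by omega)
              _ = h ^ 5 := by ring
          omega
        have h2 : ((Ico ((par k W).rlo - 1) ((par k W).g * (par k W).rlo)).card : ℝ) ≤
            (h : ℝ) ^ 5 := by exact_mod_cast h1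
        gcongr
    _ = 3 / h := by field_simp
    _ ≤ 1 / 9 := by
        rw [div_le_div_iff₀ hh0 (by norm_num)]
        linarith

end Helper47.Spec
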