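import Pool.Agent.Helper47.Spec.Num3

/-!
# The density for the chosen parameters, and the existence theorem for large `h`
-/

open Finset Filter Topology

namespace Helper47.Spec

lemma exp_three_le : Real.exp 3 ≤ 21 := by
  have h1 : Real.exp 3 = Real.exp 1 ^ 3 := by rw [← Real.exp_nat_mul]; norm_num
  rw [h1]
  have h2 := Real.exp_one_lt_d9
  have h3 := Real.exp_pos 1
  calc Real.exp 1 ^ 3 ≤ (2.7182818286 : ℝ) ^ 3 := by gcongr
    _ ≤ 21 := by norm_num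

/-- The density. -/
lemma par_dens {k W : ℕ} (hb : Big (k + 2)) (hWh : k + 2 ≤ W)
    (hW1 : (k + 2).factorial * (k + 2) ^ 32 * W ^ (k + 2) ≤
      (((k + 2) ^ 2 + 2) * ((k + 2) + 2)) ^ (k + 2))
    (hW2 : (((k + 2) ^ 2 + 2) * ((k + 2) + 2)) ^ (k + 2) <
      (k + 2).factorial * (k + 2) ^ 32 * (W + 1) ^ (k + 2)) :
    0 < (par k W).dens ∧
      (par k W).dens ^ (k + 2) ≤ ((k + 2).factorial : ℝ) * ((k + 2 : ℕ) : ℝ) ^ 33 := by
  have h8 := hb.ge
  have hhr : (10 : ℝ) ^ 8 ≤ ((k + 2 : ℕ) : ℝ) := by exact_mod_cast h8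
  have hdens : (par k W).dens = ((((k + 2) ^ 2 : ℕ) : ℝ) + 2) *
      ((((k + 2 : ℕ) : ℝ) + 2) / W * (1 - 1 / (2 * ((k + 2 : ℕ) : ℝ)))⁻¹ +
      2 * ((k + 2 : ℕ) : ℝ) / 2 ^ (k + 2 - 1)) := by
    rw [Par.dens, par_T, par_h, par_W]
  rw [hdens]
  clear hdens
  set h := k + 2 with hh
  have hh0 : (0 : ℝ) < h := by linarith
  have hWr : (h : ℝ) ≤ W := by exact_mod_cast hWh
  have hW0 : (0 : ℝ) < W := by linarith
  set S : ℝ := ((h : ℝ) ^ 2 + 2) * (h + 2) with hS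
  have hS0 : 0 < S := by rw [hS]; positivity
  -- `W ≤ S`
  have hWS : (W : ℝ) ≤ S := by
    have h1 : W ^ h ≤ ((h ^ 2 + 2) * (h + 2)) ^ h := by
      refine le_trans ?_ hW1
      exact Nat.le_mul_of_pos_left _ (Nat.mul_pos (Nat.factorial_pos _) (by positivity))
    have h2 : W ≤ (h ^ 2 + 2) * (h + 2) := (Nat.pow_le_pow_iff_left (by omega)).1 h1
    rw [hS]; exact_mod_cast h2
  set M : ℝ := S / W with hM
  have hM1 : 1 ≤ M := by rw [hM, le_div_iff₀ hW0]; linarith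
  have hM0 : 0 < M := by linarith
  -- `M^h ≤ e h! h^32`
  have hMh : M ^ h ≤ Real.exp 1 * ((h.factorial : ℝ) * (h : ℝ) ^ 32) := by
    have h1 : M = S / (W + 1) * (1 + 1 / W) := by
      rw [hM]; field_simp
    have h2 : (S / ((W : ℝ) + 1)) ^ h ≤ (h.factorial : ℝ) * (h : ℝ) ^ 32 := by
      rw [div_pow, div_le_iff₀ (by positivity)]
      have h3 : ((((h ^ 2 + 2) * (h + 2)) ^ h : ℕ) : ℝ) ≤
          ((h.factorial * h ^ 32 * (W + 1) ^ h : ℕ) : ℝ) := by exact_mod_cast hW2.le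
      push_cast at h3
      rw [← hS] at h3
      exact h3
    have h3 : (1 + 1 / (W : ℝ)) ^ h ≤ Real.exp 1 := by
      have h4 : (1 + 1 / (W : ℝ)) ≤ Real.exp (1 / h) := by
        have h5 := Real.add_one_le_exp (1 / (h : ℝ))
        have h6 : 1 / (W : ℝ) ≤ 1 / h := one_div_le_one_div_of_le hh0 hWr
        linarith
      calc (1 + 1 / (W : ℝ)) ^ h ≤ Real.exp (1 / h) ^ h := by gcongr
        _ = Real.exp 1 := by rw [← Real.exp_nat_mul]; congr 1; field_simp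
    rw [h1, mul_pow, mul_comm]
    gcongr
  -- the density
  have hden : (((h ^ 2 : ℕ) : ℝ) + 2) * (((h : ℝ) + 2) / W * (1 - 1 / (2 * (h : ℝ)))⁻¹ +
      2 * (h : ℝ) / 2 ^ (h - 1)) ≤ M * Real.exp (2 / h) := by
    have h1 : (1 - 1 / (2 * (h : ℝ)))⁻¹ ≤ 1 + 1 / h := by
      have h2 : (0 : ℝ) < 1 - 1 / (2 * h) := by
        have : 1 / (2 * (h : ℝ)) < 1 := by rw [div_lt_one (by positivity)]; linarith
        linarith
      rw [inv_le_iff_one_le_mul₀ h2]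
      have e1 : (1 + 1 / (h : ℝ)) * (1 - 1 / (2 * h)) = 1 + (h - 1) / (2 * h ^ 2) := by
        field_simp; ring
      rw [e1]
      have : 0 ≤ ((h : ℝ) - 1) / (2 * h ^ 2) := div_nonneg (by linarith) (by positivity)
      linarith
    have h2 : ((h : ℝ) ^ 2 + 2) * (2 * (h : ℝ) / 2 ^ (h - 1)) ≤ 1 / h := by
      have e1 : (2 : ℝ) ^ h = 2 ^ (h - 1) * 2 := by
        rw [← pow_succ, Nat.sub_add_cancel (by omega)]
      have e2 : 2 * (h : ℝ) / 2 ^ (h - 1) = 4 * h / 2 ^ h := by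
        rw [e1]; field_simp
        try ring
      rw [e2, ← mul_div_assoc, div_le_div_iff₀ (by positivity) hh0, one_mul]
      have h3 : (h : ℝ) ^ 10 ≤ 2 ^ h := by exact_mod_cast hb.two
      refine le_trans ?_ h3
      have h4 : (2 : ℝ) ≤ (h : ℝ) ^ 2 := by
        have h5 : 2 ≤ h ^ 2 := le_trans (by omega : 2 ≤ h) (Nat.le_self_pow (by norm_num) _)
        exact_mod_cast h5
      calc ((h : ℝ) ^ 2 + 2) * (4 * h) * h ≤ ((h : ℝ) ^ 2 + h ^ 2) * (4 * h) * h := by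
            gcongr
        _ = 8 * (h : ℝ) ^ 4 := by ring
        _ ≤ h * (h : ℝ) ^ 4 := by gcongr; linarith
        _ = (h : ℝ) ^ 5 := by ring
        _ ≤ (h : ℝ) ^ 10 := pow_le_pow_right₀ (by linarith) (by norm_num)
    have h3 := Real.add_one_le_exp (2 / (h : ℝ))
    push_cast
    calc ((h : ℝ) ^ 2 + 2) * (((h : ℝ) + 2) / W * (1 - 1 / (2 * (h : ℝ)))⁻¹ +
          2 * (h : ℝ) / 2 ^ (h - 1))
        = M * (1 - 1 / (2 * (h : ℝ)))⁻¹ + ((h : ℝ) ^ 2 + 2) * (2 * (h : ℝ) / 2 ^ (h - 1)) := by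
          rw [hM, hS]; ring
      _ ≤ M * (1 + 1 / h) + M * (1 / h) := by
          refine add_le_add (mul_le_mul_of_nonneg_left h1 hM0.le) (h2.trans ?_)
          exact le_mul_of_one_le_left (by positivity) hM1
      _ = M * (2 / h + 1) := by ring
      _ ≤ _ := mul_le_mul_of_nonneg_left h3 hM0.le
  have hpos : 0 < (((h ^ 2 : ℕ) : ℝ) + 2) * (((h : ℝ) + 2) / W * (1 - 1 / (2 * (h : ℝ)))⁻¹ +
      2 * (h : ℝ) / 2 ^ (h - 1)) := by
    have h2 : (0 : ℝ) < 1 - 1 / (2 * h) := by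
      have : 1 / (2 * (h : ℝ)) < 1 := by rw [div_lt_one (by positivity)]; linarith
      linarith
    positivity
  refine ⟨hpos, ?_⟩
  calc _ ≤ (M * Real.exp (2 / h)) ^ h := pow_le_pow_left₀ hpos.le hden h
    _ = M ^ h * Real.exp 2 := by
        rw [mul_pow, ← Real.exp_nat_mul]
        congr 2
        field_simp
    _ ≤ Real.exp 1 * ((h.factorial : ℝ) * (h : ℝ) ^ 32) * Real.exp 2 := by gcongr
    _ = Real.exp 3 * ((h.factorial : ℝ) * (h : ℝ) ^ 32) := by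
        have : Real.exp 3 = Real.exp 1 * Real.exp 2 := by rw [← Real.exp_add]; norm_num
        rw [this]; ring
    _ ≤ h * ((h.factorial : ℝ) * (h : ℝ) ^ 32) := by
        have := exp_three_le
        gcongr
        linarith
    _ = _ := by ring

/-- The existence theorem for large `h`. -/
theorem exists_basis_of_big {h : ℕ} (hb : Big h) :
    ∃ lam : ℝ, 1 / ((h : ℝ) ^ 33 * h.factorial) ≤ lam ∧ ∃ a : ℕ → ℕ, StrictMono a ∧
      (∀ᶠ n : ℕ in atTop, ∃ f : Fin h → ℕ, ∑ i, a (f i) = n) ∧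
      Tendsto (fun n => (a n : ℝ) / (lam * ((n : ℝ) + 1) ^ h)) atTop (𝓝 1) := by
  have h8 := hb.ge
  obtain ⟨k, rfl⟩ : ∃ k, h = k + 2 := ⟨h - 2, by omega⟩
  -- the choice of `W`
  obtain ⟨W, hWa, hWb⟩ : ∃ W, (k + 2).factorial * (k + 2) ^ 32 * W ^ (k + 2) ≤
      (((k + 2) ^ 2 + 2) * ((k + 2) + 2)) ^ (k + 2) ∧
      (((k + 2) ^ 2 + 2) * ((k + 2) + 2)) ^ (k + 2) <
        (k + 2).factorial * (k + 2) ^ 32 * (W + 1) ^ (k + 2) := by
    obtain ⟨W, _, _, h1, h2⟩ := exists_level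
      (fun W => (k + 2).factorial * (k + 2) ^ 32 * W ^ (k + 2))
      (a := 0) (b := ((k + 2) ^ 2 + 2) * ((k + 2) + 2) + 1)
      (n := (((k + 2) ^ 2 + 2) * ((k + 2) + 2)) ^ (k + 2)) (Nat.zero_le _)
      (by
        rw [zero_pow (by omega), mul_zero]
        exact Nat.zero_le _)
      (by
        calc (((k + 2) ^ 2 + 2) * ((k + 2) + 2)) ^ (k + 2)
            < (((k + 2) ^ 2 + 2) * ((k + 2) + 2) + 1) ^ (k + 2) :=
              Nat.pow_lt_pow_left (Nat.lt_succ_self _) (by omega)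
          _ ≤ _ := Nat.le_mul_of_pos_left _ (Nat.mul_pos (Nat.factorial_pos _)
              (Nat.pow_pos (by omega))))
    exact ⟨W, h1, h2⟩
  -- `W ≥ h`
  have hWh : k + 2 ≤ W := by
    by_contra hcon
    push Not at hcon
    have h1 : (k + 2).factorial * (k + 2) ^ 32 * (W + 1) ^ (k + 2) ≤
        (k + 2) ^ (2 * (k + 2) + 32) := by
      calc (k + 2).factorial * (k + 2) ^ 32 * (W + 1) ^ (k + 2)
          ≤ (k + 2) ^ (k + 2) * (k + 2) ^ 32 * (k + 2) ^ (k + 2) := by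
            refine Nat.mul_le_mul (Nat.mul_le_mul_right _ (Nat.factorial_le_pow _))
              (Nat.pow_le_pow_left hcon _)
        _ = _ := by rw [← pow_add, ← pow_add]; congr 1; ring
    have h2 : (k + 2) ^ (3 * (k + 2)) ≤ (((k + 2) ^ 2 + 2) * ((k + 2) + 2)) ^ (k + 2) := by
      rw [pow_mul]
      refine Nat.pow_le_pow_left ?_ _
      calc (k + 2) ^ 3 = (k + 2) ^ 2 * (k + 2) := by ring
        _ ≤ _ := Nat.mul_le_mul (by omega) (by omega)
    have h3 : (k + 2) ^ (3 * (k + 2)) < (k + 2) ^ (2 * (k + 2) + 32) :=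
      lt_of_le_of_lt h2 (lt_of_lt_of_le hWb h1)
    have h4 : 3 * (k + 2) < 2 * (k + 2) + 32 := (Nat.pow_lt_pow_iff_right (by omega)).1 h3
    omega
  -- `W ≤ h^4`
  have hW4 : W ≤ (k + 2) ^ 4 := by
    have h1 : W ^ (k + 2) ≤ (((k + 2) ^ 2 + 2) * ((k + 2) + 2)) ^ (k + 2) := by
      refine le_trans ?_ hWa
      exact Nat.le_mul_of_pos_left _ (Nat.mul_pos (Nat.factorial_pos _)
        (Nat.pow_pos (by omega)))
    have h2 : W ≤ ((k + 2) ^ 2 + 2) * ((k + 2) + 2) := (Nat.pow_le_pow_iff_left (by omega)).1 h1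
    refine h2.trans ?_
    generalize k + 2 = x at h8
    have h3 : 1 ≤ x ^ 2 := Nat.one_le_pow _ _ (by omega)
    calc (x ^ 2 + 2) * (x + 2) ≤ (3 * x ^ 2) * (3 * x) := Nat.mul_le_mul (by omega) (by omega)
      _ = 9 * x ^ 3 := by ring
      _ ≤ x * x ^ 3 := Nat.mul_le_mul_right _ (by omega)
      _ = x ^ 4 := by ring
  have hP := par_numD hb (W := W) (by omega)
  obtain ⟨hd0, hd1⟩ := par_dens hb hWh hWa hWb
  have hU : 0 < (par k W).U := lt_of_lt_of_le Par.D_pos (Par.D_le_U hP.toNum)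
  obtain ⟨a, ha1, ha2, ha3⟩ := Par.exists_basis hP ⟨1, fun Δ hΔ => par_rate hb (by omega) hW4 hWa
    (Nat.mul_pos (Nat.mul_pos (by rw [par_h]; omega) hU) hΔ)⟩ hd0
  refine ⟨((par k W).dens ^ (k + 2))⁻¹, ?_, a, ha1, ?_, ?_⟩
  · rw [one_div]
    refine inv_anti₀ (by positivity) ?_
    rw [mul_comm]
    exact hd1
  · exact ha2
  · have e : (par k W).h = k + 2 := par_h k W
    rw [e] at ha3
    exact ha3

end Helper47.Spec
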