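import Mathlib

/-!
# Regularisation

A set whose local counting function is at most `c (y^{1/h} - x^{1/h}) + o(y^{1/h})` is contained
in the range of a strictly increasing sequence `a` with `a n ~ c^{-h} n^h`.
-/

open Filter Finset Topology

namespace Helper47.Spec

/-- The `h`-th root. -/
noncomputable def rt (h : ℕ) (x : ℝ) : ℝ := x ^ ((h : ℝ)⁻¹)

lemma rt_nonneg (h : ℕ) {x : ℝ} (hx : 0 ≤ x) : 0 ≤ rt h x := Real.rpow_nonneg hx _

lemma rt_pow {h : ℕ} (hh : h ≠ 0) {x : ℝ} (hx : 0 ≤ x) : rt h x ^ h = x :=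
  Real.rpow_inv_natCast_pow hx hh

lemma pow_rt {h : ℕ} (hh : h ≠ 0) {x : ℝ} (hx : 0 ≤ x) : rt h (x ^ h) = x :=
  Real.pow_rpow_inv_natCast hx hh

lemma rt_mono {h : ℕ} {x y : ℝ} (hx : 0 ≤ x) (hxy : x ≤ y) : rt h x ≤ rt h y :=
  Real.rpow_le_rpow hx hxy (by positivity)

lemma rt_tendsto {h : ℕ} (hh : h ≠ 0) : Tendsto (fun n : ℕ => rt h n) atTop atTop := by
  have h1 : (0 : ℝ) < (h : ℝ)⁻¹ := by positivity
  exact (tendsto_rpow_atTop h1).comp tendsto_natCast_atTop_atTop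

lemma rt_succ_sub {h : ℕ} (hh : 2 ≤ h) (c : ℝ) (hc : 0 < c) :
    ∀ᶠ n : ℕ in atTop, c * rt h ((n : ℝ) + 1) ≤ c * rt h n + 1 := by
  have hp0 : (0 : ℝ) ≤ (h : ℝ)⁻¹ := by positivity
  have hp1 : (h : ℝ)⁻¹ ≤ 1 := inv_le_one_of_one_le₀ (by exact_mod_cast (by omega : 1 ≤ h))
  -- `n^{1/h - 1} → 0`
  have hlim : Tendsto (fun n : ℕ => (n : ℝ) ^ (-(1 - (h : ℝ)⁻¹))) atTop (𝓝 0) := by
    have : 0 < 1 - (h : ℝ)⁻¹ := by
      have : (h : ℝ)⁻¹ ≤ 2⁻¹ := inv_anti₀ (by norm_num) (by exact_mod_cast hh)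
      norm_num at this ⊢
      linarith
    exact (tendsto_rpow_neg_atTop this).comp tendsto_natCast_atTop_atTop
  have hev : ∀ᶠ n : ℕ in atTop, (n : ℝ) ^ (-(1 - (h : ℝ)⁻¹)) < 1 / c :=
    hlim.eventually (gt_mem_nhds (by positivity))
  filter_upwards [hev, eventually_ge_atTop 1] with n hn hn1
  have hn0 : (0 : ℝ) < n := by exact_mod_cast hn1
  have h1 : rt h ((n : ℝ) + 1) ≤ rt h n + (n : ℝ) ^ (-(1 - (h : ℝ)⁻¹)) := by
    have h2 : (n : ℝ) + 1 = n * (1 + 1 / n) := by field_simp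
    unfold rt
    rw [h2, Real.mul_rpow hn0.le (by positivity)]
    have h3 : (1 + 1 / (n : ℝ)) ^ (h : ℝ)⁻¹ ≤ 1 + (h : ℝ)⁻¹ * (1 / n) :=
      rpow_one_add_le_one_add_mul_self
        (by have : (0 : ℝ) ≤ 1 / n := by positivity
            linarith) hp0 hp1
    have h4 : (n : ℝ) ^ (-(1 - (h : ℝ)⁻¹)) = (n : ℝ) ^ (h : ℝ)⁻¹ * (1 / n) := by
      rw [neg_sub, Real.rpow_sub hn0, Real.rpow_one]; ring
    rw [h4]
    calc (n : ℝ) ^ (h : ℝ)⁻¹ * (1 + 1 / (n : ℝ)) ^ (h : ℝ)⁻¹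
        ≤ (n : ℝ) ^ (h : ℝ)⁻¹ * (1 + (h : ℝ)⁻¹ * (1 / n)) :=
          mul_le_mul_of_nonneg_left h3 (by positivity)
      _ ≤ (n : ℝ) ^ (h : ℝ)⁻¹ * (1 + 1 * (1 / n)) := by gcongr
      _ = _ := by ring
  have h5 : c * (n : ℝ) ^ (-(1 - (h : ℝ)⁻¹)) ≤ 1 := by
    have := hn.le
    rw [le_div_iff₀ hc] at this
    linarith
  nlinarith

section

variable (h : ℕ) (c : ℝ) (A : Set ℕ)

open Classical in
/-- The counting function of the greedy completion. -/
noncomputable def cntB : ℕ → ℕ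
  | 0 => 0
  | n + 1 => cntB n + if (n ∈ A ∨ cntB n < ⌊c * rt h ((n : ℝ) + 1)⌋₊) then 1 else 0

/-- The greedy completion. -/
def comp : Set ℕ := {n | n ∈ A ∨ cntB h c A n < ⌊c * rt h ((n : ℝ) + 1)⌋₊}

open Classical in
lemma cntB_eq (n : ℕ) : cntB h c A n = Nat.count (fun n => n ∈ comp h c A) n := by
  induction n with
  | zero => simp [cntB]
  | succ n ih =>
    rw [Nat.count_succ, ← ih, cntB]
    simp only [comp, Set.mem_ofPred_eq]
    congr

variable {h c A}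

lemma cntB_lower (hh : 2 ≤ h) (hc : 0 < c) :
    ∃ K : ℝ, ∀ᶠ n : ℕ in atTop, c * rt h n - K ≤ cntB h c A n := by
  classical
  obtain ⟨n₁, hn₁⟩ := eventually_atTop.1 (rt_succ_sub hh c hc)
  set f : ℕ → ℕ := fun n => ⌊c * rt h n⌋₊ with hf
  have hfs : ∀ n ≥ n₁, f (n + 1) ≤ f n + 1 := by
    intro n hn
    simp only [hf]
    push_cast
    have h0 : 0 ≤ c * rt h n := mul_nonneg hc.le (rt_nonneg h (by positivity))
    calc ⌊c * rt h ((n : ℝ) + 1)⌋₊ ≤ ⌊c * rt h n + 1⌋₊ := Nat.floor_le_floor (hn₁ n hn)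
      _ = ⌊c * rt h n⌋₊ + 1 := Nat.floor_add_one h0
  have hmain : ∀ n ≥ n₁, f n ≤ cntB h c A n + f n₁ := by
    intro n hn
    induction n, hn using Nat.le_induction with
    | base => omega
    | succ n hn ih =>
      have h1 := hfs n hn
      rw [cntB]
      by_cases hlt : cntB h c A n < f (n + 1)
      · have : (n ∈ A ∨ cntB h c A n < ⌊c * rt h ((n : ℝ) + 1)⌋₊) := by
          right
          simpa [hf] using hlt
        rw [if_pos this]
        omega
      · omega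
  refine ⟨f n₁ + 1, eventually_atTop.2 ⟨n₁, fun n hn => ?_⟩⟩
  have h1 : ((f n : ℕ) : ℝ) ≤ ((cntB h c A n + f n₁ : ℕ) : ℝ) := by exact_mod_cast hmain n hn
  push_cast at h1
  have h2 : c * rt h n < (f n : ℝ) + 1 := Nat.lt_floor_add_one _
  linarith

open Classical in
/-- The local density condition. -/
def LocDens (h : ℕ) (c : ℝ) (A : Set ℕ) : Prop :=
  ∀ ε > 0, ∃ x₀ : ℕ, ∀ x y : ℕ, x₀ ≤ x → x ≤ y →
      (((Ico x y).filter (· ∈ A)).card : ℝ) ≤ c * (rt h y - rt h x) + ε * rt h y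

lemma cntB_upper (hc : 0 < c) (hA : LocDens h c A) :
    ∀ ε > 0, ∃ K : ℝ, ∀ᶠ n : ℕ in atTop, (cntB h c A n : ℝ) ≤ (c + ε) * rt h n + K := by
  classical
  intro ε hε
  obtain ⟨x₀, hx₀⟩ := hA ε hε
  have hmain : ∀ n ≥ x₀, ∃ m, x₀ ≤ m ∧ m ≤ n ∧ (cntB h c A n : ℝ) ≤
      cntB h c A x₀ + c * rt h m + ((Ico m n).filter (· ∈ A)).card := by
    intro n hn
    induction n, hn using Nat.le_induction with
    | base =>
      refine ⟨x₀, le_rfl, le_rfl, ?_⟩
      have : 0 ≤ c * rt h x₀ := mul_nonneg hc.le (rt_nonneg h (by positivity))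
      simp only [Ico_self, filter_empty, card_empty, Nat.cast_zero, add_zero]
      linarith
    | succ n hn ih =>
      by_cases hlt : cntB h c A n < ⌊c * rt h ((n : ℝ) + 1)⌋₊
      · refine ⟨n + 1, by omega, le_rfl, ?_⟩
        have h1 : cntB h c A (n + 1) ≤ ⌊c * rt h ((n : ℝ) + 1)⌋₊ := by
          rw [cntB]
          split_ifs <;> omega
        have h2 : ((⌊c * rt h ((n : ℝ) + 1)⌋₊ : ℕ) : ℝ) ≤ c * rt h ((n : ℝ) + 1) :=
          Nat.floor_le (mul_nonneg hc.le (rt_nonneg h (by positivity)))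
        have h3 : (cntB h c A (n + 1) : ℝ) ≤ ((⌊c * rt h ((n : ℝ) + 1)⌋₊ : ℕ) : ℝ) := by
          exact_mod_cast h1
        push_cast
        simp only [Ico_self, filter_empty, card_empty, Nat.cast_zero, add_zero]
        have : (0 : ℝ) ≤ cntB h c A x₀ := by positivity
        linarith
      · obtain ⟨m, hm1, hm2, hm3⟩ := ih
        refine ⟨m, hm1, by omega, ?_⟩
        have h1 : ((Ico m (n + 1)).filter (· ∈ A)).card =
            ((Ico m n).filter (· ∈ A)).card + if n ∈ A then 1 else 0 := by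
          rw [Nat.Ico_succ_right_eq_insert_Ico hm2, filter_insert]
          split_ifs with hnA
          · rw [card_insert_of_notMem]
            simp
          · simp
        rw [h1, cntB]
        have h2 : (n ∈ A ∨ cntB h c A n < ⌊c * rt h ((n : ℝ) + 1)⌋₊) ↔ n ∈ A := by
          simp [hlt]
        simp only [h2]
        push_cast
        linarith
  refine ⟨cntB h c A x₀, eventually_atTop.2 ⟨x₀, fun n hn => ?_⟩⟩
  obtain ⟨m, hm1, hm2, hm3⟩ := hmain n hn
  have := hx₀ m n hm1 hm2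
  linarith

lemma cntB_tendsto (hh : 2 ≤ h) (hc : 0 < c) (hA : LocDens h c A) :
    Tendsto (fun n : ℕ => (cntB h c A n : ℝ) / rt h n) atTop (𝓝 c) := by
  have hrt := rt_tendsto (h := h) (by omega)
  have hpos : ∀ᶠ n : ℕ in atTop, 0 < rt h n := hrt.eventually_gt_atTop 0
  refine tendsto_order.2 ⟨fun b hb => ?_, fun b hb => ?_⟩
  · obtain ⟨K, hK⟩ := cntB_lower (A := A) hh hc
    filter_upwards [hK, hpos, hrt.eventually_gt_atTop (K / (c - b))] with n h1 h2 h3
    rw [lt_div_iff₀ h2]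
    rw [div_lt_iff₀ (by linarith)] at h3
    linarith
  · obtain ⟨K, hK⟩ := cntB_upper hc hA ((b - c) / 2) (by linarith)
    filter_upwards [hK, hpos, hrt.eventually_gt_atTop (K / ((b - c) / 2))] with n h1 h2 h3
    rw [div_lt_iff₀ h2]
    rw [div_lt_iff₀ (by linarith)] at h3
    linarith

/-- The regularisation lemma. -/
theorem regularize (hh : 2 ≤ h) (hc : 0 < c) (hA : LocDens h c A) :
    ∃ a : ℕ → ℕ, StrictMono a ∧ A ⊆ Set.range a ∧
      Tendsto (fun n => (a n : ℝ) / ((c ^ h)⁻¹ * ((n : ℝ) + 1) ^ h)) atTop (𝓝 1) := by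
  classical
  have hB := cntB_tendsto hh hc hA
  have hrt := rt_tendsto (h := h) (by omega)
  -- the completion is infinite
  have hBtop : Tendsto (fun n : ℕ => (cntB h c A n : ℝ)) atTop atTop := by
    obtain ⟨K, hK⟩ := cntB_lower (A := A) hh hc
    refine tendsto_atTop_mono' _ hK ?_
    exact tendsto_atTop_add_const_right _ _ (hrt.const_mul_atTop hc)
  have hinf : (Set.ofPred (fun n => n ∈ comp h c A)).Infinite := by
    intro hfin
    have hbound : ∀ n, cntB h c A n ≤ hfin.toFinset.card := by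
      intro n
      rw [cntB_eq, Nat.count_eq_card_filter_range]
      refine card_le_card fun x hx => ?_
      rw [Set.Finite.mem_toFinset]
      exact (mem_filter.1 hx).2
    obtain ⟨n, hn⟩ := (hBtop.eventually_gt_atTop ((hfin.toFinset.card : ℕ) : ℝ)).exists
    have : ((cntB h c A n : ℕ) : ℝ) ≤ hfin.toFinset.card := by exact_mod_cast hbound n
    linarith
  set a : ℕ → ℕ := Nat.nth (fun n => n ∈ comp h c A) with ha
  have hmono : StrictMono a := Nat.nth_strictMono hinf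
  refine ⟨a, hmono, ?_, ?_⟩
  · intro x hx
    rw [ha, Nat.range_nth_of_infinite hinf]
    exact Or.inl hx
  · have hcount : ∀ k, cntB h c A (a k) = k := by
      intro k
      rw [cntB_eq]
      exact Nat.count_nth_of_infinite hinf k
    have h1 : Tendsto (fun k : ℕ => (k : ℝ) / rt h (a k)) atTop (𝓝 c) := by
      have := hB.comp hmono.tendsto_atTop
      refine this.congr fun k => ?_
      simp only [Function.comp]
      rw [hcount]
    have h2 : Tendsto (fun k : ℕ => (k : ℝ) ^ h / (a k : ℝ)) atTop (𝓝 (c ^ h)) := by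
      refine (h1.pow h).congr fun k => ?_
      rw [div_pow, rt_pow (by omega) (by positivity)]
    have h3 : Tendsto (fun k : ℕ => ((k : ℝ) ^ h / (a k : ℝ))⁻¹) atTop (𝓝 (c ^ h)⁻¹) :=
      h2.inv₀ (by positivity)
    have h4 : Tendsto (fun k : ℕ => ((k : ℝ) / ((k : ℝ) + 1)) ^ h) atTop (𝓝 (1 ^ h)) :=
      (tendsto_natCast_div_add_atTop (1 : ℝ)).pow h
    have h5 := (h3.mul h4).mul_const (c ^ h)
    have h6 : (c ^ h)⁻¹ * 1 ^ h * c ^ h = 1 := by
      rw [one_pow, mul_one, inv_mul_cancel₀ (by positivity)]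
    rw [h6] at h5
    refine h5.congr' ?_
    filter_upwards [eventually_ge_atTop 1] with k hk
    have hk0 : (0 : ℝ) < k := by exact_mod_cast hk
    have hne : (k : ℝ) ^ h ≠ 0 := by positivity
    have hc' : c ^ h ≠ 0 := by positivity
    have hk1 : ((k : ℝ) + 1) ^ h ≠ 0 := by positivity
    rw [inv_div, div_pow]
    field_simp

end

end Helper47.Spec
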