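import Pool.Agent.Helper47.Spec.Defs
import Pool.Agent.Helper47.Spec.Cover2

/-!
# One stage of the construction
-/

open Finset

namespace Helper47.Spec

namespace Par

variable (P : Par)

/-! ### Splitting `Fin P.h` -/

/-- The first `k` elements of `Fin P.h`. -/
def i0 (i : Fin P.k) : Fin P.h := ⟨i, by unfold h; omega⟩
/-- The element `k` of `Fin P.h`. -/
def i1 : Fin P.h := ⟨P.k, by unfold h; omega⟩
/-- The element `k + 1` of `Fin P.h`. -/
def i2 : Fin P.h := ⟨P.k + 1, by unfold h; omega⟩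

lemma sum_h {β : Type*} [AddCommMonoid β] (G : Fin P.h → β) :
    ∑ i, G i = (∑ i, G (P.i0 i)) + G P.i1 + G P.i2 := by
  have h1 := Fin.sum_univ_castSucc (n := P.k + 1) (fun i => G i)
  have h2 := Fin.sum_univ_castSucc (n := P.k) (fun i => G (Fin.castSucc i))
  exact h1.trans (congrArg (fun x => x + G (Fin.last (P.k + 1))) h2)

/-- Glue. -/
def glue {β : Type*} (f : Fin P.k → β) (a b : β) : Fin P.h → β := fun i =>
  if hi : (i : ℕ) < P.k then f ⟨i, hi⟩ else if (i : ℕ) = P.k then a else b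

@[simp] lemma glue_i0 {β : Type*} (f : Fin P.k → β) (a b : β) (i : Fin P.k) :
    P.glue f a b (P.i0 i) = f i := by
  unfold glue i0
  simp

@[simp] lemma glue_i1 {β : Type*} (f : Fin P.k → β) (a b : β) :
    P.glue f a b P.i1 = a := by
  unfold glue i1
  simp

@[simp] lemma glue_i2 {β : Type*} (f : Fin P.k → β) (a b : β) :
    P.glue f a b P.i2 = b := by
  unfold glue i2
  simp

lemma cases_h (i : Fin P.h) : (∃ j, i = P.i0 j) ∨ i = P.i1 ∨ i = P.i2 := by
  obtain ⟨i, hi⟩ := i
  have hi' : i < P.k + 2 := hi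
  by_cases h1 : i < P.k
  · exact Or.inl ⟨⟨i, h1⟩, rfl⟩
  · by_cases h2 : i = P.k
    · subst h2; exact Or.inr (Or.inl rfl)
    · have h3 : i = P.k + 1 := by omega
      subst h3; exact Or.inr (Or.inr rfl)

lemma forall_h {p : Fin P.h → Prop} (h0 : ∀ j, p (P.i0 j)) (h1 : p P.i1) (h2 : p P.i2) :
    ∀ i, p i := by
  intro i
  rcases P.cases_h i with ⟨j, rfl⟩ | rfl | rfl
  · exact h0 j
  · exact h1
  · exact h2

/-! ### Directions -/

/-- The small directions. -/
def js (i : Fin P.T) : Fin (P.T + 2) := Fin.castAdd 2 i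
/-- The medium direction. -/
def jm : Fin (P.T + 2) := ⟨P.T, by omega⟩
/-- The big direction. -/
def jb : Fin (P.T + 2) := ⟨P.T + 1, by omega⟩

lemma js_inj : Function.Injective P.js := Fin.castAdd_injective _ _

lemma dv_ge (j : Fin (P.T + 2)) : P.T ≤ P.dv j := Nat.le_add_right _ _

lemma dv_le (j : Fin (P.T + 2)) : P.dv j ≤ 2 * P.T + 1 := by
  unfold dv; have := j.2; omega

lemma dv_inj : Function.Injective P.dv := by
  intro i j hij
  unfold dv at hij
  exact Fin.ext (by omega)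

lemma js_ne_jm (i : Fin P.T) : P.js i ≠ P.jm := by
  intro h
  have := congrArg Fin.val h
  simp only [js, jm, Fin.val_castAdd] at this
  have := i.2
  omega

lemma js_ne_jb (i : Fin P.T) : P.js i ≠ P.jb := by
  intro h
  have := congrArg Fin.val h
  simp only [js, jb, Fin.val_castAdd] at this
  have := i.2
  omega

lemma jm_ne_jb : P.jm ≠ P.jb := by
  intro h
  have := congrArg Fin.val h
  simp only [jm, jb] at this
  omega

/-! ### The index sets -/

/-- Core multipliers. -/
def core (u : ℕ) : Finset ℕ := Ico u ((P.h + 1) * u)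

lemma card_core (u : ℕ) : (P.core u).card = P.h * u := by
  unfold core
  rw [Nat.card_Ico, add_mul, one_mul, Nat.add_sub_cancel]

/-- The cells of epoch `e` usable for the small parts at level `r`. -/
def cellsS (e : Bool) (r : ℕ) : Finset (Fin P.nc) :=
  univ.filter (fun i => P.mu e * (P.cv i + 1) ≤ P.rs r * P.c₀)

/-- The small parts at level `r`, epoch `e`. -/
def SSe (u r : ℕ) (e : Bool) : Finset (Bool × Fin P.nc × ℕ) :=
  {e} ×ˢ (P.cellsS e r ×ˢ P.core (P.mu e * u))

/-- The small parts at level `r`. -/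
def SS (u r : ℕ) : Finset (Bool × Fin P.nc × ℕ) :=
  P.SSe u r false ∪ P.SSe u r true

lemma mem_SS {u r : ℕ} {x : Bool × Fin P.nc × ℕ} :
    x ∈ P.SS u r ↔ P.mu x.1 * (P.cv x.2.1 + 1) ≤ P.rs r * P.c₀ ∧
      P.mu x.1 * u ≤ x.2.2 ∧ x.2.2 < (P.h + 1) * (P.mu x.1 * u) := by
  obtain ⟨e, i, l⟩ := x
  unfold SS SSe cellsS core
  cases e <;> simp

lemma card_SS (u r : ℕ) : (P.SS u r).card =
    (P.cellsS false r).card * (P.h * u) + (P.cellsS true r).card * (P.h * (P.g * u)) := by
  unfold SS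
  rw [card_union_of_disjoint]
  · unfold SSe
    simp only [card_product, card_singleton, one_mul, card_core, mu, cond_true, cond_false]
  · rw [disjoint_left]
    rintro ⟨e, i, l⟩ h1 h2
    unfold SSe at h1 h2
    simp only [mem_product, mem_singleton] at h1 h2
    rw [h1.1] at h2
    exact absurd h2.1 (by simp)

/-- The type of the choices other than the medium cell. -/
abbrev Y : Type :=
  {E : Finset (Fin P.T) // E.card = P.k} × (Fin P.k → Bool × Fin P.nc × ℕ) × ℕ × ℕ

/-- The epoch of the medium part. -/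
def em (r : ℕ) : Bool := decide (P.g ≤ P.rm r)

/-- The choices at level `r`. -/
def SY (u r : ℕ) : Finset P.Y :=
  univ ×ˢ ((Fintype.piFinset (fun _ => P.SS u r)) ×ˢ
    (P.core (P.mu (P.em r) * u) ×ˢ P.core (P.g * u)))

lemma card_SY (u r : ℕ) : (P.SY u r).card =
    P.T.choose P.k * ((P.SS u r).card ^ P.k *
      ((P.h * (P.mu (P.em r) * u)) * (P.h * (P.g * u)))) := by
  unfold SY
  rw [card_product, card_product, card_product, card_core, card_core, Fintype.card_piFinset_const,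
    card_univ, Fintype.card_finset_len, Fintype.card_fin]

/-- The direction of the `i`-th small part. -/
def dir (y : P.Y) (i : Fin P.k) : Fin P.T := y.1.1.orderEmbOfFin y.1.2 i

lemma dir_inj (y : P.Y) : Function.Injective (P.dir y) :=
  (y.1.1.orderEmbOfFin y.1.2).injective

/-- The coordinate of the `i`-th small part. -/
def crd (y : P.Y) (i : Fin P.k) : Bool × P.Idx :=
  ((y.2.1 i).1, ((y.2.1 i).2.1, P.js (P.dir y i)))

lemma crd_inj (y : P.Y) : Function.Injective (P.crd y) := by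
  intro i j hij
  have h1 : P.js (P.dir y i) = P.js (P.dir y j) := congrArg (fun x => x.2.2) hij
  exact P.dir_inj y (P.js_inj h1)

/-- The coordinates of the small parts. -/
def al (y : P.Y) : Finset (Bool × P.Idx) := univ.image (P.crd y)

lemma card_al (y : P.Y) : (P.al y).card = P.k := by
  unfold al
  rw [card_image_of_injective _ (P.crd_inj y), card_univ, Fintype.card_fin]

/-- The constant part. -/
def ka (u r : ℕ) (y : P.Y) : ℕ :=
  (∑ i, (y.2.1 i).2.2 * P.dd (P.mu (y.2.1 i).1 * u) (P.dv (P.js (P.dir y i)))) +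
    y.2.2.1 * P.dd (P.mu (P.em r) * u) (P.dv P.jm) + y.2.2.2 * P.dd (P.g * u) (P.dv P.jb)

/-- The medium cells at level `r`. -/
def cellsM (r : ℕ) : Finset (Fin P.nc) :=
  univ.filter (fun i => P.rm r * P.c₀ ≤ P.mu (P.em r) * P.cv i ∧
    P.mu (P.em r) * (P.cv i + 1) ≤ (P.rm r + 1) * P.c₀)

/-- The medium coordinates. -/
def CM (r : ℕ) : Finset (Bool × P.Idx) :=
  (P.cellsM r).image (fun i => (P.em r, (i, P.jm)))

lemma card_CM (r : ℕ) : (P.CM r).card = (P.cellsM r).card := by
  unfold CM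
  rw [card_image_of_injective]
  intro i j hij
  exact congrArg (fun x => x.2.1) hij

/-- The big coordinates. -/
def BG : Finset (Bool × P.Idx) := univ.image (fun i : Fin P.nc => (true, (i, P.jb)))

/-- The possible offsets for a stage. -/
def off2 (u : ℕ) (a : Bool × P.Idx) : Finset ℕ := P.offs (P.mu a.1 * u) a.2

lemma mem_al {y : P.Y} {a : Bool × P.Idx} : a ∈ P.al y ↔ ∃ i, P.crd y i = a := by
  unfold al; simp

lemma al_dir {y : P.Y} {a : Bool × P.Idx} (ha : a ∈ P.al y) : ∃ i, a.2.2 = P.js i := by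
  obtain ⟨i, rfl⟩ := P.mem_al.1 ha
  exact ⟨_, rfl⟩

lemma CM_dir {r : ℕ} {a : Bool × P.Idx} (ha : a ∈ P.CM r) : a.2.2 = P.jm := by
  unfold CM at ha
  obtain ⟨i, _, rfl⟩ := mem_image.1 ha
  rfl

lemma BG_dir {a : Bool × P.Idx} (ha : a ∈ P.BG) : a.2.2 = P.jb := by
  unfold BG at ha
  obtain ⟨i, _, rfl⟩ := mem_image.1 ha
  rfl

lemma al_disj_CM (y : P.Y) (r : ℕ) : Disjoint (P.al y) (P.CM r) := by
  rw [disjoint_left]
  intro a h1 h2
  obtain ⟨i, hi⟩ := P.al_dir h1
  rw [P.CM_dir h2] at hi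
  exact P.js_ne_jm i hi.symm

lemma al_disj_BG (y : P.Y) : Disjoint (P.al y) P.BG := by
  rw [disjoint_left]
  intro a h1 h2
  obtain ⟨i, hi⟩ := P.al_dir h1
  rw [P.BG_dir h2] at hi
  exact P.js_ne_jb i hi.symm

lemma CM_disj_BG (r : ℕ) : Disjoint (P.CM r) P.BG := by
  rw [disjoint_left]
  intro a h1 h2
  exact P.jm_ne_jb ((P.CM_dir h1).symm.trans (P.BG_dir h2))

variable {P}

/-- `al y` determines the directions and the cells. -/
lemma al_determines {y y' : P.Y} (hal : P.al y = P.al y') :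
    y.1 = y'.1 ∧ ∀ i, (y.2.1 i).1 = (y'.2.1 i).1 ∧ (y.2.1 i).2.1 = (y'.2.1 i).2.1 := by
  have hE : ∀ z : P.Y, z.1.1 = univ.filter (fun d => ∃ a ∈ P.al z, a.2.2 = P.js d) := by
    intro z
    ext d
    rw [mem_filter]
    constructor
    · intro hd
      have : d ∈ Set.range (z.1.1.orderEmbOfFin z.1.2) := by
        rw [Finset.range_orderEmbOfFin]; exact hd
      obtain ⟨i, hi⟩ := this
      exact ⟨mem_univ _, P.crd z i, P.mem_al.2 ⟨i, rfl⟩, congrArg P.js hi⟩
    · rintro ⟨_, a, ha, had⟩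
      obtain ⟨i, rfl⟩ := P.mem_al.1 ha
      have : P.dir z i = d := P.js_inj had
      rw [← this]
      exact Finset.orderEmbOfFin_mem _ _ _
  have h1 : y.1 = y'.1 := by
    apply Subtype.ext
    rw [hE y, hE y', hal]
  refine ⟨h1, fun i => ?_⟩
  have h2 : P.crd y i ∈ P.al y' := by
    rw [← hal]; exact P.mem_al.2 ⟨i, rfl⟩
  obtain ⟨j, hj⟩ := P.mem_al.1 h2
  have h3 : P.dir y' j = P.dir y i := P.js_inj (congrArg (fun x => x.2.2) hj)
  have h4 : P.dir y i = P.dir y' i := by
    unfold dir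
    have : ∀ (E E' : {E : Finset (Fin P.T) // E.card = P.k}), E = E' →
        E.1.orderEmbOfFin E.2 i = E'.1.orderEmbOfFin E'.2 i := by
      rintro E E' rfl; rfl
    exact this _ _ h1
  have h5 : j = i := P.dir_inj y' (h3.trans h4)
  subst h5
  exact ⟨(congrArg (fun x => x.1) hj).symm, (congrArg (fun x => x.2.1) hj).symm⟩

/-- The epochs of the parts. -/
def eV (P : Par) (r : ℕ) (y : P.Y) : Fin P.h → Bool :=
  P.glue (fun i => (y.2.1 i).1) (P.em r) true

/-- The directions of the parts. -/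
def rV (P : Par) (y : P.Y) : Fin P.h → ℕ :=
  P.glue (fun i => P.dv (P.js (P.dir y i))) (P.dv P.jm) (P.dv P.jb)

/-- The multipliers of the parts. -/
def lV (P : Par) (y : P.Y) : Fin P.h → ℕ :=
  P.glue (fun i => (y.2.1 i).2.2) y.2.2.1 y.2.2.2

lemma rV_inj (y : P.Y) : Function.Injective (P.rV y) := by
  intro i j
  unfold rV
  revert i
  refine P.forall_h (fun i => ?_) ?_ ?_
  · revert j
    refine P.forall_h (fun j => ?_) ?_ ?_
    · rw [glue_i0, glue_i0]
      intro h
      rw [P.dir_inj y (P.js_inj (P.dv_inj h))]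
    · rw [glue_i0, glue_i1]
      intro h
      exact absurd (P.dv_inj h) (P.js_ne_jm _)
    · rw [glue_i0, glue_i2]
      intro h
      exact absurd (P.dv_inj h) (P.js_ne_jb _)
  · revert j
    refine P.forall_h (fun j => ?_) ?_ ?_
    · rw [glue_i0, glue_i1]
      intro h
      exact absurd (P.dv_inj h).symm (P.js_ne_jm _)
    · intro _; rfl
    · rw [glue_i1, glue_i2]
      intro h
      exact absurd (P.dv_inj h) P.jm_ne_jb
  · revert j
    refine P.forall_h (fun j => ?_) ?_ ?_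
    · rw [glue_i0, glue_i2]
      intro h
      exact absurd (P.dv_inj h).symm (P.js_ne_jb _)
    · rw [glue_i1, glue_i2]
      intro h
      exact absurd (P.dv_inj h).symm P.jm_ne_jb
    · intro _; rfl

lemma rV_ge (y : P.Y) : ∀ i, P.T ≤ P.rV y i := by
  unfold rV
  refine P.forall_h (fun i => ?_) ?_ ?_
  · rw [glue_i0]; exact P.dv_ge _
  · rw [glue_i1]; exact P.dv_ge _
  · rw [glue_i2]; exact P.dv_ge _

lemma rV_le (y : P.Y) : ∀ i, P.rV y i ≤ 2 * P.T + 1 := by
  unfold rV
  refine P.forall_h (fun i => ?_) ?_ ?_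
  · rw [glue_i0]; exact P.dv_le _
  · rw [glue_i1]; exact P.dv_le _
  · rw [glue_i2]; exact P.dv_le _

/-- The multipliers are core multipliers. -/
lemma lV_core {u r : ℕ} {y : P.Y} (hy : y ∈ P.SY u r) : ∀ i,
    P.mu (P.eV r y i) * u ≤ P.lV y i ∧ P.lV y i < (P.h + 1) * (P.mu (P.eV r y i) * u) := by
  unfold SY at hy
  simp only [mem_product, Fintype.mem_piFinset] at hy
  obtain ⟨_, hφ, hm, hb⟩ := hy
  unfold eV lV
  refine P.forall_h (fun i => ?_) ?_ ?_
  · rw [glue_i0, glue_i0]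
    exact (P.mem_SS.1 (hφ i)).2
  · rw [glue_i1, glue_i1]
    unfold core at hm
    exact mem_Ico.1 hm
  · rw [glue_i2, glue_i2]
    unfold core at hb
    exact mem_Ico.1 hb

lemma ka_eq (u r : ℕ) (y : P.Y) : P.ka u r y =
    ∑ i, P.lV y i * P.dd (P.mu (P.eV r y i) * u) (P.rV y i) := by
  rw [P.sum_h]
  unfold ka lV eV rV
  simp only [glue_i0, glue_i1, glue_i2]
  rfl

/-- Injectivity of `(al, ka)` on the choices. -/
lemma inj_SY (hP : P.Alg) {u r : ℕ}
    (hM : 2 * (P.h * (P.Q ^ P.h * ((P.h + 1) * (P.g * u)))) < u * P.base)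
    {y y' : P.Y} (hy : y ∈ P.SY u r) (hy' : y' ∈ P.SY u r) (hal : P.al y = P.al y')
    (hka : P.ka u r y = P.ka u r y') : y = y' := by
  obtain ⟨h1, h2⟩ := al_determines hal
  have hdir : ∀ i, P.dir y i = P.dir y' i := by
    intro i
    unfold dir
    have : ∀ (E E' : {E : Finset (Fin P.T) // E.card = P.k}), E = E' →
        E.1.orderEmbOfFin E.2 i = E'.1.orderEmbOfFin E'.2 i := by
      rintro E E' rfl; rfl
    exact this _ _ h1
  have he : P.eV r y = P.eV r y' := by
    funext i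
    revert i
    unfold eV
    refine P.forall_h (fun i => ?_) ?_ ?_
    · rw [glue_i0, glue_i0]; exact (h2 i).1
    · rw [glue_i1, glue_i1]
    · rw [glue_i2, glue_i2]
  have hr : P.rV y = P.rV y' := by
    funext i
    revert i
    unfold rV
    refine P.forall_h (fun i => ?_) ?_ ?_
    · rw [glue_i0, glue_i0, hdir i]
    · rw [glue_i1, glue_i1]
    · rw [glue_i2, glue_i2]
  rw [ka_eq, ka_eq, he, hr] at hka
  have hlM : ∀ z ∈ P.SY u r, ∀ i, P.lV z i ≤ (P.h + 1) * (P.g * u) := by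
    intro z hz i
    refine ((lV_core hz i).2.le).trans ?_
    refine Nat.mul_le_mul_left _ (Nat.mul_le_mul_right _ (P.mu_le hP.hg _))
  have hl := hP.indep hM (P.eV r y') (P.rV y') (rV_inj y') (rV_ge y') (rV_le y')
    (P.lV y) (P.lV y') (hlM y hy) (hlM y' hy') hka
  have hl0 : ∀ i, (y.2.1 i).2.2 = (y'.2.1 i).2.2 := by
    intro i
    have := congrFun hl (P.i0 i)
    unfold lV at this
    rwa [glue_i0, glue_i0] at this
  have hl1 : y.2.2.1 = y'.2.2.1 := by
    have := congrFun hl P.i1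
    unfold lV at this
    rwa [glue_i1, glue_i1] at this
  have hl2 : y.2.2.2 = y'.2.2.2 := by
    have := congrFun hl P.i2
    unfold lV at this
    rwa [glue_i2, glue_i2] at this
  refine Prod.ext h1 (Prod.ext ?_ (Prod.ext hl1 hl2))
  funext i
  exact Prod.ext (h2 i).1 (Prod.ext (h2 i).2 (hl0 i))

/-- The value of a choice together with a big offset is a sum of `h` parts. -/
lemma xval_eq {u r : ℕ} (t : Bool × P.Idx → ℕ) (y : P.Y) (i j : Fin P.nc) :
    xval P.al (P.ka u r) t (y, (P.em r, (i, P.jm))) + t (true, (j, P.jb)) =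
      ∑ a, (P.glue (fun a => t (P.crd y a)) (t (P.em r, (i, P.jm))) (t (true, (j, P.jb))) a +
        P.lV y a * P.dd (P.mu (P.eV r y a) * u) (P.rV y a)) := by
  rw [sum_add_distrib, ← ka_eq, P.sum_h]
  simp only [glue_i0, glue_i1, glue_i2]
  unfold xval al
  simp only
  rw [sum_image (fun a _ b _ h => P.crd_inj y h)]
  ring

end Par

end Helper47.Spec
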