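import Mathlib

/-!
# The counting upper bound
-/

open Finset Filter Topology

namespace Helper47.Spec

lemma upper_count {h : ℕ} {a : ℕ → ℕ} (ha : StrictMono a) {n₀ : ℕ}
    (hn₀ : ∀ n ≥ n₀, ∃ f : Fin h → ℕ, ∑ i, a (f i) = n) (K : ℕ) :
    a K + 1 - n₀ ≤ (K + h).choose h := by
  classical
  let Φ : Sym (Fin (K + 1)) h → ℕ := fun s =>
    (s.1.map (fun i : Fin (K + 1) => a (i : ℕ))).sum
  have hsub : Icc n₀ (a K) ⊆ univ.image Φ := by
    intro n hn
    rw [mem_Icc] at hn
    obtain ⟨f, hf⟩ := hn₀ n hn.1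
    have hfK : ∀ i, f i < K + 1 := by
      intro i
      have h1 : a (f i) ≤ n := by
        rw [← hf]
        exact single_le_sum (f := fun i => a (f i)) (fun _ _ => Nat.zero_le _) (mem_univ i)
      have h2 : a (f i) ≤ a K := h1.trans hn.2
      have := ha.le_iff_le.1 h2
      omega
    rw [mem_image]
    refine ⟨⟨(univ : Finset (Fin h)).val.map (fun i => (⟨f i, hfK i⟩ : Fin (K + 1))), ?_⟩,
      mem_univ _, ?_⟩
    · rw [Multiset.card_map]
      simp
    · show (((univ : Finset (Fin h)).val.map (fun i => (⟨f i, hfK i⟩ : Fin (K + 1)))).map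
        (fun i : Fin (K + 1) => a (i : ℕ))).sum = n
      rw [Multiset.map_map, ← hf]
      rfl
  calc a K + 1 - n₀ = (Icc n₀ (a K)).card := by rw [Nat.card_Icc]
    _ ≤ (univ.image Φ).card := card_le_card hsub
    _ ≤ Fintype.card (Sym (Fin (K + 1)) h) := by
        refine card_image_le.trans ?_
        rw [card_univ]
    _ = (K + h).choose h := by
        rw [Sym.card_sym_eq_choose, Fintype.card_fin]
        congr 1
        omega

/-- The counting upper bound. -/
theorem upper {h : ℕ} (hh : 1 ≤ h) {lam : ℝ} (hl : 0 < lam) {a : ℕ → ℕ} (ha : StrictMono a)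
    (hbasis : ∀ᶠ n : ℕ in atTop, ∃ f : Fin h → ℕ, ∑ i, a (f i) = n)
    (hlim : Tendsto (fun n => (a n : ℝ) / (lam * ((n : ℝ) + 1) ^ h)) atTop (𝓝 1)) :
    lam ≤ 1 / h.factorial := by
  obtain ⟨n₀, hn₀⟩ := eventually_atTop.1 hbasis
  have hf : (0 : ℝ) < h.factorial := by exact_mod_cast h.factorial_pos
  have hbound : ∀ K : ℕ, (a K : ℝ) / (lam * ((K : ℝ) + 1) ^ h) ≤
      (((K : ℝ) + h) / ((K : ℝ) + 1)) ^ h * (1 / (lam * h.factorial)) +
        (n₀ : ℝ) / lam * (((K : ℝ) + 1) ^ h)⁻¹ := by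
    intro K
    have h1 := upper_count ha hn₀ K
    have h2 : a K ≤ (K + h).choose h + n₀ := by omega
    have h3 : (a K : ℝ) ≤ ((K + h).choose h : ℝ) + n₀ := by exact_mod_cast h2
    have h4 := Nat.choose_le_pow_div (α := ℝ) h (K + h)
    push_cast at h4
    have hK : (0 : ℝ) < (K : ℝ) + 1 := by positivity
    rw [div_le_iff₀ (by positivity)]
    calc (a K : ℝ) ≤ ((K : ℝ) + h) ^ h / h.factorial + n₀ := by linarith
      _ = _ := by
        rw [div_pow]
        field_simp
  have h1 : Tendsto (fun K : ℕ => ((K : ℝ) + h) / ((K : ℝ) + 1)) atTop (𝓝 1) := by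
    have h2 : Tendsto (fun K : ℕ => 1 + ((h : ℝ) - 1) / ((K : ℝ) + 1)) atTop (𝓝 (1 + 0)) := by
      refine tendsto_const_nhds.add ?_
      exact tendsto_const_nhds.div_atTop
        (tendsto_atTop_add_const_right _ _ tendsto_natCast_atTop_atTop)
    rw [add_zero] at h2
    refine h2.congr fun K => ?_
    have hK : (K : ℝ) + 1 ≠ 0 := by positivity
    field_simp
    ring
  have h2 : Tendsto (fun K : ℕ => (((K : ℝ) + 1) ^ h)⁻¹) atTop (𝓝 0) := by
    refine tendsto_inv_atTop_zero.comp ?_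
    exact (tendsto_pow_atTop (by omega)).comp
      (tendsto_atTop_add_const_right _ _ tendsto_natCast_atTop_atTop)
  have h3 := ((h1.pow h).mul_const (1 / (lam * h.factorial))).add
    (h2.const_mul ((n₀ : ℝ) / lam))
  rw [one_pow, one_mul, mul_zero, add_zero] at h3
  have h4 := le_of_tendsto_of_tendsto' hlim h3 hbound
  rw [le_div_iff₀ (by positivity), one_mul] at h4
  rw [le_div_iff₀ hf]
  exact h4

end Helper47.Spec
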